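import Pool.Agent.K7.H4.LT.Grad

/-!
Integrals for the measures `r ^ k dr dz` and `dτ(ω) r ^ k dr dz`.
-/

set_option autoImplicit false

open MeasureTheory Set Filter Topology Metric
open scoped ENNReal

namespace Pool.Agent.K7.H4.LT

open Pool.Agent.R117.RL

variable {k m : ℕ}

theorem nu_ae (k m : ℕ) : ∀ᵐ v ∂(nu k m), v ∈ HS m :=
  (withDensity_absolutelyContinuous _ _).ae_le (ae_restrict_mem (HS_meas m))

theorem prod_ae (k m : ℕ) : ∀ᵐ q ∂((tau k).prod (nu k m)), q.2 ∈ HS m :=
  Measure.quasiMeasurePreserving_snd.ae (nu_ae k m)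

theorem nu_iff {F : V m → ℝ} :
    Integrable F (nu k m) ↔ IntegrableOn (fun v => v 0 ^ k * F v) (HS m) := by
  unfold nu
  rw [integrable_withDensity_iff_integrable_smul' (dens_meas k m)
    (ae_of_all _ fun v => ENNReal.ofReal_lt_top)]
  refine integrable_congr ?_
  refine (ae_restrict_mem (HS_meas m)).mono fun v hv => ?_
  have hv0 : 0 < v 0 := hv
  simp only [smul_eq_mul]
  rw [ENNReal.toReal_ofReal (by positivity)]

theorem nu_int (F : V m → ℝ) : ∫ v, F v ∂(nu k m) = ∫ v in HS m, v 0 ^ k * F v := by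
  unfold nu
  rw [integral_withDensity_eq_integral_toReal_smul (dens_meas k m)
    (ae_of_all _ fun v => ENNReal.ofReal_lt_top)]
  refine integral_congr_ae ?_
  refine (ae_restrict_mem (HS_meas m)).mono fun v hv => ?_
  have hv0 : 0 < v 0 := hv
  simp only [smul_eq_mul]
  rw [ENNReal.toReal_ofReal (by positivity)]

theorem prod_meas {F : Sp k × V m → ℝ} (hF : ContinuousOn F {q | q.2 ∈ HS m}) :
    AEStronglyMeasurable F ((tau k).prod (nu k m)) := by
  have hs : MeasurableSet {q : Sp k × V m | q.2 ∈ HS m} := measurable_snd (HS_meas m)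
  rw [← Measure.restrict_eq_self_of_ae_mem (prod_ae k m)]
  exact hF.aestronglyMeasurable hs

theorem mp_integrable {F : E (k + 1) × (Fin m → ℝ) → ℝ} (hF : Integrable F) :
    Integrable (fun q => F (Psi k m q)) ((tau k).prod (nu k m)) :=
  (Psi_mp k m).integrable_comp_of_integrable hF

theorem mp_integral {F : E (k + 1) × (Fin m → ℝ) → ℝ} (hF : AEStronglyMeasurable F) :
    ∫ x, F x = ∫ q, F (Psi k m q) ∂((tau k).prod (nu k m)) := by
  have h := (Psi_mp k m).map_eq
  rw [← h] at hF ⊢
  exact integral_map (Psi_mp k m).measurable.aemeasurable hF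

theorem mp_integrable_iff {F : E (k + 1) × (Fin m → ℝ) → ℝ} (hF : AEStronglyMeasurable F) :
    Integrable F ↔ Integrable (fun q => F (Psi k m q)) ((tau k).prod (nu k m)) := by
  have h := (Psi_mp k m).map_eq
  rw [← h] at hF ⊢
  exact integrable_map_measure hF (Psi_mp k m).measurable.aemeasurable

/-- the functions continuous for `y ≠ 0` are measurable -/
theorem meas_ne {d : ℕ} (hd : 0 < d) {F : Type} [NormedAddCommGroup F] [SecondCountableTopology F]
    {f : E d × (Fin m → ℝ) → F} (hf : ContinuousOn f {x | x.1 ≠ 0}) : AEStronglyMeasurable f := by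
  have hs : MeasurableSet {x : E d × (Fin m → ℝ) | x.1 ≠ 0} :=
    measurable_fst (measurableSet_singleton _).compl
  haveI : Nonempty (Fin d) := ⟨⟨0, hd⟩⟩
  haveI : Nontrivial (E d) := inferInstance
  have hae : ∀ᵐ x : E d × (Fin m → ℝ), x ∈ {x : E d × (Fin m → ℝ) | x.1 ≠ 0} := by
    have h0 : ∀ᵐ y : E d, y ≠ 0 := by
      rw [ae_iff]
      simp
    exact Measure.quasiMeasurePreserving_fst.ae h0
  rw [← Measure.restrict_eq_self_of_ae_mem hae]
  exact hf.aestronglyMeasurable hs

end Pool.Agent.K7.H4.LT
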