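import Pool.Agent.K7.H4.LT.Omega
import Pool.Agent.K7.H4.LT.Nu

/-!
Orthonormal systems with a fixed angular space.
-/

set_option autoImplicit false

open MeasureTheory Set Filter Topology Metric
open scoped ENNReal

namespace Pool.Agent.K7.H4.LT

open Pool.Agent.R117.RL

/-- the functions `Y_j`, homogeneous of degree zero, and the two inequalities for their span on the
unit sphere -/
structure Ang (k : ℕ) {g : ℕ} (lam B : ℝ) (Y : Fin g → E (k + 1) → ℝ) : Prop where
  smooth : ∀ j, ContDiffOn ℝ 1 (Y j) {0}ᶜ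
  homog : ∀ j (t : ℝ) (x : E (k + 1)), 0 < t → Y j (t • x) = Y j x
  sup : ∀ (a : Fin g → ℂ) (ω : Sp k), ‖∑ j, a j * (Y j ω : ℂ)‖ ^ 2 ≤
    B * ∫ θ : Sp k, ‖∑ j, a j * (Y j θ : ℂ)‖ ^ 2 ∂(tau k)
  gap : ∀ a : Fin g → ℂ, lam * ∫ θ : Sp k, ‖∑ j, a j * (Y j θ : ℂ)‖ ^ 2 ∂(tau k) ≤
    ∫ θ : Sp k, tg Y a θ ∂(tau k)

/-- the energy of a slice -/
noncomputable def EE (k m : ℕ) (lam : ℝ) (U : V m → ℂ) : ℝ :=
  (∫ v in HS m, v 0 ^ k * (‖dU U 0 v‖ ^ 2 + lam * (‖U v‖ ^ 2 / v 0 ^ 2))) +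
    ∑ j : Fin m, ∫ v in HS m, v 0 ^ k * ‖dU U j.succ v‖ ^ 2

section basic

variable {k m g : ℕ} {lam B : ℝ} {Y : Fin g → E (k + 1) → ℝ}

theorem sp_norm (ω : Sp k) : ‖(ω : E (k + 1))‖ = 1 := by
  have := ω.2
  rwa [mem_sphere_zero_iff_norm] at this

theorem sp_ne (ω : Sp k) : (ω : E (k + 1)) ≠ 0 := by
  intro h
  have h1 := sp_norm ω
  rw [h, norm_zero] at h1
  exact zero_ne_one h1

theorem Psi_ne (ω : Sp k) {v : V m} (hv : v ∈ HS m) : (Psi k m (ω, v)).1 ≠ 0 :=
  smul_ne_zero (ne_of_gt hv) (sp_ne ω)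

theorem kap_Psi (ω : Sp k) {v : V m} (hv : v ∈ HS m) : kap (Psi k m (ω, v)) = v := by
  have hv0 : 0 < v 0 := hv
  have hn : ‖(Psi k m (ω, v)).1‖ = v 0 := by
    show ‖v 0 • (ω : E (k + 1))‖ = v 0
    rw [norm_smul, sp_norm, mul_one, Real.norm_of_nonneg hv0.le]
  unfold kap
  rw [hn]
  exact Fin.cons_self_tail v

theorem Ang.Y_Psi (hY : Ang k lam B Y) (j : Fin g) (ω : Sp k) {v : V m} (hv : v ∈ HS m) :
    Y j (Psi k m (ω, v)).1 = Y j ω := hY.homog j (v 0) ω hv

theorem Ang.contY (hY : Ang k lam B Y) (j : Fin g) : Continuous (fun ω : Sp k => Y j ω) := by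
  have h1 : ContinuousOn (Y j) {0}ᶜ := (hY.smooth j).continuousOn
  exact h1.comp_continuous continuous_subtype_val fun ω => sp_ne ω

theorem Ang.contdY (hY : Ang k lam B Y) (j : Fin g) (h : E (k + 1)) :
    Continuous (fun ω : Sp k => fderiv ℝ (Y j) ω h) := by
  have h1 : ContinuousOn (fun x => fderiv ℝ (Y j) x h) {0}ᶜ :=
    ((hY.smooth j).continuousOn_fderiv_of_isOpen isOpen_compl_singleton le_rfl).clm_apply
      continuousOn_const
  exact h1.comp_continuous continuous_subtype_val fun ω => sp_ne ω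

theorem dU_sum {G : Fin g → V m → ℂ} (hG : ∀ j, ContDiffOn ℝ 1 (G j) (HS m)) (y : Fin g → ℂ)
    (i : Fin (m + 1)) {v : V m} (hv : v ∈ HS m) :
    dU (fun v => ∑ j, G j v * y j) i v = ∑ j, dU (G j) i v * y j := by
  have h1 : ∀ j, HasFDerivAt (fun v => G j v * y j) (y j • fderiv ℝ (G j) v) v := by
    intro j
    have h2 : HasFDerivAt (G j) (fderiv ℝ (G j) v) v :=
      (((hG j).differentiableOn one_ne_zero).differentiableAt
        ((HS_open m).mem_nhds hv)).hasFDerivAt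
    exact h2.mul_const _
  have h3 := (HasFDerivAt.fun_sum (u := Finset.univ) fun j _ => h1 j).fderiv
  unfold dU
  rw [h3, sum_apply]
  refine Finset.sum_congr rfl fun j _ => ?_
  rw [smul_apply, smul_eq_mul]
  ring

theorem cont_snd {F : Type} [TopologicalSpace F] {f : V m → F} (hf : ContinuousOn f (HS m)) :
    ContinuousOn (fun q : Sp k × V m => f q.2) {q | q.2 ∈ HS m} :=
  hf.comp continuousOn_snd fun _ hq => hq

theorem Ang.cont_S (hY : Ang k lam B Y) {G : Fin g → V m → ℂ}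
    (hG : ∀ j, ContinuousOn (G j) (HS m)) :
    ContinuousOn (fun q : Sp k × V m => ∑ j, G j q.2 * (Y j q.1 : ℂ)) {q | q.2 ∈ HS m} := by
  refine continuousOn_finsetSum _ fun j _ => ?_
  refine (cont_snd (hG j)).mul ?_
  exact ((Complex.continuous_ofReal.comp (hY.contY j)).comp continuous_fst).continuousOn

theorem cG {G : Fin g → V m → ℂ} (hG : ∀ j, ContDiffOn ℝ 1 (G j) (HS m)) (i : Fin (m + 1))
    (j : Fin g) : ContinuousOn (dU (G j) i) (HS m) :=
  ((hG j).continuousOn_fderiv_of_isOpen (HS_open m) le_rfl).clm_apply continuousOn_const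

theorem Ang.cont_D (hY : Ang k lam B Y) {G : Fin g → V m → ℂ}
    (hG : ∀ j, ContDiffOn ℝ 1 (G j) (HS m)) (i : Fin (m + 1)) :
    ContinuousOn (fun q : Sp k × V m => ‖dU (fun v => ∑ j, G j v * (Y j q.1 : ℂ)) i q.2‖ ^ 2)
      {q | q.2 ∈ HS m} := by
  have h1 := (hY.cont_S (G := fun j => dU (G j) i) fun j => cG hG i j).norm.pow 2
  refine h1.congr fun q hq => ?_
  show ‖dU (fun v => ∑ j, G j v * (Y j q.1 : ℂ)) i q.2‖ ^ 2 = _
  rw [dU_sum hG _ i hq]
  rfl

theorem Ang.cont_T (hY : Ang k lam B Y) {G : Fin g → V m → ℂ}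
    (hG : ∀ j, ContDiffOn ℝ 1 (G j) (HS m)) :
    ContinuousOn (fun q : Sp k × V m => tg Y (fun j => G j q.2) q.1 / q.2 0 ^ 2)
      {q | q.2 ∈ HS m} := by
  refine ContinuousOn.div ?_ (cont_snd ((c0 m).pow 2)) fun q hq => pow_ne_zero 2 (ne_of_gt hq)
  unfold tg
  refine continuousOn_finsetSum _ fun i _ => ContinuousOn.pow (ContinuousOn.norm ?_) 2
  refine continuousOn_finsetSum _ fun j _ => ?_
  refine (cont_snd (hG j).continuousOn).mul ?_
  exact ((Complex.continuous_ofReal.comp (hY.contdY j _)).comp continuous_fst).continuousOn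

theorem Ang.cont_L (hY : Ang k lam B Y) {G : Fin g → V m → ℂ}
    (hG : ∀ j, ContDiffOn ℝ 1 (G j) (HS m)) :
    ContinuousOn (fun q : Sp k × V m => lam * (‖∑ j, G j q.2 * (Y j q.1 : ℂ)‖ ^ 2 / q.2 0 ^ 2))
      {q | q.2 ∈ HS m} := by
  refine continuousOn_const.mul (ContinuousOn.div ?_ (cont_snd ((c0 m).pow 2))
    fun q hq => pow_ne_zero 2 (ne_of_gt hq))
  exact (hY.cont_S fun j => (hG j).continuousOn).norm.pow 2

theorem tg_nonneg (a : Fin g → ℂ) (x : E (k + 1)) : 0 ≤ tg Y a x :=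
  Finset.sum_nonneg fun _ _ => sq_nonneg _

theorem Ang.int_sq (hY : Ang k lam B Y) (a : Fin g → ℂ) :
    Integrable (fun θ : Sp k => ‖∑ j, a j * (Y j θ : ℂ)‖ ^ 2) (tau k) := by
  refine Continuous.integrable_of_hasCompactSupport ?_ (HasCompactSupport.of_compactSpace _)
  refine (continuous_finsetSum _ fun j _ => ?_).norm.pow 2
  exact continuous_const.mul (Complex.continuous_ofReal.comp (hY.contY j))

end basic

/-- **one function**: almost all slices are of finite energy, and the energies of the slices -/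
theorem one_fun {k m g : ℕ} {lam B : ℝ} {Y : Fin g → E (k + 1) → ℝ} (hY : Ang k lam B Y)
    (hl : 0 ≤ lam) {G : Fin g → V m → ℂ} (hG : ∀ j, ContDiffOn ℝ 1 (G j) (HS m))
    {u : E (k + 1) × (Fin m → ℝ) → ℂ}
    (hu : ∀ x, x.1 ≠ 0 → u x = ∑ j, G j (kap x) * (Y j x.1 : ℂ))
    (h2 : Integrable (fun x => ‖u x‖ ^ 2)) (he : Integrable (gr2 u)) :
    (∀ᵐ ω : Sp k ∂(tau k), Half k m lam (fun v => ∑ j, G j v * (Y j ω : ℂ))) ∧
    Integrable (fun ω : Sp k => EE k m lam (fun v => ∑ j, G j v * (Y j ω : ℂ))) (tau k) ∧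
    ∫ ω : Sp k, EE k m lam (fun v => ∑ j, G j v * (Y j ω : ℂ)) ∂(tau k) ≤ ∫ x, gr2 u x := by
  set P := (tau k).prod (nu k m) with hP
  set S : Sp k × V m → ℂ := fun q => ∑ j, G j q.2 * (Y j q.1 : ℂ) with hS
  set D : Fin (m + 1) → Sp k × V m → ℝ :=
    fun i q => ‖dU (fun v => ∑ j, G j v * (Y j q.1 : ℂ)) i q.2‖ ^ 2 with hD
  set T : Sp k × V m → ℝ := fun q => tg Y (fun j => G j q.2) q.1 / q.2 0 ^ 2 with hT
  set L : Sp k × V m → ℝ := fun q => lam * (‖∑ j, G j q.2 * (Y j q.1 : ℂ)‖ ^ 2 / q.2 0 ^ 2) with hL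
  have hSm : AEStronglyMeasurable (fun q => ‖S q‖ ^ 2) P :=
    prod_meas ((hY.cont_S fun j => (hG j).continuousOn).norm.pow 2)
  have hDm : ∀ i, AEStronglyMeasurable (D i) P := fun i => prod_meas (hY.cont_D hG i)
  have hTm : AEStronglyMeasurable T P := prod_meas (hY.cont_T hG)
  have hLm : AEStronglyMeasurable L P := prod_meas (hY.cont_L hG)
  have hD0 : ∀ i q, 0 ≤ D i q := fun i q => sq_nonneg _
  have hT0 : ∀ q, 0 ≤ T q := fun q => div_nonneg (tg_nonneg _ _) (sq_nonneg _)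
  have hL0 : ∀ q, 0 ≤ L q := fun q => mul_nonneg hl (by positivity)
  have hae := prod_ae k m
  -- the square
  have hSi : Integrable (fun q => ‖S q‖ ^ 2) P := by
    refine (mp_integrable h2).congr ?_
    filter_upwards [hae] with q hq
    rw [hu _ (Psi_ne q.1 hq), kap_Psi q.1 hq]
    simp only [hS]
    congr 2
    refine Finset.sum_congr rfl fun j _ => ?_
    rw [hY.Y_Psi j q.1 hq]
  -- the energy
  have hgi := mp_integrable he
  have hgeq : ∀ᵐ q ∂P, gr2 u (Psi k m q) = D 0 q + T q + ∑ i : Fin m, D i.succ q := by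
    filter_upwards [hae] with q hq
    exact gr2_polar hG hY.smooth hY.homog hu q.1 hq
  have hDi0 : Integrable (D 0) P := by
    refine hgi.mono' (hDm 0) ?_
    filter_upwards [hgeq] with q hq
    rw [Real.norm_eq_abs, abs_of_nonneg (hD0 0 q), hq]
    have := Finset.sum_nonneg fun (i : Fin m) (_ : i ∈ Finset.univ) => hD0 i.succ q
    have := hT0 q
    linarith
  have hTi : Integrable T P := by
    refine hgi.mono' hTm ?_
    filter_upwards [hgeq] with q hq
    rw [Real.norm_eq_abs, abs_of_nonneg (hT0 q), hq]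
    have := Finset.sum_nonneg fun (i : Fin m) (_ : i ∈ Finset.univ) => hD0 i.succ q
    have := hD0 0 q
    linarith
  have hDis : ∀ i : Fin m, Integrable (D i.succ) P := by
    intro i
    refine hgi.mono' (hDm i.succ) ?_
    filter_upwards [hgeq] with q hq
    rw [Real.norm_eq_abs, abs_of_nonneg (hD0 i.succ q), hq]
    have h3 := Finset.single_le_sum (fun (i : Fin m) (_ : i ∈ Finset.univ) => hD0 i.succ q)
      (Finset.mem_univ i)
    have := hD0 0 q
    have := hT0 q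
    linarith
  -- the centrifugal part
  have hLT : ∀ v : V m, ∫ ω : Sp k, L (ω, v) ∂(tau k) ≤ ∫ ω : Sp k, T (ω, v) ∂(tau k) := by
    intro v
    have h3 := hY.gap fun j => G j v
    have e1 : ∫ ω : Sp k, L (ω, v) ∂(tau k) =
        (lam * ∫ θ : Sp k, ‖∑ j, G j v * (Y j θ : ℂ)‖ ^ 2 ∂(tau k)) / v 0 ^ 2 := by
      simp only [hL]
      rw [integral_const_mul, integral_div]
      ring
    have e2 : ∫ ω : Sp k, T (ω, v) ∂(tau k) =
        (∫ θ : Sp k, tg Y (fun j => G j v) θ ∂(tau k)) / v 0 ^ 2 := by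
      simp only [hT]
      rw [integral_div]
    rw [e1, e2]
    exact div_le_div_of_nonneg_right h3 (sq_nonneg _)
  have hLi : Integrable L P := by
    rw [hP, integrable_prod_iff' hLm]
    constructor
    · refine ae_of_all _ fun v => ?_
      simp only [hL]
      exact ((hY.int_sq fun j => G j v).div_const _).const_mul _
    · refine (hTi.integral_prod_right).mono' ?_ ?_
      · exact hLm.norm.prod_swap.integral_prod_right'
      · refine ae_of_all _ fun v => ?_
        rw [Real.norm_eq_abs, abs_of_nonneg (integral_nonneg fun _ => norm_nonneg _)]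
        refine le_trans (le_of_eq ?_) (hLT v)
        refine integral_congr_ae (ae_of_all _ fun ω => ?_)
        show ‖L (ω, v)‖ = L (ω, v)
        rw [Real.norm_eq_abs, abs_of_nonneg (hL0 _)]
  have hLTi : ∫ q, L q ∂P ≤ ∫ q, T q ∂P := by
    rw [hP, integral_prod_symm _ hLi, integral_prod_symm _ hTi]
    exact integral_mono hLi.integral_prod_right hTi.integral_prod_right hLT
  have hDL : Integrable (fun q => D 0 q + L q) P := hDi0.add hLi
  -- the slices
  have hEE : ∀ ω : Sp k, EE k m lam (fun v => ∑ j, G j v * (Y j ω : ℂ)) =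
      (∫ v, (D 0 (ω, v) + L (ω, v)) ∂(nu k m)) + ∑ j : Fin m, ∫ v, D j.succ (ω, v) ∂(nu k m) := by
    intro ω
    unfold EE
    rw [nu_int]
    congr 1
    refine Finset.sum_congr rfl fun j _ => ?_
    rw [nu_int]
  have hI1 : Integrable (fun ω => ∫ v, (D 0 (ω, v) + L (ω, v)) ∂(nu k m)) (tau k) :=
    hDL.integral_prod_left
  have hI2 : ∀ j : Fin m, Integrable (fun ω => ∫ v, D j.succ (ω, v) ∂(nu k m)) (tau k) := fun j =>
    (hDis j).integral_prod_left
  refine ⟨?_, ?_, ?_⟩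
  · have h3 := hSi.prod_right_ae
    have h4 := hDL.prod_right_ae
    have h5 : ∀ᵐ ω ∂(tau k), ∀ j : Fin m, Integrable (fun v => D j.succ (ω, v)) (nu k m) := by
      rw [ae_all_iff]
      exact fun j => (hDis j).prod_right_ae
    filter_upwards [h3, h4, h5] with ω h3 h4 h5
    refine ⟨?_, ?_, ?_, ?_⟩
    · exact ContDiffOn.sum fun j _ => (hG j).mul contDiffOn_const
    · exact nu_iff.1 h3
    · exact nu_iff.1 h4
    · exact fun j => nu_iff.1 (h5 j)
  · rw [funext hEE]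
    exact hI1.add (integrable_finsetSum _ fun j _ => hI2 j)
  · rw [funext hEE, integral_add hI1 (integrable_finsetSum _ fun j _ => hI2 j),
      integral_finsetSum _ fun j _ => hI2 j]
    have e1 : ∫ ω, ∫ v, (D 0 (ω, v) + L (ω, v)) ∂(nu k m) ∂(tau k) = ∫ q, (D 0 q + L q) ∂P := by
      rw [hP, integral_prod _ hDL]
    have e2 : ∀ j : Fin m, ∫ ω, ∫ v, D j.succ (ω, v) ∂(nu k m) ∂(tau k) = ∫ q, D j.succ q ∂P := by
      intro j
      rw [hP, integral_prod _ (hDis j)]
    rw [e1, Finset.sum_congr rfl fun j _ => e2 j, integral_add hDi0 hLi]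
    have e3 : ∫ x, gr2 u x = ∫ q, D 0 q ∂P + ∫ q, T q ∂P + ∑ j : Fin m, ∫ q, D j.succ q ∂P := by
      have hDT : Integrable (fun q => D 0 q + T q) P := hDi0.add hTi
      rw [mp_integral he.1, integral_congr_ae hgeq,
        integral_add hDT (integrable_finsetSum _ fun j _ => hDis j),
        integral_add hDi0 hTi, integral_finsetSum _ fun j _ => hDis j]
    rw [e3]
    linarith

end Pool.Agent.K7.H4.LT
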