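import Pool.Agent.K7.H4.LT.Ang

/-!
The kinetic inequality for orthonormal systems with a fixed angular space.
-/

set_option autoImplicit false

open MeasureTheory Set Filter Topology Metric
open scoped ENNReal

namespace Pool.Agent.K7.H4.LT

open Pool.Agent.R117.RL

/-- orthonormal systems of functions `∑ G_j(|y|, z) Y_j(y)` of finite kinetic energy -/
structure AngSys {k m g N : ℕ} (Y : Fin g → E (k + 1) → ℝ)
    (u : Fin N → E (k + 1) × (Fin m → ℝ) → ℂ) : Prop where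
  form : ∃ G : Fin N → Fin g → V m → ℂ, (∀ n j, ContDiffOn ℝ 1 (G n j) (HS m)) ∧
    ∀ n x, x.1 ≠ 0 → u n x = ∑ j, G n j (kap x) * (Y j x.1 : ℂ)
  square : ∀ n, Integrable (fun x => ‖u n x‖ ^ 2)
  energy : ∀ n, Integrable (gr2 (u n))
  orthonormal : ∀ n n', ∫ x, star (u n x) * u n' x = if n = n' then (1 : ℂ) else 0

section

variable {k m g N : ℕ} {lam B : ℝ} {Y : Fin g → E (k + 1) → ℝ}
  {u : Fin N → E (k + 1) × (Fin m → ℝ) → ℂ}

theorem kap_cont {d : ℕ} : Continuous (kap (d := d) (m := m)) :=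
  cons_cont.comp (continuous_fst.norm.prodMk continuous_snd)

theorem cont_u (hY : Ang k lam B Y) {G : Fin g → V m → ℂ} (hG : ∀ j, ContDiffOn ℝ 1 (G j) (HS m))
    {u : E (k + 1) × (Fin m → ℝ) → ℂ}
    (hu : ∀ x, x.1 ≠ 0 → u x = ∑ j, G j (kap x) * (Y j x.1 : ℂ)) :
    ContinuousOn u {x | x.1 ≠ 0} := by
  have h1 : ContinuousOn (fun x : E (k + 1) × (Fin m → ℝ) => ∑ j, G j (kap x) * (Y j x.1 : ℂ))
      {x | x.1 ≠ 0} := by
    refine continuousOn_finsetSum _ fun j _ => ?_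
    refine ((hG j).continuousOn.comp kap_cont.continuousOn fun x hx => ?_).mul ?_
    · show 0 < (Fin.cons ‖x.1‖ x.2 : V m) 0
      rw [Fin.cons_zero]
      exact norm_pos_iff.2 hx
    · refine Complex.continuous_ofReal.comp_continuousOn ?_
      exact (hY.smooth j).continuousOn.comp continuousOn_fst fun x hx => hx
  exact h1.congr fun x hx => hu x hx

theorem sum_sq (hm : ∀ n, AEStronglyMeasurable (u n))
    (h2 : ∀ n, Integrable (fun x => ‖u n x‖ ^ 2))
    (ho : ∀ n n', ∫ x, star (u n x) * u n' x = if n = n' then (1 : ℂ) else 0) (b : Fin N → ℂ) :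
    Integrable (fun x => ‖∑ n, b n * u n x‖ ^ 2) ∧
    ∫ x, ‖∑ n, b n * u n x‖ ^ 2 = ∑ n, ‖b n‖ ^ 2 := by
  have hL : ∀ n, MemLp (u n) 2 := fun n => (memLp_two_iff_integrable_sq_norm (hm n)).2 (h2 n)
  have hi : ∀ n n', Integrable (fun x => star (u n x) * u n' x) := by
    intro n n'
    exact MemLp.integrable_mul (hL n).star (hL n')
  have hi2 : ∀ n n', Integrable (fun x => (star (b n) * b n') * (star (u n x) * u n' x)) :=
    fun n n' => (hi n n').const_mul _
  have e1 : ∀ x, ((‖∑ n, b n * u n x‖ ^ 2 : ℝ) : ℂ) =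
      ∑ n, ∑ n', (star (b n) * b n') * (star (u n x) * u n' x) := by
    intro x
    rw [Complex.ofReal_pow, ← Complex.conj_mul', map_sum, Finset.sum_mul_sum]
    refine Finset.sum_congr rfl fun n _ => Finset.sum_congr rfl fun n' _ => ?_
    rw [map_mul]
    simp only [RCLike.star_def]
    ring
  have hI : Integrable (fun x => ((‖∑ n, b n * u n x‖ ^ 2 : ℝ) : ℂ)) := by
    simp only [e1]
    exact integrable_finsetSum _ fun n _ => integrable_finsetSum _ fun n' _ => hi2 n n'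
  refine ⟨?_, ?_⟩
  · refine hI.re.congr (ae_of_all _ fun x => ?_)
    exact Complex.ofReal_re _
  · have h3 : ((∫ x, ‖∑ n, b n * u n x‖ ^ 2 : ℝ) : ℂ) = ((∑ n, ‖b n‖ ^ 2 : ℝ) : ℂ) := by
      rw [← integral_complex_ofReal]
      simp only [e1]
      rw [integral_finsetSum _ fun n _ => integrable_finsetSum _ fun n' _ => hi2 n n']
      push_cast
      refine Finset.sum_congr rfl fun n _ => ?_
      rw [integral_finsetSum _ fun n' _ => hi2 n n']
      simp only [integral_const_mul, ho]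
      rw [Finset.sum_eq_single n]
      · simp only [if_true, mul_one, RCLike.star_def]
        rw [Complex.conj_mul']
      · intro n' _ hn
        rw [if_neg (Ne.symm hn), mul_zero]
      · simp
    exact_mod_cast h3

/-- the Gram inequality for the slices -/
theorem gram_slice (hB : 0 ≤ B) (hY : Ang k lam B Y) {G : Fin N → Fin g → V m → ℂ}
    (hG : ∀ n j, ContDiffOn ℝ 1 (G n j) (HS m))
    (hu : ∀ n x, x.1 ≠ 0 → u n x = ∑ j, G n j (kap x) * (Y j x.1 : ℂ))
    (h2 : ∀ n, Integrable (fun x => ‖u n x‖ ^ 2))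
    (ho : ∀ n n', ∫ x, star (u n x) * u n' x = if n = n' then (1 : ℂ) else 0) (ω : Sp k)
    (b : Fin N → ℂ) :
    ∫ v in HS m, v 0 ^ k * ‖∑ n, b n * ∑ j, G n j v * (Y j ω : ℂ)‖ ^ 2 ≤ B * ∑ n, ‖b n‖ ^ 2 := by
  have hm : ∀ n, AEStronglyMeasurable (u n) := fun n =>
    meas_ne (Nat.succ_pos k) (cont_u hY (hG n) (hu n))
  obtain ⟨h3, h4⟩ := sum_sq hm h2 ho b
  set H : Sp k × V m → ℝ := fun q => ‖∑ n, b n * ∑ j, G n j q.2 * (Y j q.1 : ℂ)‖ ^ 2 with hH
  have h5 : (fun q => ‖∑ n, b n * u n (Psi k m q)‖ ^ 2) =ᵐ[(tau k).prod (nu k m)] H := by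
    filter_upwards [prod_ae k m] with q hq
    simp only [hH]
    congr 2
    refine Finset.sum_congr rfl fun n _ => ?_
    rw [hu n _ (Psi_ne q.1 hq), kap_Psi q.1 hq]
    congr 1
    refine Finset.sum_congr rfl fun j _ => ?_
    rw [hY.Y_Psi j q.1 hq]
  have h6 : Integrable H ((tau k).prod (nu k m)) := (mp_integrable h3).congr h5
  have h7 : ∫ q, H q ∂((tau k).prod (nu k m)) = ∑ n, ‖b n‖ ^ 2 := by
    rw [← h4, mp_integral h3.1]
    exact (integral_congr_ae h5).symm
  have h8 : ∀ v : V m, H (ω, v) ≤ B * ∫ θ : Sp k, H (θ, v) ∂(tau k) := by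
    intro v
    have h9 := hY.sup (fun j => ∑ n, b n * G n j v) ω
    have e : ∀ θ : Sp k, ∑ j, (∑ n, b n * G n j v) * (Y j θ : ℂ) =
        ∑ n, b n * ∑ j, G n j v * (Y j θ : ℂ) := by
      intro θ
      simp only [Finset.sum_mul, Finset.mul_sum]
      rw [Finset.sum_comm]
      refine Finset.sum_congr rfl fun n _ => Finset.sum_congr rfl fun j _ => ?_
      ring
    simp only [e] at h9
    exact h9
  have h10 : ∫ v in HS m, v 0 ^ k * ‖∑ n, b n * ∑ j, G n j v * (Y j ω : ℂ)‖ ^ 2 =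
      ∫ v, H (ω, v) ∂(nu k m) := (nu_int _).symm
  rw [h10, ← h7, integral_prod_symm _ h6, ← integral_const_mul]
  refine integral_mono_of_nonneg (ae_of_all _ fun v => sq_nonneg _)
    (h6.integral_prod_right.const_mul B) (ae_of_all _ h8)

/-- **the kinetic inequality for orthonormal systems with a fixed angular space** -/
theorem ang_ineq (hk : 1 ≤ k) (hl : 0 ≤ lam) (hc : 0 < ((k : ℝ) / 2) ^ 2 - (k : ℝ) / 2 + lam)
    (hB : 0 < B) (hY : Ang k lam B Y) (hu : AngSys Y u) :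
    Integrable (fun x => (∑ n, ‖u n x‖ ^ 2) ^ (1 + 2 / ((k + m + 1 : ℕ) : ℝ))) ∧
    CL3 k m (((k : ℝ) / 2) ^ 2 - (k : ℝ) / 2 + lam) (1 / B) *
      ∫ x, (∑ n, ‖u n x‖ ^ 2) ^ (1 + 2 / ((k + m + 1 : ℕ) : ℝ)) ≤ ∑ n, ∫ x, gr2 (u n) x := by
  obtain ⟨⟨G, hG, hf⟩, h2, he, ho⟩ := hu
  set c := ((k : ℝ) / 2) ^ 2 - (k : ℝ) / 2 + lam with hcdef
  set p : ℝ := 1 + 2 / ((k + m + 1 : ℕ) : ℝ) with hp
  set C := CL3 k m c (1 / B) with hC
  have hCpos : 0 < C := CL3_pos hk hc (by positivity)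
  have hm : ∀ n, AEStronglyMeasurable (u n) := fun n =>
    meas_ne (Nat.succ_pos k) (cont_u hY (hG n) (hf n))
  set U : Sp k → Fin N → V m → ℂ := fun ω n v => ∑ j, G n j v * (Y j ω : ℂ) with hU
  have h1 := fun n => one_fun hY hl (hG n) (hf n) (h2 n) (he n)
  have hae : ∀ᵐ ω : Sp k ∂(tau k), ∀ n, Half k m lam (U ω n) := by
    rw [ae_all_iff]
    exact fun n => (h1 n).1
  set R : Sp k × V m → ℝ := fun q => (∑ n, ‖U q.1 n q.2‖ ^ 2) ^ p with hR
  have hR0 : ∀ q, 0 ≤ R q := fun q => Real.rpow_nonneg (Finset.sum_nonneg fun n _ => sq_nonneg _) _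
  have hRm : AEStronglyMeasurable R ((tau k).prod (nu k m)) := by
    refine prod_meas ?_
    refine ContinuousOn.rpow_const ?_ fun q _ => Or.inr (by positivity)
    refine continuousOn_finsetSum _ fun n _ => ContinuousOn.pow (ContinuousOn.norm ?_) 2
    exact hY.cont_S fun j => (hG n j).continuousOn
  have hmain : ∀ᵐ ω : Sp k ∂(tau k), Integrable (fun v => R (ω, v)) (nu k m) ∧
      C * ∫ v, R (ω, v) ∂(nu k m) ≤ ∑ n, EE k m lam (U ω n) := by
    filter_upwards [hae] with ω hω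
    have h3 := omega_ineq hk hl hc hB (U ω) hω fun b => gram_slice hB.le hY hG hf h2 ho ω b
    constructor
    · exact nu_iff.2 h3.1
    · rw [nu_int]
      exact h3.2
  have hEi : Integrable (fun ω => ∑ n, EE k m lam (U ω n)) (tau k) :=
    integrable_finsetSum _ fun n _ => (h1 n).2.1
  have hRi : Integrable R ((tau k).prod (nu k m)) := by
    rw [integrable_prod_iff hRm]
    constructor
    · filter_upwards [hmain] with ω hω
      exact hω.1
    · refine (hEi.const_mul C⁻¹).mono' hRm.norm.integral_prod_right' ?_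
      filter_upwards [hmain] with ω hω
      rw [Real.norm_eq_abs, abs_of_nonneg (integral_nonneg fun _ => norm_nonneg _)]
      have e : ∫ v, ‖R (ω, v)‖ ∂(nu k m) = ∫ v, R (ω, v) ∂(nu k m) :=
        integral_congr_ae (ae_of_all _ fun v => by
          show ‖R (ω, v)‖ = R (ω, v)
          rw [Real.norm_eq_abs, abs_of_nonneg (hR0 _)])
      rw [e, ← div_eq_inv_mul, le_div_iff₀ hCpos, mul_comm]
      exact hω.2
  have hRint : C * ∫ q, R q ∂((tau k).prod (nu k m)) ≤ ∑ n, ∫ x, gr2 (u n) x := by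
    rw [integral_prod _ hRi, ← integral_const_mul]
    calc ∫ ω, C * ∫ v, R (ω, v) ∂(nu k m) ∂(tau k)
        ≤ ∫ ω, ∑ n, EE k m lam (U ω n) ∂(tau k) := by
          refine integral_mono_ae (hRi.integral_prod_left.const_mul C) hEi ?_
          filter_upwards [hmain] with ω hω
          exact hω.2
      _ = ∑ n, ∫ ω, EE k m lam (U ω n) ∂(tau k) := integral_finsetSum _ fun n _ => (h1 n).2.1
      _ ≤ _ := Finset.sum_le_sum fun n _ => (h1 n).2.2
  have hdm : AEStronglyMeasurable (fun x => (∑ n, ‖u n x‖ ^ 2) ^ p) := by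
    refine meas_ne (Nat.succ_pos k) ?_
    refine ContinuousOn.rpow_const ?_ fun q _ => Or.inr (by positivity)
    refine continuousOn_finsetSum _ fun n _ => ContinuousOn.pow (ContinuousOn.norm ?_) 2
    exact cont_u hY (hG n) (hf n)
  have hRe : (fun q => (∑ n, ‖u n (Psi k m q)‖ ^ 2) ^ p) =ᵐ[(tau k).prod (nu k m)] R := by
    filter_upwards [prod_ae k m] with q hq
    simp only [hR]
    congr 1
    refine Finset.sum_congr rfl fun n _ => ?_
    rw [hf n _ (Psi_ne q.1 hq), kap_Psi q.1 hq]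
    simp only [hU]
    congr 2
    refine Finset.sum_congr rfl fun j _ => ?_
    rw [hY.Y_Psi j q.1 hq]
  refine ⟨?_, ?_⟩
  · rw [mp_integrable_iff hdm]
    exact hRi.congr hRe.symm
  · rw [mp_integral hdm, integral_congr_ae hRe]
    exact hRint

end

end Pool.Agent.K7.H4.LT
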