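import Pool.Agent.K7.H4.LT.Poly
import Mathlib.Algebra.Order.Antidiag.FinsuppEquiv

/-!
The dimension of the space of harmonic homogeneous polynomials.
-/

set_option autoImplicit false

open Set Filter Topology Metric MvPolynomial

namespace Pool.Agent.K7.H4.LT

open Pool.Agent.R117.RL (E)

theorem lapp_add {d : ℕ} (p q : MvPolynomial (Fin d) ℝ) : lapp (p + q) = lapp p + lapp q := by
  unfold lapp
  simp only [map_add]
  rw [Finset.sum_add_distrib]

theorem lapp_smul {d : ℕ} (a : ℝ) (p : MvPolynomial (Fin d) ℝ) : lapp (a • p) = a • lapp p := by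
  unfold lapp
  simp only [Derivation.map_smul]
  rw [Finset.smul_sum]

/-- the space of harmonic homogeneous polynomials of degree `l` -/
def HH (d l : ℕ) : Submodule ℝ (MvPolynomial (Fin d) ℝ) where
  carrier := {p | p.IsHomogeneous l ∧ lapp p = 0}
  add_mem' := by
    rintro p q ⟨h1, h2⟩ ⟨h3, h4⟩
    exact ⟨h1.add h3, by rw [lapp_add, h2, h4, add_zero]⟩
  zero_mem' := ⟨isHomogeneous_zero _ _ _, by unfold lapp; simp⟩
  smul_mem' := by
    rintro a p ⟨h1, h2⟩
    refine ⟨?_, by rw [lapp_smul, h2, smul_zero]⟩
    exact (homogeneousSubmodule (Fin d) ℝ l).smul_mem a h1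

instance (d l : ℕ) : FiniteDimensional ℝ (HH d l) := by
  haveI : FiniteDimensional ℝ (homogeneousSubmodule (Fin d) ℝ l) :=
    Module.Finite.iff_fg.2 (homogeneousSubmodule_fg (Fin d) ℝ l)
  exact Submodule.finiteDimensional_of_le (S₂ := homogeneousSubmodule (Fin d) ℝ l)
    fun p hp => hp.1

section

variable {k : ℕ}

theorem coeff_lap (p : MvPolynomial (Fin (k + 1)) ℝ) (b : Fin (k + 1) →₀ ℕ) :
    coeff b (lapp p) = ∑ i, coeff (b + Finsupp.single i 1 + Finsupp.single i 1) p *
      (((b i : ℝ) + 1 + 1) * (b i + 1)) := by
  unfold lapp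
  rw [coeff_sum]
  refine Finset.sum_congr rfl fun i _ => ?_
  rw [coeff_pderiv, coeff_pderiv]
  simp only [Finsupp.add_apply, Finsupp.single_eq_same]
  push_cast
  ring

/-- a harmonic polynomial is determined by its terms of degree at most one in the first variable -/
theorem harm_zero {p : MvPolynomial (Fin (k + 1)) ℝ} (hp : lapp p = 0)
    (h : ∀ b : Fin (k + 1) →₀ ℕ, b 0 ≤ 1 → coeff b p = 0) : p = 0 := by
  have key : ∀ n : ℕ, ∀ b : Fin (k + 1) →₀ ℕ, b 0 = n → coeff b p = 0 := by
    intro n
    induction n using Nat.strong_induction_on with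
    | _ n ih =>
      intro b hb
      by_cases hn : n ≤ 1
      · exact h b (hb ▸ hn)
      · have h2 : 2 ≤ b 0 := by omega
        obtain ⟨c, hc⟩ : ∃ c : Fin (k + 1) →₀ ℕ,
            b = c + Finsupp.single 0 1 + Finsupp.single 0 1 := by
          refine ⟨b - Finsupp.single 0 2, ?_⟩
          have h3 : Finsupp.single (0 : Fin (k + 1)) 2 ≤ b := by
            rw [Finsupp.single_le_iff]
            exact h2
          rw [add_assoc, ← Finsupp.single_add]
          exact (tsub_add_cancel_of_le h3).symm
        have hc0 : c 0 + 2 = n := by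
          rw [← hb, hc]
          simp
        have h4 := coeff_lap p c
        rw [hp, coeff_zero, Finset.sum_eq_single 0] at h4
        · rw [← hc] at h4
          have h5 : (((c 0 : ℝ) + 1 + 1) * (c 0 + 1)) ≠ 0 := by positivity
          exact (mul_eq_zero.1 h4.symm).resolve_right h5
        · intro i _ hi
          rw [ih (c 0) (by omega) _ ?_, zero_mul]
          simp [hi]
        · simp
  ext b
  rw [key (b 0) b rfl, coeff_zero]

/-- **the dimension of the space of harmonic homogeneous polynomials** -/
theorem finrank_HH (k l : ℕ) : Module.finrank ℝ (HH (k + 1) (l + 1)) ≤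
    (k + (l + 1) - 1).choose (l + 1) + (k + l - 1).choose l := by
  set T : Finset (Fin (k + 1)) := Finset.univ.erase 0 with hT
  have hTc : T.card = k := by
    rw [hT, Finset.card_erase_of_mem (Finset.mem_univ 0), Finset.card_univ, Fintype.card_fin]
    rfl
  let Φ : HH (k + 1) (l + 1) →ₗ[ℝ] (T.finsuppAntidiag (l + 1) → ℝ) × (T.finsuppAntidiag l → ℝ) :=
    { toFun := fun p => (fun b => coeff b.1 p.1, fun b => coeff (b.1 + Finsupp.single 0 1) p.1)
      map_add' := by
        intro p q
        refine Prod.ext ?_ ?_
        · funext b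
          simp
        · funext b
          simp
      map_smul' := by
        intro a p
        refine Prod.ext ?_ ?_
        · funext b
          simp
        · funext b
          simp }
  have hinj : Function.Injective Φ := by
    rw [← LinearMap.ker_eq_bot, LinearMap.ker_eq_bot']
    intro p hp
    have h1 : ∀ b : T.finsuppAntidiag (l + 1), coeff b.1 p.1 = 0 := fun b =>
      congrFun (congrArg Prod.fst hp) b
    have h2 : ∀ b : T.finsuppAntidiag l, coeff (b.1 + Finsupp.single 0 1) p.1 = 0 := fun b =>
      congrFun (congrArg Prod.snd hp) b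
    have hsum : ∀ b : Fin (k + 1) →₀ ℕ, b.degree = b 0 + T.sum b := by
      intro b
      rw [Finsupp.degree_eq_sum, hT, ← Finset.add_sum_erase _ _ (Finset.mem_univ 0)]
    refine Subtype.ext (harm_zero p.2.2 fun b hb => ?_)
    by_cases hd : b.degree = l + 1
    · rcases Nat.le_one_iff_eq_zero_or_eq_one.1 hb with h0 | h0
      · refine h1 ⟨b, ?_⟩
        rw [Finset.mem_finsuppAntidiag]
        refine ⟨?_, ?_⟩
        · have := hsum b
          omega
        · intro i hi
          rw [hT, Finset.mem_erase]
          refine ⟨?_, Finset.mem_univ _⟩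
          rintro rfl
          exact (Finsupp.mem_support_iff.1 hi) h0
      · have h3 : Finsupp.single (0 : Fin (k + 1)) 1 ≤ b := by
          rw [Finsupp.single_le_iff]
          exact h0.ge
        have h4 : b - Finsupp.single 0 1 + Finsupp.single 0 1 = b := tsub_add_cancel_of_le h3
        have h5 : (b - Finsupp.single 0 1 : Fin (k + 1) →₀ ℕ) 0 = 0 := by
          rw [Finsupp.tsub_apply, Finsupp.single_eq_same, h0]
        have h6 := h2 ⟨b - Finsupp.single 0 1, ?_⟩
        · rw [h4] at h6
          exact h6
        · rw [Finset.mem_finsuppAntidiag]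
          refine ⟨?_, ?_⟩
          · have h7 := hsum b
            have h8 : T.sum (b - Finsupp.single 0 1 : Fin (k + 1) →₀ ℕ) = T.sum b := by
              refine Finset.sum_congr rfl fun i hi => ?_
              rw [hT, Finset.mem_erase] at hi
              rw [Finsupp.tsub_apply, Finsupp.single_eq_of_ne hi.1, Nat.sub_zero]
            rw [h8]
            omega
          · intro i hi
            rw [hT, Finset.mem_erase]
            refine ⟨?_, Finset.mem_univ _⟩
            rintro rfl
            exact (Finsupp.mem_support_iff.1 hi) h5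
    · exact p.2.1.coeff_eq_zero hd
  have h3 := LinearMap.finrank_le_finrank_of_injective hinj
  rw [Module.finrank_prod, Module.finrank_fintype_fun_eq_card, Module.finrank_fintype_fun_eq_card,
    Fintype.card_coe, Fintype.card_coe, Finset.card_finsuppAntidiag_nat_eq_choose,
    Finset.card_finsuppAntidiag_nat_eq_choose, hTc] at h3
  exact h3

end

end Pool.Agent.K7.H4.LT
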