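import Pool.Agent.K7.H4.LT.Harm
import Pool.Agent.K7.H4.LT.Dim

/-!
Orthonormal bases of the spaces of harmonic homogeneous polynomials and their reproducing kernels.
-/

set_option autoImplicit false

open MeasureTheory Set Filter Topology Metric MvPolynomial
open scoped ENNReal InnerProductSpace

namespace Pool.Agent.K7.H4.LT

open Pool.Agent.R117.RL (E sg)

theorem core_basis {V : Type*} [AddCommGroup V] [Module ℝ V] [FiniteDimensional ℝ V]
    (c : InnerProductSpace.Core ℝ V) :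
    ∃ b : Fin (Module.finrank ℝ V) → V, (∀ i j, c.inner (b i) (b j) = if i = j then 1 else 0) ∧
      ∀ x, x = ∑ i, c.inner (b i) x • b i := by
  let _ : NormedAddCommGroup V := c.toNormedAddCommGroup
  let _ : InnerProductSpace ℝ V := InnerProductSpace.ofCore c.toCore
  refine ⟨fun i => stdOrthonormalBasis ℝ V i, fun i j => ?_, fun x => ?_⟩
  · exact orthonormal_iff_ite.1 (stdOrthonormalBasis ℝ V).orthonormal i j
  · exact ((stdOrthonormalBasis ℝ V).sum_repr' x).symm

section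

variable {k : ℕ}

instance (k : ℕ) : (tau k).IsOpenPosMeasure := by
  unfold tau
  infer_instance

/-- the inner product of two polynomials on the sphere -/
noncomputable def ip (p q : MvPolynomial (Fin (k + 1)) ℝ) : ℝ :=
  ∫ ω : Sp k, pe p ω * pe q ω ∂(tau k)

theorem ip_int (p q : MvPolynomial (Fin (k + 1)) ℝ) :
    Integrable (fun ω : Sp k => pe p ω * pe q ω) (tau k) := int_sp ((pe_csp p).mul (pe_csp q))

theorem ip_comm (p q : MvPolynomial (Fin (k + 1)) ℝ) : ip p q = ip q p := by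
  unfold ip
  simp only [mul_comm]

theorem ip_add (p q r : MvPolynomial (Fin (k + 1)) ℝ) : ip (p + q) r = ip p r + ip q r := by
  unfold ip
  rw [← integral_add (ip_int p r) (ip_int q r)]
  simp only [pe_add, add_mul]

theorem ip_smul (a : ℝ) (p q : MvPolynomial (Fin (k + 1)) ℝ) : ip (a • p) q = a * ip p q := by
  unfold ip
  rw [← integral_const_mul]
  simp only [pe_smul, mul_assoc]

theorem ip_zero (q : MvPolynomial (Fin (k + 1)) ℝ) : ip 0 q = 0 := by
  unfold ip
  simp only [pe_zero, zero_mul, integral_zero]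

theorem ip_sum {ι : Type*} (s : Finset ι) (p : ι → MvPolynomial (Fin (k + 1)) ℝ)
    (q : MvPolynomial (Fin (k + 1)) ℝ) : ip (∑ i ∈ s, p i) q = ∑ i ∈ s, ip (p i) q := by
  classical
  induction s using Finset.induction_on with
  | empty => rw [Finset.sum_empty, Finset.sum_empty, ip_zero]
  | insert a s ha ih => rw [Finset.sum_insert ha, Finset.sum_insert ha, ip_add, ih]

theorem ip_nonneg (p : MvPolynomial (Fin (k + 1)) ℝ) : 0 ≤ ip p p :=
  integral_nonneg fun _ => mul_self_nonneg _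

instance (k : ℕ) : Nontrivial (E (k + 1)) := by
  haveI : Nonempty (Fin (k + 1)) := ⟨0⟩
  infer_instance

theorem sp_nonempty (k : ℕ) : Nonempty (Sp k) := by
  have h : (sphere (0 : E (k + 1)) 1).Nonempty := NormedSpace.sphere_nonempty.2 zero_le_one
  exact h.to_subtype

/-- homogeneous polynomials are determined by their values on the sphere -/
theorem sp_inj {l : ℕ} {p : MvPolynomial (Fin (k + 1)) ℝ} (hp : p.IsHomogeneous l)
    (h : ∀ ω : Sp k, pe p ω = 0) : p = 0 := by
  refine pe_inj fun x => ?_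
  rw [pe_zero]
  by_cases hx : x = 0
  · obtain ⟨ω⟩ := sp_nonempty k
    have h1 := pe_hom hp 0 (ω : E (k + 1))
    rw [zero_smul, h ω, mul_zero] at h1
    rw [hx, h1]
  · have hn : ‖x‖ ≠ 0 := norm_ne_zero_iff.2 hx
    have hω : ‖x‖⁻¹ • x ∈ sphere (0 : E (k + 1)) 1 := by
      rw [mem_sphere_zero_iff_norm, norm_smul, norm_inv, norm_norm, inv_mul_cancel₀ hn]
    have h1 := pe_hom hp ‖x‖ (‖x‖⁻¹ • x)
    rw [smul_smul, mul_inv_cancel₀ hn, one_smul, h ⟨_, hω⟩, mul_zero] at h1
    exact h1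

theorem ip_def {l : ℕ} {p : MvPolynomial (Fin (k + 1)) ℝ} (hp : p.IsHomogeneous l)
    (h : ip p p = 0) : p = 0 := by
  refine sp_inj hp fun ω => ?_
  unfold ip at h
  rw [integral_eq_zero_iff_of_nonneg (fun _ => mul_self_nonneg _) (ip_int p p)] at h
  have h2 := (Continuous.ae_eq_iff_eq (tau k) ((pe_csp p).mul (pe_csp p)) continuous_zero).1 h
  exact mul_self_eq_zero.1 (congrFun h2 ω)

/-- the inner product on the space of harmonic polynomials -/
noncomputable def core (k l : ℕ) : InnerProductSpace.Core ℝ (HH (k + 1) l) where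
  inner p q := ip p.1 q.1
  conj_inner_symm p q := by
    show ip q.1 p.1 = ip p.1 q.1
    exact ip_comm _ _
  re_inner_nonneg p := ip_nonneg p.1
  add_left p q r := ip_add p.1 q.1 r.1
  smul_left p q a := ip_smul a p.1 q.1
  definite p h := Subtype.ext (ip_def p.2.1 h)

/-- an orthonormal basis of the space of harmonic homogeneous polynomials -/
theorem exists_basis (k l : ℕ) : ∃ b : Fin (Module.finrank ℝ (HH (k + 1) l)) →
    MvPolynomial (Fin (k + 1)) ℝ, (∀ i, b i ∈ HH (k + 1) l) ∧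
      (∀ i j, ip (b i) (b j) = if i = j then 1 else 0) ∧
      ∀ p ∈ HH (k + 1) l, p = ∑ i, ip (b i) p • b i := by
  obtain ⟨b, h1, h2⟩ := core_basis (core k l)
  refine ⟨fun i => (b i).1, fun i => (b i).2, fun i j => h1 i j, fun p hp => ?_⟩
  have h3 := congrArg Subtype.val (h2 ⟨p, hp⟩)
  rw [Submodule.coe_sum] at h3
  exact h3

/-! ### Rotations -/

/-- the composition of a polynomial and an isometry -/
noncomputable def rot (R : E (k + 1) ≃ₗᵢ[ℝ] E (k + 1)) (p : MvPolynomial (Fin (k + 1)) ℝ) :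
    MvPolynomial (Fin (k + 1)) ℝ :=
  aeval (fun i => ∑ j, C (R (EuclideanSpace.single j 1) i) * X j) p

theorem iso_coord (R : E (k + 1) ≃ₗᵢ[ℝ] E (k + 1)) (x : E (k + 1)) (i : Fin (k + 1)) :
    R x i = ∑ j, R (EuclideanSpace.single j 1) i * x j := by
  have h1 : x = ∑ j, x j • EuclideanSpace.single j (1 : ℝ) := by
    ext i
    simp [Pi.single_apply]
  conv_lhs => rw [h1, map_sum]
  rw [WithLp.ofLp_sum, Finset.sum_apply]
  refine Finset.sum_congr rfl fun j _ => ?_
  rw [map_smul, PiLp.smul_apply, smul_eq_mul, mul_comm]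

theorem pe_rot (R : E (k + 1) ≃ₗᵢ[ℝ] E (k + 1)) (p : MvPolynomial (Fin (k + 1)) ℝ)
    (x : E (k + 1)) : pe (rot R p) x = pe p (R x) := by
  induction p using MvPolynomial.induction_on with
  | C a =>
    unfold rot
    rw [aeval_C, pe_C]
    exact pe_C a x
  | add p q hp hq =>
    have h : rot R (p + q) = rot R p + rot R q := by
      unfold rot
      rw [map_add]
    rw [h, pe_add, pe_add, hp, hq]
  | mul_X p i hp =>
    have h : rot R (p * X i) = rot R p * ∑ j, C (R (EuclideanSpace.single j 1) i) * X j := by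
      unfold rot
      rw [map_mul, aeval_X]
    rw [h, pe_mul, pe_mul, hp, pe_X, pe_sum, iso_coord]
    congr 1
    refine Finset.sum_congr rfl fun j _ => ?_
    rw [pe_mul, pe_C, pe_X]

theorem rot_hom (R : E (k + 1) ≃ₗᵢ[ℝ] E (k + 1)) {l : ℕ} {p : MvPolynomial (Fin (k + 1)) ℝ}
    (hp : p.IsHomogeneous l) : (rot R p).IsHomogeneous l := by
  have h := hp.aeval (fun i => ∑ j, C (R (EuclideanSpace.single j 1) i) * X j) (n := 1)
    fun i => IsHomogeneous.sum _ _ _ fun j _ => isHomogeneous_C_mul_X _ _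
  rwa [one_mul] at h

theorem rot_pderiv (R : E (k + 1) ≃ₗᵢ[ℝ] E (k + 1)) (p : MvPolynomial (Fin (k + 1)) ℝ)
    (j : Fin (k + 1)) : pderiv j (rot R p) =
      ∑ i, C (R (EuclideanSpace.single j 1) i) * rot R (pderiv i p) := by
  refine pe_inj fun x => ?_
  have h1 : pe (rot R p) = fun x => pe p (R x) := by
    funext x
    exact pe_rot R p x
  rw [← pe_fderiv, h1]
  have h2 : HasFDerivAt (fun x => R x) (R.toContinuousLinearEquiv : E (k + 1) →L[ℝ] E (k + 1)) x :=
    (R.toContinuousLinearEquiv : E (k + 1) →L[ℝ] E (k + 1)).hasFDerivAt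
  have h3 := (pe_deriv p (R x)).comp x h2
  have h4 : fderiv ℝ (fun x => pe p (R x)) x = _ := h3.fderiv
  rw [h4, pe_sum, ContinuousLinearMap.comp_apply, sum_apply]
  refine Finset.sum_congr rfl fun i _ => ?_
  rw [pe_mul, pe_C, pe_rot]
  show pe (pderiv i p) (R x) * (R (EuclideanSpace.single j 1) i) = _
  ring

theorem rot_orth (R : E (k + 1) ≃ₗᵢ[ℝ] E (k + 1)) (i i' : Fin (k + 1)) :
    ∑ j, R (EuclideanSpace.single j 1) i * R (EuclideanSpace.single j 1) i' =
      if i = i' then 1 else 0 := by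
  have h1 : ∀ j i, R (EuclideanSpace.single j (1 : ℝ)) i =
      R.symm (EuclideanSpace.single i (1 : ℝ)) j := by
    intro j i
    have h2 : R (EuclideanSpace.single j (1 : ℝ)) i =
        ⟪EuclideanSpace.single i (1 : ℝ), R (EuclideanSpace.single j (1 : ℝ))⟫_ℝ := by
      rw [EuclideanSpace.inner_single_left]
      simp
    have h3 : R.symm (EuclideanSpace.single i (1 : ℝ)) j =
        ⟪R.symm (EuclideanSpace.single i (1 : ℝ)), EuclideanSpace.single j (1 : ℝ)⟫_ℝ := by
      rw [EuclideanSpace.inner_single_right]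
      simp
    rw [h2, h3]
    have h4 := R.symm.inner_map_map (EuclideanSpace.single i (1 : ℝ))
      (R (EuclideanSpace.single j (1 : ℝ)))
    rw [LinearIsometryEquiv.symm_apply_apply] at h4
    exact h4.symm
  simp only [h1]
  have h5 : ∑ j, R.symm (EuclideanSpace.single i (1 : ℝ)) j *
      R.symm (EuclideanSpace.single i' (1 : ℝ)) j =
      ⟪R.symm (EuclideanSpace.single i' (1 : ℝ)), R.symm (EuclideanSpace.single i (1 : ℝ))⟫_ℝ := by
    rw [PiLp.inner_apply]
    rfl
  rw [h5, R.symm.inner_map_map, EuclideanSpace.inner_single_left]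
  simp only [map_one, one_mul, EuclideanSpace.single_apply]
  by_cases h : i = i'
  · rw [if_pos h, if_pos h.symm]
  · rw [if_neg h, if_neg (Ne.symm h)]

theorem rot_add (R : E (k + 1) ≃ₗᵢ[ℝ] E (k + 1)) (p q : MvPolynomial (Fin (k + 1)) ℝ) :
    rot R (p + q) = rot R p + rot R q := by
  unfold rot
  rw [map_add]

theorem rot_sum (R : E (k + 1) ≃ₗᵢ[ℝ] E (k + 1)) {ι : Type*} (s : Finset ι)
    (p : ι → MvPolynomial (Fin (k + 1)) ℝ) : rot R (∑ i ∈ s, p i) = ∑ i ∈ s, rot R (p i) := by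
  unfold rot
  rw [map_sum]

theorem rot_lapp (R : E (k + 1) ≃ₗᵢ[ℝ] E (k + 1)) (p : MvPolynomial (Fin (k + 1)) ℝ) :
    lapp (rot R p) = rot R (lapp p) := by
  have h1 : ∀ j, pderiv j (pderiv j (rot R p)) = ∑ i, ∑ i',
      C (R (EuclideanSpace.single j 1) i * R (EuclideanSpace.single j 1) i') *
        rot R (pderiv i' (pderiv i p)) := by
    intro j
    rw [rot_pderiv, map_sum]
    refine Finset.sum_congr rfl fun i _ => ?_
    rw [pderiv_C_mul, rot_pderiv, Finset.mul_sum]
    refine Finset.sum_congr rfl fun i' _ => ?_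
    rw [C_mul, mul_assoc]
  unfold lapp
  rw [Finset.sum_congr rfl fun j _ => h1 j, rot_sum, Finset.sum_comm]
  refine Finset.sum_congr rfl fun i _ => ?_
  rw [Finset.sum_comm]
  have h2 : ∀ i', ∑ j, C (R (EuclideanSpace.single j 1) i * R (EuclideanSpace.single j 1) i') *
        rot R (pderiv i' (pderiv i p)) =
      if i = i' then rot R (pderiv i' (pderiv i p)) else 0 := by
    intro i'
    rw [← Finset.sum_mul, ← map_sum, rot_orth]
    by_cases h : i = i'
    · rw [if_pos h, if_pos h, C_1, one_mul]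
    · rw [if_neg h, if_neg h, C_0, zero_mul]
  rw [Finset.sum_congr rfl fun i' _ => h2 i', Finset.sum_ite_eq, if_pos (Finset.mem_univ i)]

theorem rot_zero (R : E (k + 1) ≃ₗᵢ[ℝ] E (k + 1)) :
    rot R (0 : MvPolynomial (Fin (k + 1)) ℝ) = 0 := by
  unfold rot
  rw [map_zero]

theorem rot_mem (R : E (k + 1) ≃ₗᵢ[ℝ] E (k + 1)) {l : ℕ} {p : MvPolynomial (Fin (k + 1)) ℝ}
    (hp : p ∈ HH (k + 1) l) : rot R p ∈ HH (k + 1) l :=
  ⟨rot_hom R hp.1, by rw [rot_lapp, hp.2, rot_zero]⟩

/-- the integral over the sphere is invariant -/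
theorem rot_int (R : E (k + 1) ≃ₗᵢ[ℝ] E (k + 1)) {l : ℕ} {p : MvPolynomial (Fin (k + 1)) ℝ}
    (hp : p.IsHomogeneous l) : ∫ ω : Sp k, pe (rot R p) ω ∂(tau k) = ∫ ω : Sp k, pe p ω ∂(tau k) := by
  have hchi : Continuous (fun r : ℝ => chi (r ^ 2)) := chi_cont.comp (continuous_id.pow 2)
  have h1 := polar_pe hp hchi
  have h2 := polar_pe (rot_hom R hp) hchi
  have h3 : ∫ x : E (k + 1), chi (‖x‖ ^ 2) * pe (rot R p) x =
      ∫ x : E (k + 1), chi (‖x‖ ^ 2) * pe p x := by
    have h4 := (R.measurePreserving).integral_comp R.toHomeomorph.measurableEmbedding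
      (fun x : E (k + 1) => chi (‖x‖ ^ 2) * pe p x)
    rw [← h4]
    refine integral_congr_ae (ae_of_all _ fun x => ?_)
    show chi (‖x‖ ^ 2) * pe (rot R p) x = chi (‖R x‖ ^ 2) * pe p (R x)
    rw [R.norm_map, pe_rot]
  rw [h1, h2] at h3
  have h5 := (one_dim (k + l)).2
  have e2 : ∫ r in Ioi (0 : ℝ), r ^ k * (chi (r ^ 2) * r ^ l) =
      ∫ r in Ioi (0 : ℝ), chi (r ^ 2) * r ^ (k + l) := by
    refine setIntegral_congr_fun measurableSet_Ioi fun r _ => ?_
    show r ^ k * (chi (r ^ 2) * r ^ l) = chi (r ^ 2) * r ^ (k + l)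
    rw [pow_add]
    ring
  rw [← e2] at h5
  exact mul_right_cancel₀ h5.ne' h3

theorem rot_ip (R : E (k + 1) ≃ₗᵢ[ℝ] E (k + 1)) {l : ℕ} {p : MvPolynomial (Fin (k + 1)) ℝ}
    (hp : p.IsHomogeneous l) : ip (rot R p) (rot R p) = ip p p := by
  have h1 := rot_int R (hp.mul hp)
  have h2 : rot R (p * p) = rot R p * rot R p := by
    unfold rot
    rw [map_mul]
  rw [h2] at h1
  simp only [pe_mul] at h1
  exact h1

/-- **the reproducing kernel on the diagonal** -/
theorem kernel_const {l g : ℕ} {b : Fin g → MvPolynomial (Fin (k + 1)) ℝ}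
    (hb : ∀ i, b i ∈ HH (k + 1) l) (ho : ∀ i j, ip (b i) (b j) = if i = j then 1 else 0)
    (hs : ∀ p ∈ HH (k + 1) l, p = ∑ i, ip (b i) p • b i) (ω ω' : Sp k) :
    ∑ i, pe (b i) ω' ^ 2 ≤ ∑ i, pe (b i) ω ^ 2 := by
  set K : Sp k → ℝ := fun ω => ∑ i, pe (b i) ω ^ 2 with hK
  have hK0 : ∀ ω, 0 ≤ K ω := fun ω => Finset.sum_nonneg fun i _ => sq_nonneg _
  -- the norm of an element
  have hnorm : ∀ p ∈ HH (k + 1) l, ip p p = ∑ i, ip (b i) p ^ 2 := by
    intro p hp
    have h1 : ip p p = ip (∑ i, ip (b i) p • b i) p := by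
      rw [← hs p hp]
    rw [h1, ip_sum]
    refine Finset.sum_congr rfl fun i _ => ?_
    rw [ip_smul, sq]
  -- the pointwise bound
  have hpt : ∀ p ∈ HH (k + 1) l, ∀ θ : Sp k, pe p θ ^ 2 ≤ ip p p * K θ := by
    intro p hp θ
    have h1 : pe p θ = ∑ i, ip (b i) p * pe (b i) θ := by
      conv_lhs => rw [hs p hp, pe_sum]
      refine Finset.sum_congr rfl fun i _ => ?_
      rw [pe_smul]
    rw [h1, hnorm p hp]
    exact Finset.sum_mul_sq_le_sq_mul_sq _ _ _
  -- the extremal function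
  set p : MvPolynomial (Fin (k + 1)) ℝ := ∑ i, pe (b i) ω' • b i with hp
  have hpm : p ∈ HH (k + 1) l := Submodule.sum_mem _ fun i _ => Submodule.smul_mem _ _ (hb i)
  have h1 : pe p ω' = K ω' := by
    rw [hp, pe_sum]
    refine Finset.sum_congr rfl fun i _ => ?_
    rw [pe_smul, sq]
  have h2 : ip p p = K ω' := by
    rw [hnorm p hpm]
    refine Finset.sum_congr rfl fun i _ => ?_
    congr 1
    rw [hp, ip_comm, ip_sum]
    simp only [ip_smul, ho]
    rw [Finset.sum_eq_single i]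
    · simp
    · intro j _ hj
      rw [if_neg hj, mul_zero]
    · simp
  -- the rotation
  set R : E (k + 1) ≃ₗᵢ[ℝ] E (k + 1) := (ℝ ∙ ((ω : E (k + 1)) - ω'))ᗮ.reflection with hR
  have hRω : R (ω : E (k + 1)) = ω' := Submodule.reflection_sub (by rw [sp_norm, sp_norm])
  have h3 := hpt (rot R p) (rot_mem R hpm) ω
  rw [pe_rot, hRω, h1, rot_ip R hpm.1, h2, sq] at h3
  show K ω' ≤ K ω
  by_cases h4 : K ω' = 0
  · rw [h4]
    exact hK0 ω
  · exact le_of_mul_le_mul_left h3 (lt_of_le_of_ne (hK0 ω') (Ne.symm h4))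

/-- the addition theorem on the diagonal -/
theorem kernel_eq {l g : ℕ} {b : Fin g → MvPolynomial (Fin (k + 1)) ℝ}
    (hb : ∀ i, b i ∈ HH (k + 1) l) (ho : ∀ i j, ip (b i) (b j) = if i = j then 1 else 0)
    (hs : ∀ p ∈ HH (k + 1) l, p = ∑ i, ip (b i) p • b i) (ω : Sp k) :
    (∑ i, pe (b i) ω ^ 2) * (tau k).real univ = g := by
  have h1 : ∀ θ : Sp k, ∑ i, pe (b i) θ ^ 2 = ∑ i, pe (b i) ω ^ 2 := fun θ =>
    le_antisymm (kernel_const hb ho hs ω θ) (kernel_const hb ho hs θ ω)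
  have h2 : ∫ θ : Sp k, ∑ i, pe (b i) θ ^ 2 ∂(tau k) = g := by
    rw [integral_finsetSum _ fun i _ => ?_]
    · have h3 : ∀ i, ∫ θ : Sp k, pe (b i) θ ^ 2 ∂(tau k) = 1 := by
        intro i
        have h4 := ho i i
        rw [if_pos rfl] at h4
        unfold ip at h4
        rw [← h4]
        simp only [sq]
      rw [Finset.sum_congr rfl fun i _ => h3 i, Finset.sum_const, Finset.card_univ,
        Fintype.card_fin, nsmul_eq_mul, mul_one]
    · exact int_sp ((pe_csp _).pow 2)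
  simp only [h1] at h2
  rw [integral_const, smul_eq_mul] at h2
  rw [mul_comm]
  exact h2

theorem tau_univ (k : ℕ) : (tau k).real univ = sg (k + 1) := by
  unfold tau
  rw [Measure.toSphere_real_apply_univ, finrank_euclideanSpace_fin]
  rfl

end

end Pool.Agent.K7.H4.LT
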