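import Pool.Agent.R117.RL.ShellCst

/-!
The constant for systems which are restricted in `k + 1` variables and free in `m` variables, and its
comparison with the semiclassical constant.
-/

set_option autoImplicit false

open MeasureTheory Set Filter Topology

namespace Pool.Agent.K7.H4.LT

open Pool.Agent.R117.RL

/-- logarithmic convexity of the Gamma function at half integers -/
theorem Ga_log (n : ℕ) : Ga n ^ 2 * ((n : ℝ) + 1) ≤ 2 * Ga (n + 1) ^ 2 := by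
  have hn : (0 : ℝ) ≤ n := Nat.cast_nonneg n
  have h1 := Real.Gamma_mul_add_mul_le_rpow_Gamma_mul_rpow_Gamma (s := (n : ℝ) / 2 + 1 / 2)
    (t := (n : ℝ) / 2 + 3 / 2) (a := 1 / 2) (b := 1 / 2) (by positivity) (by positivity)
    (by norm_num) (by norm_num) (by norm_num)
  have e1 : (1 / 2 : ℝ) * ((n : ℝ) / 2 + 1 / 2) + 1 / 2 * ((n : ℝ) / 2 + 3 / 2) =
      (n : ℝ) / 2 + 1 := by ring
  have e2 : Real.Gamma ((n : ℝ) / 2 + 3 / 2) = Ga (n + 1) := by
    unfold Ga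
    congr 1
    push_cast
    ring
  have e3 : Real.Gamma ((n : ℝ) / 2 + 1 / 2) * (((n : ℝ) + 1) / 2) = Ga (n + 1) := by
    rw [← e2, show (n : ℝ) / 2 + 3 / 2 = ((n : ℝ) / 2 + 1 / 2) + 1 by ring,
      Real.Gamma_add_one (by positivity)]
    ring
  have hG := Ga_pos (n + 1)
  have hGh : 0 < Real.Gamma ((n : ℝ) / 2 + 1 / 2) := Real.Gamma_pos_of_pos (by positivity)
  rw [e1, e2, ← Real.sqrt_eq_rpow, ← Real.sqrt_eq_rpow, ← Real.sqrt_mul hGh.le] at h1
  have h2 : Ga n ^ 2 ≤ Real.Gamma ((n : ℝ) / 2 + 1 / 2) * Ga (n + 1) := by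
    have h3 : Ga n ≤ √(Real.Gamma ((n : ℝ) / 2 + 1 / 2) * Ga (n + 1)) := h1
    calc Ga n ^ 2 ≤ √(Real.Gamma ((n : ℝ) / 2 + 1 / 2) * Ga (n + 1)) ^ 2 :=
          pow_le_pow_left₀ (Ga_pos n).le h3 2
      _ = _ := Real.sq_sqrt (by positivity)
  calc Ga n ^ 2 * ((n : ℝ) + 1) ≤ (Real.Gamma ((n : ℝ) / 2 + 1 / 2) * Ga (n + 1)) * ((n : ℝ) + 1) :=
        mul_le_mul_of_nonneg_right h2 (by positivity)
    _ = 2 * (Real.Gamma ((n : ℝ) / 2 + 1 / 2) * (((n : ℝ) + 1) / 2)) * Ga (n + 1) := by ring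
    _ = _ := by rw [e3]; ring

/-- the quotient in Watson's inequality -/
noncomputable def hh (n : ℕ) : ℝ := Ga n ^ 2 * (2 * (n : ℝ) + 3) / (4 * Ga (n + 1) ^ 2)

theorem hh_step (n : ℕ) : hh n ≤ hh (n + 2) := by
  have hn : (0 : ℝ) ≤ n := Nat.cast_nonneg n
  have h1 := Ga_pos n
  have h2 := Ga_pos (n + 1)
  unfold hh
  rw [Ga_step n, show n + 2 + 1 = (n + 1) + 2 by ring, Ga_step (n + 1)]
  push_cast
  rw [div_le_div_iff₀ (by positivity) (by positivity)]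
  have key : (2 * (n : ℝ) + 3) * ((n : ℝ) + 1 + 2) ^ 2 ≤ (2 * ((n : ℝ) + 2) + 3) * ((n : ℝ) + 2) ^ 2 := by
    nlinarith
  have h3 : 0 ≤ Ga n ^ 2 * Ga (n + 1) ^ 2 := by positivity
  have h4 := mul_le_mul_of_nonneg_left key h3
  nlinarith [h4]

theorem hh_le (n : ℕ) : hh n ≤ 1 + 1 / ((n : ℝ) + 1) := by
  have hn : (0 : ℝ) ≤ n := Nat.cast_nonneg n
  have h1 := Ga_pos n
  have h2 := Ga_pos (n + 1)
  have h3 := Ga_log n
  unfold hh
  rw [div_le_iff₀ (by positivity)]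
  have h4 : (1 + 1 / ((n : ℝ) + 1)) * (4 * Ga (n + 1) ^ 2) =
      2 * (((n : ℝ) + 2) / (n + 1)) * (2 * Ga (n + 1) ^ 2) := by
    field_simp
    ring
  rw [h4]
  calc Ga n ^ 2 * (2 * (n : ℝ) + 3) ≤ Ga n ^ 2 * (2 * ((n : ℝ) + 2)) :=
        mul_le_mul_of_nonneg_left (by linarith) (by positivity)
    _ = 2 * (((n : ℝ) + 2) / (n + 1)) * (Ga n ^ 2 * ((n : ℝ) + 1)) := by
        field_simp
    _ ≤ _ := mul_le_mul_of_nonneg_left h3 (by positivity)

/-- Watson's inequality -/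
theorem watson (n : ℕ) : Ga n ^ 2 * (2 * (n : ℝ) + 3) ≤ 4 * Ga (n + 1) ^ 2 := by
  have h2 := Ga_pos (n + 1)
  have hmono : ∀ j : ℕ, hh n ≤ hh (n + 2 * j) := by
    intro j
    induction j with
    | zero => exact le_rfl
    | succ j ih => exact ih.trans (hh_step (n + 2 * j))
  have h3 : hh n ≤ 1 := by
    refine le_of_forall_pos_le_add fun ε hε => ?_
    obtain ⟨j, hj⟩ := exists_nat_gt (1 / ε)
    refine (hmono j).trans ((hh_le _).trans ?_)
    push_cast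
    have hn : (0 : ℝ) ≤ n := Nat.cast_nonneg n
    have hj0 : (0 : ℝ) ≤ j := Nat.cast_nonneg j
    have h4 : 1 / ((n : ℝ) + 2 * j + 1) ≤ ε := by
      rw [div_lt_iff₀ hε] at hj
      rw [div_le_iff₀ (by positivity)]
      nlinarith
    linarith
  unfold hh at h3
  rwa [div_le_one (by positivity)] at h3

/-- `q n = (n + 2) ^ n / Γ(n/2 + 1)²` -/
noncomputable def qq (n : ℕ) : ℝ := ((n : ℝ) + 2) ^ n / Ga n ^ 2

theorem qq_pos (n : ℕ) : 0 < qq n := by
  have := Ga_pos n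
  unfold qq
  positivity

/-- `q` is logarithmically convex -/
theorem qq_conv (n : ℕ) (hn : 1 ≤ n) : qq (n + 1) ^ 2 ≤ qq n * qq (n + 2) := by
  have hn' : (1 : ℝ) ≤ n := by exact_mod_cast hn
  have h1 := Ga_pos n
  have h2 := Ga_pos (n + 1)
  have hw := watson n
  unfold qq
  rw [Ga_step n]
  push_cast
  set x : ℝ := (n : ℝ) + 3 with hx
  have hx4 : 4 ≤ x := by rw [hx]; linarith
  have e1 : (n : ℝ) + 1 + 2 = x := by rw [hx]; ring
  have e2 : (n : ℝ) + 2 = x - 1 := by rw [hx]; ring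
  have e3 : (n : ℝ) + 2 + 2 = x + 1 := by rw [hx]; ring
  have e4 : 2 * (n : ℝ) + 3 = 2 * x - 3 := by rw [hx]; ring
  rw [e4] at hw
  rw [e1, e3, e2]
  set a := Ga n with ha
  set b := Ga (n + 1) with hb
  -- Bernoulli
  have hB : x ^ (2 * (n + 2)) * (1 - ((n : ℝ) + 2) / x ^ 2) ≤ ((x - 1) * (x + 1)) ^ (n + 2) := by
    have h3 := one_add_mul_le_pow (a := -(1 / x ^ 2)) (by
      have : 1 / x ^ 2 ≤ 1 := by
        rw [div_le_one (by positivity)]
        nlinarith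
      linarith) (n + 2)
    have h4 : (x - 1) * (x + 1) = x ^ 2 * (1 + -(1 / x ^ 2)) := by
      field_simp
      ring
    rw [h4, mul_pow, ← pow_mul]
    refine mul_le_mul_of_nonneg_left ?_ (by positivity)
    refine le_trans (le_of_eq ?_) h3
    push_cast
    ring
  have hx0 : 0 < x := by linarith
  have hx1 : 0 < x - 1 := by linarith
  have hx3 : 0 < 2 * x - 3 := by linarith
  have e5 : (n : ℝ) + 2 = x - 1 := e2
  rw [e5] at hB
  have hB2 : x ^ (2 * (n + 1)) * (x ^ 2 - x + 1) ≤ ((x - 1) * (x + 1)) ^ (n + 2) := by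
    refine le_trans (le_of_eq ?_) hB
    rw [show 2 * (n + 2) = 2 * (n + 1) + 2 by ring, pow_add]
    field_simp
    ring
  -- the polynomial inequality
  have hP : 4 * (x - 1) ^ 4 ≤ (x ^ 2 - x + 1) * (2 * x - 3) ^ 2 := by
    nlinarith [mul_nonneg (sub_nonneg.2 hx4) (sub_nonneg.2 hx4)]
  -- Watson squared
  have hW2 : a ^ 4 * (2 * x - 3) ^ 2 ≤ 16 * b ^ 4 := by
    have h5 : 0 ≤ a ^ 2 * (2 * x - 3) := by positivity
    have h6 := pow_le_pow_left₀ h5 hw 2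
    nlinarith [h6]
  have hlhs : (x ^ (n + 1) / b ^ 2) ^ 2 = x ^ (2 * (n + 1)) / b ^ 4 := by
    rw [div_pow, ← pow_mul, ← pow_mul, mul_comm (n + 1) 2]
  have hrhs : (x - 1) ^ n / a ^ 2 * ((x + 1) ^ (n + 2) / ((x - 1) / 2 * a) ^ 2) =
      4 * ((x - 1) * (x + 1)) ^ (n + 2) / ((x - 1) ^ 4 * a ^ 4) := by
    rw [mul_pow (x - 1) (x + 1) (n + 2), pow_add (x - 1) n 2]
    field_simp
    ring
  rw [hlhs, hrhs, div_le_div_iff₀ (by positivity) (by positivity)]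
  have hX : 0 < x ^ (2 * (n + 1)) := by positivity
  have hq : 0 < x ^ 2 - x + 1 := by nlinarith
  -- x^(2n+2) (x-1)^4 a^4 ≤ 4 ((x-1)(x+1))^(n+2) b^4
  have s1 : x ^ (2 * (n + 1)) * ((x - 1) ^ 4 * a ^ 4) * (2 * x - 3) ^ 2 ≤
      4 * ((x - 1) * (x + 1)) ^ (n + 2) * b ^ 4 * (2 * x - 3) ^ 2 := by
    calc x ^ (2 * (n + 1)) * ((x - 1) ^ 4 * a ^ 4) * (2 * x - 3) ^ 2
        = x ^ (2 * (n + 1)) * (x - 1) ^ 4 * (a ^ 4 * (2 * x - 3) ^ 2) := by ring
      _ ≤ x ^ (2 * (n + 1)) * (x - 1) ^ 4 * (16 * b ^ 4) :=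
          mul_le_mul_of_nonneg_left hW2 (by positivity)
      _ = 4 * x ^ (2 * (n + 1)) * b ^ 4 * (4 * (x - 1) ^ 4) := by ring
      _ ≤ 4 * x ^ (2 * (n + 1)) * b ^ 4 * ((x ^ 2 - x + 1) * (2 * x - 3) ^ 2) :=
          mul_le_mul_of_nonneg_left hP (by positivity)
      _ = 4 * (x ^ (2 * (n + 1)) * (x ^ 2 - x + 1)) * b ^ 4 * (2 * x - 3) ^ 2 := by ring
      _ ≤ _ := by
          refine mul_le_mul_of_nonneg_right (mul_le_mul_of_nonneg_right
            (mul_le_mul_of_nonneg_left hB2 (by norm_num)) (by positivity)) (by positivity)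
  exact le_of_mul_le_mul_right s1 (by positivity)

theorem qq_quot (n k : ℕ) (hn : 1 ≤ n) : qq (n + k) * qq (n + 1) ≤ qq n * qq (n + 1 + k) := by
  induction k with
  | zero => simp [mul_comm]
  | succ k ih =>
    have h1 := qq_conv (n + k) (by omega)
    have p0 := qq_pos n
    have p1 := qq_pos (n + 1)
    have p2 := qq_pos (n + k)
    have p3 := qq_pos (n + k + 1)
    have e1 : n + 1 + k = n + k + 1 := by ring
    have e2 : n + 1 + (k + 1) = n + k + 2 := by ring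
    have e3 : n + (k + 1) = n + k + 1 := by ring
    rw [e1] at ih
    rw [e2, e3]
    -- q(n+k) q(n+1) ≤ q n q(n+k+1); q(n+k+1)^2 ≤ q(n+k) q(n+k+2)
    have h2 : qq (n + k + 1) * qq (n + 1) * (qq (n + k) * qq (n + k + 1)) ≤
        qq n * qq (n + k + 2) * (qq (n + k) * qq (n + k + 1)) := by
      calc qq (n + k + 1) * qq (n + 1) * (qq (n + k) * qq (n + k + 1))
          = (qq (n + k) * qq (n + 1)) * qq (n + k + 1) ^ 2 := by ring
        _ ≤ (qq n * qq (n + k + 1)) * (qq (n + k) * qq (n + k + 2)) :=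
            mul_le_mul ih h1 (by positivity) (by positivity)
        _ = _ := by ring
    exact le_of_mul_le_mul_right h2 (by positivity)

theorem qq_mono (k m : ℕ) : qq (1 + k) * qq (m + 1) ≤ qq 1 * qq (m + 1 + k) := by
  induction m with
  | zero => simp [mul_comm]
  | succ m ih =>
    have h1 := qq_quot (m + 1) k (by omega)
    have p0 := qq_pos 1
    have p1 := qq_pos (m + 1)
    have p2 := qq_pos (m + 1 + k)
    have p3 := qq_pos (m + 1 + 1)
    have h2 : qq (1 + k) * qq (m + 1 + 1) * (qq (m + 1) * qq (m + 1 + k)) ≤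
        qq 1 * qq (m + 1 + 1 + k) * (qq (m + 1) * qq (m + 1 + k)) := by
      calc qq (1 + k) * qq (m + 1 + 1) * (qq (m + 1) * qq (m + 1 + k))
          = (qq (1 + k) * qq (m + 1)) * (qq (m + 1 + k) * qq (m + 1 + 1)) := by ring
        _ ≤ (qq 1 * qq (m + 1 + k)) * (qq (m + 1) * qq (m + 1 + 1 + k)) :=
            mul_le_mul ih h1 (by positivity) (by positivity)
        _ = _ := by ring
    exact le_of_mul_le_mul_right h2 (by positivity)

end Pool.Agent.K7.H4.LT
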