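import Pool.Agent.K7.H4.LT.Cst
import Pool.Agent.Helper717.LT.Defs

/-!
The constant for systems which are restricted in `k + 1` variables and free in `m` variables, and its
comparison with the semiclassical constant.
-/

set_option autoImplicit false

open MeasureTheory Set Filter Topology

namespace Pool.Agent.K7.H4.LT

open Pool.Agent.R117.RL

/-- the constant of the kinetic inequality in dimension `m + 1` -/
noncomputable def K1 (m : ℕ) : ℝ := (3 / 4 : ℝ) ^ (1 / ((m + 1 : ℕ) : ℝ)) * LTd.Kcl (m + 1)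

theorem Kcl_eq (d : ℕ) : LTd.Kcl d = Kcl d := rfl

theorem Kcl_pos {d : ℕ} (hd : 0 < d) : 0 < Kcl d := by
  have := om_pos d
  have : (0 : ℝ) < d := by exact_mod_cast hd
  have := Real.pi_pos
  unfold Kcl
  positivity

theorem K1_pos (m : ℕ) : 0 < K1 m := by
  have := Kcl_pos (Nat.succ_pos m)
  unfold K1
  rw [Kcl_eq]
  positivity

/-- the constant: `c` is the coefficient of the centrifugal term, `s` the inverse of the bound for the
Gram matrices -/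
noncomputable def CL3 (k m : ℕ) (c s : ℝ) : ℝ :=
  (K1 m * (((k + m + 1 : ℕ) : ℝ) / ((m + 1 : ℕ) : ℝ))) ^ (((m + 1 : ℕ) : ℝ) / ((k + m + 1 : ℕ) : ℝ)) *
    (c * (((k + m + 1 : ℕ) : ℝ) / k)) ^ ((k : ℝ) / ((k + m + 1 : ℕ) : ℝ)) *
    s ^ (2 / ((k + m + 1 : ℕ) : ℝ))

theorem CL3_nonneg {k m : ℕ} {c s : ℝ} (hc : 0 < c) (hs : 0 < s) : 0 ≤ CL3 k m c s := by
  have := K1_pos m
  unfold CL3
  positivity

theorem CL3_pos {k m : ℕ} (hk : 1 ≤ k) {c s : ℝ} (hc : 0 < c) (hs : 0 < s) : 0 < CL3 k m c s := by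
  have := K1_pos m
  have hk' : (0 : ℝ) < k := by exact_mod_cast hk
  unfold CL3
  positivity

theorem ptw3 {k : ℕ} (hk : 1 ≤ k) (m : ℕ) {c s y P : ℝ} (hc : 0 < c) (hs : 0 < s) (hy : 0 < y)
    (hP : 0 ≤ P) :
    CL3 k m c s * (s * y ^ k * P ^ (1 + 2 / ((k + m + 1 : ℕ) : ℝ))) ≤
      K1 m * (s * y ^ k * P) ^ (1 + 2 / ((m + 1 : ℕ) : ℝ)) + c * (s * y ^ k * P / y ^ 2) := by
  have hk' : (0 : ℝ) < k := by exact_mod_cast hk
  have hK := K1_pos m
  set D : ℝ := ((k + m + 1 : ℕ) : ℝ) with hD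
  set M : ℝ := ((m + 1 : ℕ) : ℝ) with hM
  have hD0 : 0 < D := by rw [hD]; positivity
  have hM0 : 0 < M := by rw [hM]; positivity
  have hDM : D = k + M := by rw [hD, hM]; push_cast; ring
  rcases hP.eq_or_lt with h0 | hP
  · rw [← h0, Real.zero_rpow (by positivity)]
    simp only [mul_zero, zero_div, add_zero]
    rw [Real.zero_rpow (by positivity)]
    simp
  set S := s * y ^ k * P with hS
  have hSpos : 0 < S := by positivity
  set p₁ : ℝ := K1 m * (D / M) * S ^ (2 / M) with hp1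
  set p₂ : ℝ := c * (D / k) / y ^ 2 with hp2
  have hp1p : 0 < p₁ := by positivity
  have hp2p : 0 < p₂ := by positivity
  have hamgm := Real.geom_mean_le_arith_mean2_weighted (w₁ := M / D) (w₂ := (k : ℝ) / D)
    (by positivity) (by positivity) hp1p.le hp2p.le (by rw [hDM]; field_simp; ring)
  have hS2 : (S ^ (2 / M)) ^ (M / D) = S ^ (2 / D) := by
    rw [← Real.rpow_mul hSpos.le]
    congr 1
    field_simp
  have hy2 : (1 / y ^ 2) ^ ((k : ℝ) / D) = 1 / (y ^ k) ^ (2 / D) := by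
    rw [Real.div_rpow zero_le_one (by positivity), Real.one_rpow]
    congr 1
    rw [← Real.rpow_natCast y 2, ← Real.rpow_natCast y k, ← Real.rpow_mul hy.le,
      ← Real.rpow_mul hy.le]
    congr 1
    push_cast
    ring
  have hS3 : S ^ (2 / D) = s ^ (2 / D) * (y ^ k) ^ (2 / D) * P ^ (2 / D) := by
    rw [hS, Real.mul_rpow (by positivity) hP.le, Real.mul_rpow hs.le (by positivity)]
  have hyk : 0 < (y ^ k) ^ (2 / D) := by positivity
  have heq : CL3 k m c s * P ^ (2 / D) = p₁ ^ (M / D) * p₂ ^ ((k : ℝ) / D) := by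
    have e2 : p₂ = c * (D / k) * (1 / y ^ 2) := by rw [hp2]; ring
    have e3 : p₂ ^ ((k : ℝ) / D) = (c * (D / k)) ^ ((k : ℝ) / D) * (1 / (y ^ k) ^ (2 / D)) := by
      rw [e2, Real.mul_rpow (by positivity) (by positivity), hy2]
    have e4 : p₁ ^ (M / D) = (K1 m * (D / M)) ^ (M / D) *
        (s ^ (2 / D) * (y ^ k) ^ (2 / D) * P ^ (2 / D)) := by
      rw [hp1, Real.mul_rpow (by positivity) (by positivity), hS2, hS3]
    rw [e3, e4]
    unfold CL3
    rw [← hD, ← hM]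
    field_simp
  have h2 : CL3 k m c s * P ^ (2 / D) ≤ K1 m * S ^ (2 / M) + c / y ^ 2 := by
    rw [heq]
    refine hamgm.trans (le_of_eq ?_)
    rw [hp1, hp2]
    field_simp
  have h1 : P ^ (1 + 2 / D) = P * P ^ (2 / D) := by
    rw [Real.rpow_add hP, Real.rpow_one]
  have h3 : S ^ (1 + 2 / M) = S * S ^ (2 / M) := by
    rw [Real.rpow_add hSpos, Real.rpow_one]
  calc CL3 k m c s * (s * y ^ k * P ^ (1 + 2 / D))
      = S * (CL3 k m c s * P ^ (2 / D)) := by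
        rw [h1, hS]
        ring
    _ ≤ S * (K1 m * S ^ (2 / M) + c / y ^ 2) := mul_le_mul_of_nonneg_left h2 hSpos.le
    _ = _ := by rw [h3]; ring

theorem CL3_pow {k : ℕ} (hk : 1 ≤ k) (m : ℕ) {c s : ℝ} (hc : 0 < c) (hs : 0 < s) :
    CL3 k m c s ^ (k + m + 1) =
      (3 / 4 * Kcl (m + 1) ^ (m + 1)) * (((k + m + 1 : ℕ) : ℝ) / ((m + 1 : ℕ) : ℝ)) ^ (m + 1) *
        (c * (((k + m + 1 : ℕ) : ℝ) / k)) ^ k * s ^ 2 := by
  have hk' : (0 : ℝ) < k := by exact_mod_cast hk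
  have hK := K1_pos m
  have hD : 0 < k + m + 1 := by omega
  have e1 := pow_frac (x := K1 m * (((k + m + 1 : ℕ) : ℝ) / ((m + 1 : ℕ) : ℝ))) (by positivity) hD
    (m + 1)
  have e2 := pow_frac (x := c * (((k + m + 1 : ℕ) : ℝ) / k)) (by positivity) hD k
  have e3 := pow_frac hs.le hD 2
  have e4 := pow_frac (x := (3 / 4 : ℝ)) (by norm_num) (Nat.succ_pos m) 1
  simp only [Nat.cast_ofNat] at e3
  simp only [Nat.succ_eq_add_one, Nat.cast_one, pow_one] at e4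
  unfold CL3
  rw [mul_pow, mul_pow, e1, e2, e3, mul_pow]
  unfold K1
  rw [mul_pow, e4, Kcl_eq]

/-- the comparison with the semiclassical constant for `m = 0` implies the comparison for all `m` -/
theorem Kcl_le_CL3 {k : ℕ} (hk : 1 ≤ k) (m : ℕ) {c s : ℝ} (hc : 0 < c) (hs : 0 < s)
    (h0 : Kcl (k + 1) ≤ CL k c s) : Kcl (k + m + 1) ≤ CL3 k m c s := by
  have hk' : (0 : ℝ) < k := by exact_mod_cast hk
  have hm' : (0 : ℝ) ≤ m := Nat.cast_nonneg m
  have hπ := Real.pi_pos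
  -- the inequality for `m = 0`
  have h1 := pow_le_pow_left₀ (Kcl_pos (Nat.succ_pos k)).le h0 (k + 1)
  rw [Nat.succ_eq_add_one, Kcl_pow (Nat.succ_pos k), CL_pow hk hc hs] at h1
  have hG0 := Ga_pos (k + 1)
  have hG1 := Ga_pos (m + 1)
  have hGD := Ga_pos (k + m + 1)
  -- in terms of `qq`
  have q0 : (4 * Real.pi) ^ k ≤ 3 / 4 * (c / k) ^ k * s ^ 2 * (qq (1 + k) / qq 1) := by
    have e1 : qq 1 = 12 / Real.pi := by
      unfold qq
      rw [Ga_one, div_pow, Real.sq_sqrt hπ.le]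
      norm_num
      field_simp
      norm_num
    have e2 : qq (1 + k) = ((k : ℝ) + 3) ^ (k + 1) / Ga (k + 1) ^ 2 := by
      unfold qq
      rw [add_comm 1 k]
      push_cast
      congr 2
      ring
    rw [e1, e2]
    have h2 : (((k + 1 : ℕ) : ℝ) / (((k + 1 : ℕ) : ℝ) + 2)) ^ (k + 1) * 4 ^ (k + 1) *
        Real.pi ^ (k + 1) * Ga (k + 1) ^ 2 =
        (((k : ℝ) + 1) ^ (k + 1) / ((k : ℝ) + 3) ^ (k + 1)) * (4 * Real.pi) * Ga (k + 1) ^ 2 *
          (4 * Real.pi) ^ k := by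
      rw [div_pow, mul_pow 4 Real.pi k, pow_succ 4 k, pow_succ Real.pi k]
      push_cast
      have : (k : ℝ) + 1 + 2 = k + 3 := by ring
      rw [this]
      ring
    rw [h2] at h1
    have h3 : 0 < (((k : ℝ) + 1) ^ (k + 1) / ((k : ℝ) + 3) ^ (k + 1)) * (4 * Real.pi) *
        Ga (k + 1) ^ 2 := by positivity
    rw [← le_div_iff₀' h3] at h1
    refine h1.trans (le_of_eq ?_)
    field_simp
    ring
  have q1 : (4 * Real.pi) ^ k ≤ 3 / 4 * (c / k) ^ k * s ^ 2 * (qq (m + 1 + k) / qq (m + 1)) := by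
    refine q0.trans (mul_le_mul_of_nonneg_left ?_ (by positivity))
    rw [div_le_div_iff₀ (qq_pos 1) (qq_pos (m + 1))]
    have := qq_mono k m
    linarith
  -- the inequality for `m`
  apply le_of_pow_le_pow_left₀ (show k + m + 1 ≠ 0 by omega) (CL3_nonneg hc hs)
  rw [CL3_pow hk m hc hs, Kcl_pow (show 0 < k + m + 1 by omega), Kcl_pow (Nat.succ_pos m)]
  have e3 : qq (m + 1 + k) = ((k : ℝ) + m + 3) ^ (k + m + 1) / Ga (k + m + 1) ^ 2 := by
    unfold qq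
    rw [show m + 1 + k = k + m + 1 by ring]
    push_cast
    congr 2
    ring
  have e4 : qq (m + 1) = ((m : ℝ) + 3) ^ (m + 1) / Ga (m + 1) ^ 2 := by
    unfold qq
    push_cast
    congr 2
    ring
  rw [e3, e4] at q1
  have hD : ((k + m + 1 : ℕ) : ℝ) = (k : ℝ) + m + 1 := by push_cast; ring
  have hM : ((m + 1 : ℕ) : ℝ) = (m : ℝ) + 1 := by push_cast; ring
  rw [Nat.succ_eq_add_one, hD, hM]
  have e5 : (k : ℝ) + m + 1 + 2 = k + m + 3 := by ring
  have e6 : (m : ℝ) + 1 + 2 = m + 3 := by ring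
  rw [e5, e6]
  set D : ℝ := (k : ℝ) + m + 1 with hDdef
  have hD0 : 0 < D := by positivity
  have lhs : (D / (k + m + 3)) ^ (k + m + 1) * 4 ^ (k + m + 1) * Real.pi ^ (k + m + 1) *
      Ga (k + m + 1) ^ 2 =
      (D ^ (k + m + 1) * (4 * Real.pi) ^ (m + 1) * (Ga (k + m + 1) ^ 2 /
        ((k : ℝ) + m + 3) ^ (k + m + 1))) * (4 * Real.pi) ^ k := by
    have : (4 * Real.pi) ^ (m + 1) * (4 * Real.pi) ^ k = 4 ^ (k + m + 1) * Real.pi ^ (k + m + 1) := by
      rw [← pow_add, ← mul_pow]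
      congr 1
      ring
    rw [div_pow]
    calc D ^ (k + m + 1) / (↑k + ↑m + 3) ^ (k + m + 1) * 4 ^ (k + m + 1) * Real.pi ^ (k + m + 1) *
          Ga (k + m + 1) ^ 2 = (D ^ (k + m + 1) * (Ga (k + m + 1) ^ 2 /
        ((k : ℝ) + m + 3) ^ (k + m + 1))) * (4 ^ (k + m + 1) * Real.pi ^ (k + m + 1)) := by
          field_simp
      _ = _ := by rw [← this]; ring
  have rhs : 3 / 4 * ((((m : ℝ) + 1) / (m + 3)) ^ (m + 1) * 4 ^ (m + 1) * Real.pi ^ (m + 1) *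
      Ga (m + 1) ^ 2) * (D / (m + 1)) ^ (m + 1) * (c * (D / k)) ^ k * s ^ 2 =
      (D ^ (k + m + 1) * (4 * Real.pi) ^ (m + 1) * (Ga (k + m + 1) ^ 2 /
        ((k : ℝ) + m + 3) ^ (k + m + 1))) * (3 / 4 * (c / k) ^ k * s ^ 2 *
        (((k : ℝ) + m + 3) ^ (k + m + 1) / Ga (k + m + 1) ^ 2 /
          (((m : ℝ) + 3) ^ (m + 1) / Ga (m + 1) ^ 2))) := by
    have h1 : D ^ (k + m + 1) = D ^ (m + 1) * D ^ k := by
      rw [← pow_add]
      congr 1
      ring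
    have h2 : (c * (D / k)) ^ k = D ^ k * (c / k) ^ k := by
      rw [← mul_pow]
      congr 1
      ring
    rw [h1, h2, mul_pow 4 Real.pi (m + 1), div_pow D, div_pow ((m : ℝ) + 1)]
    field_simp
  rw [lhs, rhs]
  exact mul_le_mul_of_nonneg_left q1 (by positivity)

/-- for radial functions -/
theorem CC_eq {k : ℕ} (hk : 3 ≤ k) : CL k (((k : ℝ) / 2) ^ 2 - (k : ℝ) / 2) (sg (k + 1)) =
    CC (k + 1) (sg (k + 1)) := by
  have hk' : (3 : ℝ) ≤ k := by exact_mod_cast hk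
  have hs := sg_pos (Nat.succ_pos k)
  have hπ := Real.pi_pos
  have hc0 : 0 < ((k : ℝ) / 2) ^ 2 - (k : ℝ) / 2 := by nlinarith
  have e0 : (0 : ℝ) < ((k + 1 : ℕ) : ℝ) - 3 := by push_cast; linarith
  have h1 : 0 ≤ CL k (((k : ℝ) / 2) ^ 2 - (k : ℝ) / 2) (sg (k + 1)) := CL_nonneg hc0 hs
  have h2 : 0 ≤ CC (k + 1) (sg (k + 1)) := by
    unfold CC
    positivity
  rw [← pow_left_inj₀ h1 h2 (Nat.succ_ne_zero k), Nat.succ_eq_add_one,
    CL_pow (by omega) hc0 hs, CC_pow (by omega), sg_sq (Nat.succ_pos k)]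
  push_cast
  have e1 : (((k : ℝ) / 2) ^ 2 - (k : ℝ) / 2) / k = ((k : ℝ) - 2) / 4 := by
    field_simp
    ring
  have e2 : (k : ℝ) + 1 - 3 = k - 2 := by ring
  rw [e1, e2]
  have h3 : (0 : ℝ) < k - 2 := by linarith
  rw [show (((k : ℝ) + 1) * (k - 2) / 4) ^ (k + 1) =
    ((k : ℝ) + 1) ^ (k + 1) * (((k - 2) / 4) ^ k * ((k - 2) / 4)) by
      rw [← pow_succ, ← mul_pow]; congr 1; ring]
  field_simp

end Pool.Agent.K7.H4.LT
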