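import Pool.Agent.K7.H4.LT.Landau
import Mathlib.Analysis.SpecialFunctions.SmoothTransition

/-!
The sums `∑ G_j(|y|, z) P_j(y)` with `P_j` harmonic homogeneous are dense.
-/

set_option autoImplicit false

open MeasureTheory Set Filter Topology Metric MvPolynomial

namespace Pool.Agent.K7.H4.LT

open Pool.Agent.R117.RL (E)

variable {k m : ℕ}

theorem kap_contD : Continuous (kap (d := k + 1) (m := m)) := by
  unfold kap
  exact cons_cont.comp (continuous_fst.norm.prodMk continuous_snd)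

theorem kap_zeroD (x : XX k m) : kap x 0 = ‖x.1‖ := rfl

theorem kap_tail (x : XX k m) : Fin.tail (kap x) = x.2 := rfl

theorem norm_kap (x : XX k m) : ‖kap x‖ = ‖x‖ := by
  refine le_antisymm ?_ ?_
  · rw [pi_norm_le_iff_of_nonneg (norm_nonneg _)]
    intro i
    refine Fin.cases ?_ (fun j => ?_) i
    · rw [kap_zeroD, norm_norm]
      exact norm_fst_le x
    · exact (norm_le_pi_norm x.2 j).trans (norm_snd_le x)
  · rw [Prod.norm_def, max_le_iff]
    constructor
    · have h := norm_le_pi_norm (kap x) 0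
      rwa [kap_zeroD, norm_norm] at h
    · rw [pi_norm_le_iff_of_nonneg (norm_nonneg _)]
      intro j
      exact norm_le_pi_norm (kap x) j.succ

theorem kap_smooth {x : XX k m} (hx : x.1 ≠ 0) : ContDiffAt ℝ 1 (kap (d := k + 1) (m := m)) x := by
  rw [contDiffAt_pi]
  intro i
  refine Fin.cases ?_ (fun j => ?_) i
  · exact (contDiffAt_norm ℝ hx).comp x contDiffAt_fst
  · exact (contDiff_apply ℝ ℝ j).contDiffAt.comp x contDiffAt_snd

/-- the composition of a function supported away from the boundary with `kap` -/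
theorem comp_kap {G : V m → ℝ} (hG : ContDiff ℝ 1 G) (hs : tsupport G ⊆ HS m) :
    ContDiff ℝ 1 (fun x : XX k m => G (kap x)) := by
  rw [contDiff_iff_contDiffAt]
  intro x
  by_cases hx : x.1 = 0
  · have h1 : kap x ∉ tsupport G := by
      intro h
      have h2 : 0 < kap x 0 := hs h
      rw [kap_zeroD, hx, norm_zero] at h2
      exact lt_irrefl _ h2
    have h2 : ∀ᶠ y in 𝓝 x, kap y ∉ tsupport G :=
      kap_contD.continuousAt.eventually ((isClosed_tsupport G).isOpen_compl.mem_nhds h1)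
    have h3 : (fun y : XX k m => G (kap y)) =ᶠ[𝓝 x] fun _ => 0 := by
      filter_upwards [h2] with y hy
      exact image_eq_zero_of_notMem_tsupport hy
    exact contDiffAt_const.congr_of_eventuallyEq h3
  · exact hG.contDiffAt.comp x (kap_smooth hx)

theorem comp_kap_supp {G : V m → ℝ} {R : ℝ} (hG : ∀ v, G v ≠ 0 → ‖v‖ ≤ R) (x : XX k m)
    (hx : G (kap x) ≠ 0) : ‖x‖ ≤ R := by
  rw [← norm_kap]
  exact hG _ hx

theorem hcs_of {u : XX k m → ℝ} {R : ℝ} (hu : ∀ x, u x ≠ 0 → ‖x‖ ≤ R) : HasCompactSupport u := by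
  refine HasCompactSupport.intro (isCompact_closedBall (0 : XX k m) R) fun x hx => ?_
  by_contra h
  exact hx (mem_closedBall_zero_iff.2 (hu x h))

/-- a radial cut-off function -/
noncomputable def ph (y : E (k + 1)) : ℝ := Real.smoothTransition (2 - 2 * ‖y‖)

theorem ph_smooth : ContDiff ℝ 1 (ph (k := k)) := by
  rw [contDiff_iff_contDiffAt]
  intro y
  by_cases hy : y = 0
  · have h3 : (ph (k := k)) =ᶠ[𝓝 y] fun _ => 1 := by
      have h4 : ∀ᶠ z : E (k + 1) in 𝓝 y, ‖z‖ < 1 / 2 := by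
        have h5 : ‖y‖ < 1 / 2 := by rw [hy, norm_zero]; norm_num
        exact continuous_norm.continuousAt.eventually (gt_mem_nhds h5)
      filter_upwards [h4] with z hz
      exact Real.smoothTransition.one_of_one_le (by linarith)
    exact contDiffAt_const.congr_of_eventuallyEq h3
  · have h1 : ContDiffAt ℝ 1 (fun z : E (k + 1) => 2 - 2 * ‖z‖) y :=
      contDiffAt_const.sub (contDiffAt_const.mul (contDiffAt_norm ℝ hy))
    exact (Real.smoothTransition.contDiff (n := 1)).contDiffAt.comp y h1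

theorem ph_zero {y : E (k + 1)} (hy : 1 ≤ ‖y‖) : ph y = 0 :=
  Real.smoothTransition.zero_of_nonpos (by linarith)

theorem ph_le (y : E (k + 1)) : ‖ph y‖ ≤ 1 := by
  unfold ph
  rw [Real.norm_of_nonneg (Real.smoothTransition.nonneg _)]
  exact Real.smoothTransition.le_one _

theorem ph_bound : ∃ C : ℝ, 0 ≤ C ∧ ∀ y : E (k + 1), ‖fderiv ℝ ph y‖ ≤ C := by
  have h1 : HasCompactSupport (ph (k := k)) := by
    refine HasCompactSupport.intro (isCompact_closedBall (0 : E (k + 1)) 1) fun x hx => ?_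
    refine ph_zero ?_
    by_contra h
    exact hx (mem_closedBall_zero_iff.2 (not_le.1 h).le)
  obtain ⟨C, hC⟩ := (ph_smooth.continuous_fderiv one_ne_zero).bounded_above_of_compact_support
    (h1.fderiv ℝ)
  exact ⟨C, (norm_nonneg _).trans (hC 0), hC⟩

/-- the cut-off function in the half space -/
noncomputable def et (δ : ℝ) (b : ContDiffBump (0 : V m)) (v : V m) : ℝ :=
  (1 - Real.smoothTransition (2 - 2 * (δ⁻¹ * v 0))) * b v

theorem et_smooth (δ : ℝ) (b : ContDiffBump (0 : V m)) : ContDiff ℝ 1 (et δ b) := by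
  unfold et
  refine (contDiff_const.sub ?_).mul b.contDiff
  exact Real.smoothTransition.contDiff.comp
    (contDiff_const.sub (contDiff_const.mul (contDiff_const.mul (contDiff_apply ℝ ℝ 0))))

theorem et_supp {δ : ℝ} (hδ : 0 < δ) (b : ContDiffBump (0 : V m)) {v : V m} (hv : et δ b v ≠ 0) :
    δ / 2 ≤ v 0 ∧ ‖v‖ ≤ b.rOut := by
  unfold et at hv
  constructor
  · by_contra h
    apply hv
    have h1 : δ⁻¹ * v 0 ≤ δ⁻¹ * (δ / 2) :=
      mul_le_mul_of_nonneg_left (not_le.1 h).le (inv_nonneg.2 hδ.le)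
    have h2 : δ⁻¹ * (δ / 2) = 1 / 2 := by field_simp
    rw [Real.smoothTransition.one_of_one_le (by linarith)]
    ring
  · by_contra h
    apply hv
    rw [b.zero_of_le_dist (by rw [dist_zero_right]; exact (not_le.1 h).le)]
    ring

theorem et_tsupp {δ : ℝ} (hδ : 0 < δ) (b : ContDiffBump (0 : V m)) :
    tsupport (et δ b) ⊆ HS m := by
  have h1 : tsupport (et δ b) ⊆ {v : V m | δ / 2 ≤ v 0} :=
    closure_minimal (fun v hv => (et_supp hδ b hv).1)
      (isClosed_le continuous_const (continuous_apply 0))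
  intro v hv
  have h2 : δ / 2 ≤ v 0 := h1 hv
  show 0 < v 0
  linarith

theorem et_compact {δ : ℝ} (hδ : 0 < δ) (b : ContDiffBump (0 : V m)) :
    HasCompactSupport (et δ b) := by
  refine HasCompactSupport.intro (isCompact_closedBall (0 : V m) b.rOut) fun x hx => ?_
  by_contra h
  exact hx (mem_closedBall_zero_iff.2 (et_supp hδ b h).2)

/-- the sums `∑ G_j(|y|, z) H_j(y)` -/
noncomputable def GoodS (k m : ℕ) : Submodule ℝ (XX k m → ℝ) :=
  Submodule.span ℝ {w | ∃ (G : V m → ℝ) (l : ℕ) (H : MvPolynomial (Fin (k + 1)) ℝ),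
    ContDiff ℝ 1 G ∧ HasCompactSupport G ∧ tsupport G ⊆ HS m ∧ H ∈ HH (k + 1) l ∧
      w = fun x => G (kap x) * pe H x.1}

theorem good_of_pol {F : XX k m → ℝ} (hF : F ∈ PolS k m) {e : V m → ℝ} (h1 : ContDiff ℝ 1 e)
    (h2 : HasCompactSupport e) (h3 : tsupport e ⊆ HS m) :
    (fun x => e (kap x) * F x) ∈ GoodS k m := by
  unfold PolS at hF
  induction hF using Submodule.span_induction with
  | mem F hF =>
    obtain ⟨h, P, hh, rfl⟩ := hF
    have hP := all_FD (by omega : 1 ≤ k + 1) P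
    induction hP using Submodule.span_induction with
    | mem P hP =>
      obtain ⟨i, l, H, hH, rfl⟩ := hP
      have h4 : ContDiff ℝ 1 (fun v : V m => h (Fin.tail v) * v 0 ^ (2 * i)) := by
        refine ContDiff.mul ?_ ((contDiff_apply ℝ ℝ 0).pow _)
        refine hh.comp ?_
        rw [contDiff_pi]
        intro j
        exact contDiff_apply ℝ ℝ j.succ
      refine Submodule.subset_span ⟨fun v => e v * (h (Fin.tail v) * v 0 ^ (2 * i)), l, H,
        h1.mul h4, h2.mul_right, (tsupport_mul_subset_left).trans h3, hH, ?_⟩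
      funext x
      show e (kap x) * (h x.2 * pe (r2 (k + 1) ^ i * H) x.1) =
        e (kap x) * (h (Fin.tail (kap x)) * kap x 0 ^ (2 * i)) * pe H x.1
      rw [pe_mul, pe_pow, pe_r2, kap_tail, kap_zeroD, ← pow_mul]
      ring
    | zero =>
      have h4 : (fun x : XX k m => e (kap x) * (h x.2 * pe 0 x.1)) = 0 := by
        funext x
        rw [pe_zero]
        simp
      rw [h4]
      exact Submodule.zero_mem _
    | add P Q _ _ hP hQ =>
      have h4 : (fun x : XX k m => e (kap x) * (h x.2 * pe (P + Q) x.1)) =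
          (fun x => e (kap x) * (h x.2 * pe P x.1)) +
            fun x => e (kap x) * (h x.2 * pe Q x.1) := by
        funext x
        rw [pe_add]
        simp only [Pi.add_apply]
        ring
      rw [h4]
      exact Submodule.add_mem _ hP hQ
    | smul c P _ hP =>
      have h4 : (fun x : XX k m => e (kap x) * (h x.2 * pe (c • P) x.1)) =
          c • fun x => e (kap x) * (h x.2 * pe P x.1) := by
        funext x
        rw [pe_smul]
        simp only [Pi.smul_apply, smul_eq_mul]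
        ring
      rw [h4]
      exact Submodule.smul_mem _ c hP
  | zero =>
    have h4 : (fun x : XX k m => e (kap x) * (0 : XX k m → ℝ) x) = 0 := by
      funext x
      simp
    rw [h4]
    exact Submodule.zero_mem _
  | add F G _ _ hF hG =>
    have h4 : (fun x : XX k m => e (kap x) * (F + G) x) =
        (fun x => e (kap x) * F x) + fun x => e (kap x) * G x := by
      funext x
      simp only [Pi.add_apply]
      ring
    rw [h4]
    exact Submodule.add_mem _ hF hG
  | smul c F _ hF =>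
    have h4 : (fun x : XX k m => e (kap x) * (c • F) x) = c • fun x => e (kap x) * F x := by
      funext x
      simp only [Pi.smul_apply, smul_eq_mul]
      ring
    rw [h4]
    exact Submodule.smul_mem _ c hF

theorem good_rep {w : XX k m → ℝ} (hw : w ∈ GoodS k m) :
    ∃ (g : ℕ) (P : Fin g → MvPolynomial (Fin (k + 1)) ℝ) (dg : Fin g → ℕ) (G : Fin g → V m → ℝ),
      (∀ j, P j ∈ HH (k + 1) (dg j)) ∧ (∀ j, ContDiff ℝ 1 (G j)) ∧
      (∀ j, HasCompactSupport (G j)) ∧ (∀ j, tsupport (G j) ⊆ HS m) ∧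
      ∀ x, w x = ∑ j, G j (kap x) * pe (P j) x.1 := by
  unfold GoodS at hw
  rw [Submodule.mem_span_set'] at hw
  obtain ⟨g, c, s, rfl⟩ := hw
  choose G l H h1 h2 h3 h4 h5 using fun j => (s j).2
  refine ⟨g, H, l, fun j v => c j * G j v, h4, fun j => contDiff_const.mul (h1 j),
    fun j => (h2 j).mul_left, fun j => (tsupport_mul_subset_right).trans (h3 j), fun x => ?_⟩
  rw [Finset.sum_apply]
  refine Finset.sum_congr rfl fun j _ => ?_
  rw [Pi.smul_apply, h5 j, smul_eq_mul]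
  ring

theorem int_sq_le {u : XX k m → ℝ} {S : Set (XX k m)} (hS : MeasurableSet S)
    (hfin : volume S ≠ ⊤) {B : ℝ} (hB : ∀ x, |u x| ≤ B) (hu : ∀ x, x ∉ S → u x = 0) :
    ∫ x, u x ^ 2 ≤ B ^ 2 * (volume S).toReal := by
  have h1 : ∫ x, u x ^ 2 ≤ ∫ x, S.indicator (fun _ => B ^ 2) x := by
    refine integral_mono_of_nonneg (Eventually.of_forall fun x => sq_nonneg _) ?_
      (Eventually.of_forall fun x => ?_)
    · rw [integrable_indicator_iff hS]
      exact integrableOn_const hfin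
    · show u x ^ 2 ≤ S.indicator (fun _ => B ^ 2) x
      by_cases hx : x ∈ S
      · rw [indicator_of_mem hx, ← sq_abs]
        exact pow_le_pow_left₀ (abs_nonneg _) (hB x) 2
      · rw [indicator_of_notMem hx, hu x hx]
        norm_num
  refine h1.trans (le_of_eq ?_)
  rw [integral_indicator hS, setIntegral_const, smul_eq_mul, mul_comm]
  rfl

/-- the part of a function near the axis is small -/
theorem axis_small (hk : 2 ≤ k) {f : XX k m → ℝ} (hf : ContDiff ℝ 1 f) {R : ℝ}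
    (hR : ∀ x, f x ≠ 0 → ‖x‖ ≤ R) (h0 : XX k m) :
    ∃ K : ℝ, 0 ≤ K ∧ ∀ δ : ℝ, 0 < δ → δ ≤ 1 →
      ∫ x, (f x * ph (δ⁻¹ • x.1)) ^ 2 ≤ K * δ ∧
      ∫ x, (fderiv ℝ (fun x => f x * ph (δ⁻¹ • x.1)) x h0) ^ 2 ≤ K * δ := by
  have hfc : HasCompactSupport f := hcs_of hR
  obtain ⟨M, hM⟩ := hf.continuous.bounded_above_of_compact_support hfc
  obtain ⟨M', hM'⟩ := (hf.continuous_fderiv one_ne_zero).bounded_above_of_compact_support
    (hfc.fderiv ℝ)
  obtain ⟨C, hC0, hC⟩ := ph_bound (k := k)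
  have hM0 : 0 ≤ M := (norm_nonneg _).trans (hM 0)
  have hM0' : 0 ≤ M' := (norm_nonneg _).trans (hM' 0)
  set v : ℝ := (volume (ball (0 : E (k + 1)) 1)).toReal *
    (volume (closedBall (0 : Fin m → ℝ) R)).toReal with hv
  have hv0 : 0 ≤ v := by positivity
  set S : ℝ → Set (XX k m) := fun δ => closedBall (0 : E (k + 1)) δ ×ˢ
    closedBall (0 : Fin m → ℝ) R with hS
  have hSc : ∀ δ, IsClosed (S δ) := fun δ => isClosed_closedBall.prod isClosed_closedBall
  have hSv : ∀ δ : ℝ, 0 < δ → (volume (S δ)).toReal = δ ^ (k + 1) * v := by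
    intro δ hδ
    have h1 : volume (closedBall (0 : E (k + 1)) δ) =
        ENNReal.ofReal (δ ^ (k + 1)) * volume (ball (0 : E (k + 1)) 1) := by
      rw [Measure.addHaar_closedBall _ _ hδ.le, finrank_euclideanSpace_fin]
    rw [hS]
    simp only
    rw [Measure.volume_eq_prod, Measure.prod_prod, h1, ENNReal.toReal_mul, ENNReal.toReal_mul,
      ENNReal.toReal_ofReal (by positivity), hv]
    ring
  have hSf : ∀ δ, volume (S δ) ≠ ⊤ := fun δ =>
    ((isCompact_closedBall (0 : E (k + 1)) δ).prod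
      (isCompact_closedBall (0 : Fin m → ℝ) R)).measure_ne_top
  refine ⟨(M ^ 2 + ((M * C + M') * ‖h0‖) ^ 2) * v, by positivity, fun δ hδ hδ1 => ?_⟩
  have hu0 : ∀ x : XX k m, x ∉ S δ → f x * ph (δ⁻¹ • x.1) = 0 := by
    intro x hx
    by_contra h
    apply hx
    have h1 : f x ≠ 0 := left_ne_zero_of_mul h
    have h2 : ph (δ⁻¹ • x.1) ≠ 0 := right_ne_zero_of_mul h
    refine ⟨mem_closedBall_zero_iff.2 ?_,
      mem_closedBall_zero_iff.2 ((norm_snd_le x).trans (hR x h1))⟩
    by_contra h3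
    apply h2
    refine ph_zero ?_
    rw [norm_smul, Real.norm_of_nonneg (inv_nonneg.2 hδ.le)]
    have h4 := mul_le_mul_of_nonneg_left (not_le.1 h3).le (inv_nonneg.2 hδ.le)
    rwa [inv_mul_cancel₀ hδ.ne'] at h4
  have hpow : δ ^ (k + 1) ≤ δ := by
    have h1 := pow_le_pow_of_le_one hδ.le hδ1 (show 1 ≤ k + 1 by omega)
    rwa [pow_one] at h1
  have hpow2 : δ⁻¹ ^ 2 * δ ^ (k + 1) ≤ δ := by
    obtain ⟨a, rfl⟩ : ∃ a, k = a + 2 := ⟨k - 2, by omega⟩
    have h1 : δ⁻¹ ^ 2 * δ ^ (a + 2 + 1) = δ ^ (a + 1) := by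
      field_simp
      ring
    rw [h1]
    have h2 := pow_le_pow_of_le_one hδ.le hδ1 (show 1 ≤ a + 1 by omega)
    rwa [pow_one] at h2
  constructor
  · have h1 := int_sq_le (u := fun x : XX k m => f x * ph (δ⁻¹ • x.1)) (hSc δ).measurableSet
      (hSf δ) (B := M) (fun x => ?_) hu0
    · rw [hSv δ hδ] at h1
      refine h1.trans ?_
      have h2 : M ^ 2 * (δ ^ (k + 1) * v) ≤ M ^ 2 * (δ * v) :=
        mul_le_mul_of_nonneg_left (mul_le_mul_of_nonneg_right hpow hv0) (sq_nonneg _)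
      have h3 : 0 ≤ ((M * C + M') * ‖h0‖) ^ 2 * v * δ := by positivity
      nlinarith
    · rw [abs_mul]
      have h1 := mul_le_mul (hM x) (ph_le (δ⁻¹ • x.1)) (norm_nonneg _) hM0
      rwa [mul_one] at h1
  · have hd : ∀ x : XX k m, fderiv ℝ (fun x : XX k m => f x * ph (δ⁻¹ • x.1)) x h0 =
        f x * (fderiv ℝ ph (δ⁻¹ • x.1) (δ⁻¹ • h0.1)) + ph (δ⁻¹ • x.1) * fderiv ℝ f x h0 := by
      intro x
      have h1 : HasFDerivAt (fun x : XX k m => δ⁻¹ • x.1)
          (δ⁻¹ • ContinuousLinearMap.fst ℝ (E (k + 1)) (Fin m → ℝ)) x :=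
        hasFDerivAt_fst.const_smul δ⁻¹
      have h2 : HasFDerivAt (ph (k := k)) (fderiv ℝ ph (δ⁻¹ • x.1)) (δ⁻¹ • x.1) :=
        (ph_smooth.differentiable one_ne_zero).differentiableAt.hasFDerivAt
      have h3 : HasFDerivAt f (fderiv ℝ f x) x :=
        (hf.differentiable one_ne_zero).differentiableAt.hasFDerivAt
      have h4 := h3.mul (h2.comp x h1)
      have h5 : fderiv ℝ (fun x : XX k m => f x * ph (δ⁻¹ • x.1)) x = _ := h4.fderiv
      rw [h5]
      rfl
    have h1 := int_sq_le (u := fun x : XX k m =>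
      fderiv ℝ (fun x : XX k m => f x * ph (δ⁻¹ • x.1)) x h0) (hSc δ).measurableSet
      (hSf δ) (B := (M * C + M') * ‖h0‖ * δ⁻¹) (fun x => ?_) (fun x hx => ?_)
    · rw [hSv δ hδ] at h1
      refine h1.trans ?_
      have h2 : ((M * C + M') * ‖h0‖ * δ⁻¹) ^ 2 * (δ ^ (k + 1) * v) =
          ((M * C + M') * ‖h0‖) ^ 2 * ((δ⁻¹ ^ 2 * δ ^ (k + 1)) * v) := by ring
      rw [h2]
      have h3 : ((M * C + M') * ‖h0‖) ^ 2 * ((δ⁻¹ ^ 2 * δ ^ (k + 1)) * v) ≤
          ((M * C + M') * ‖h0‖) ^ 2 * (δ * v) :=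
        mul_le_mul_of_nonneg_left (mul_le_mul_of_nonneg_right hpow2 hv0) (sq_nonneg _)
      have h4 : 0 ≤ M ^ 2 * v * δ := by positivity
      nlinarith
    · simp only [hd]
      have h2 : ‖fderiv ℝ ph (δ⁻¹ • x.1) (δ⁻¹ • h0.1)‖ ≤ C * (δ⁻¹ * ‖h0‖) := by
        refine (ContinuousLinearMap.le_opNorm _ _).trans ?_
        rw [norm_smul, Real.norm_of_nonneg (inv_nonneg.2 hδ.le)]
        exact mul_le_mul (hC _) (mul_le_mul_of_nonneg_left (norm_fst_le h0)
          (inv_nonneg.2 hδ.le)) (by positivity) hC0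
      have h3 : ‖fderiv ℝ f x h0‖ ≤ M' * ‖h0‖ :=
        (ContinuousLinearMap.le_opNorm _ _).trans
          (mul_le_mul_of_nonneg_right (hM' x) (norm_nonneg _))
      have h4 : 1 ≤ δ⁻¹ := (one_le_inv₀ hδ).2 hδ1
      rw [← Real.norm_eq_abs]
      refine (norm_add_le _ _).trans ?_
      rw [norm_mul, norm_mul]
      have h5 : ‖f x‖ * ‖fderiv ℝ ph (δ⁻¹ • x.1) (δ⁻¹ • h0.1)‖ ≤ M * (C * (δ⁻¹ * ‖h0‖)) :=
        mul_le_mul (hM x) h2 (norm_nonneg _) hM0
      have h6 : ‖ph (δ⁻¹ • x.1)‖ * ‖fderiv ℝ f x h0‖ ≤ 1 * (M' * ‖h0‖) :=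
        mul_le_mul (ph_le _) h3 (norm_nonneg _) zero_le_one
      have h7 : M' * ‖h0‖ * 1 ≤ M' * ‖h0‖ * δ⁻¹ :=
        mul_le_mul_of_nonneg_left h4 (by positivity)
      nlinarith
    · have h2 : ∀ᶠ y in 𝓝 x, y ∉ S δ := (hSc δ).isOpen_compl.mem_nhds hx
      have h3 : (fun x : XX k m => f x * ph (δ⁻¹ • x.1)) =ᶠ[𝓝 x] fun _ => 0 := by
        filter_upwards [h2] with y hy
        exact hu0 y hy
      show fderiv ℝ (fun x : XX k m => f x * ph (δ⁻¹ • x.1)) x h0 = 0
      rw [h3.fderiv_eq]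
      simp

end Pool.Agent.K7.H4.LT
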