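import Pool.Agent.K7.H4.LT.Dense

/-!
The sums `∑ G_j(|y|, z) P_j(y)` with `P_j` harmonic homogeneous are dense (conclusion).
-/

set_option autoImplicit false

open MeasureTheory Set Filter Topology Metric MvPolynomial

namespace Pool.Agent.K7.H4.LT

open Pool.Agent.R117.RL (E)

variable {k m : ℕ}

theorem sq_int {u : XX k m → ℝ} (hu : Continuous u) (hc : HasCompactSupport u) :
    Integrable (fun x => u x ^ 2) := by
  have h1 : (fun x => u x ^ 2) = fun x => u x * u x := funext fun x => sq _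
  rw [h1]
  exact (hu.mul hu).integrable_of_hasCompactSupport hc.mul_left

/-- a product with the error of the averages tends to zero -/
theorem approx_small {f e : XX k m → ℝ} (hf : ContDiff ℝ 1 f) (he : ContDiff ℝ 1 e) {ρ : ℝ}
    (hρ : 0 < ρ) (hfc : HasCompactSupport f) (hec : HasCompactSupport e) :
    Tendsto (fun n => ∫ x, (e x * (f x - av ρ n f x)) ^ 2) atTop (𝓝 0) ∧
    ∀ h, Tendsto (fun n => ∫ x, (fderiv ℝ (fun x => e x * (f x - av ρ n f x)) x h) ^ 2) atTop
      (𝓝 0) := by
  obtain ⟨M, hM⟩ := hf.continuous.bounded_above_of_compact_support hfc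
  obtain ⟨M', hM'⟩ := (hf.continuous_fderiv one_ne_zero).bounded_above_of_compact_support
    (hfc.fderiv ℝ)
  have hM0 : 0 ≤ M := (norm_nonneg _).trans (hM 0)
  have hM0' : 0 ≤ M' := (norm_nonneg _).trans (hM' 0)
  have hav : ∀ n, ContDiff ℝ 1 (av ρ n f) := fun n => av_smooth ρ n hf hfc
  have hb : ∀ n x, ‖f x - av ρ n f x‖ ≤ M + M := fun n x =>
    (norm_sub_le _ _).trans (add_le_add (hM x) (av_bound hρ n hM x))
  have ht : ∀ x, Tendsto (fun n => f x - av ρ n f x) atTop (𝓝 0) := by
    intro x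
    have h1 := (tendsto_const_nhds (x := f x)).sub (av_tendsto hρ hf.continuous x)
    rwa [sub_self] at h1
  constructor
  · have h0 : (0 : ℝ) = ∫ _ : XX k m, (0 : ℝ) := by simp
    rw [h0]
    refine tendsto_integral_of_dominated_convergence (fun x => (‖e x‖ * (M + M)) ^ 2)
      (fun n => ?_) ?_ (fun n => Eventually.of_forall fun x => ?_)
      (Eventually.of_forall fun x => ?_)
    · exact ((he.continuous.mul (hf.continuous.sub (hav n).continuous)).pow 2).aestronglyMeasurable
    · exact sq_int (he.continuous.norm.mul continuous_const) (hec.norm.mul_right)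
    · rw [norm_pow, norm_mul]
      exact pow_le_pow_left₀ (by positivity)
        (mul_le_mul_of_nonneg_left (hb n x) (norm_nonneg _)) 2
    · have h1 := ((ht x).const_mul (e x)).pow 2
      rwa [mul_zero, zero_pow two_ne_zero] at h1
  · intro h
    have hgc : Continuous (fun y => fderiv ℝ f y h) :=
      (hf.continuous_fderiv one_ne_zero).clm_apply continuous_const
    have hg : ∀ x, ‖fderiv ℝ f x h‖ ≤ M' * ‖h‖ := fun x =>
      (ContinuousLinearMap.le_opNorm _ _).trans
        (mul_le_mul_of_nonneg_right (hM' x) (norm_nonneg _))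
    have hd : ∀ n x, fderiv ℝ (fun x => e x * (f x - av ρ n f x)) x h =
        e x * (fderiv ℝ f x h - av ρ n (fun y => fderiv ℝ f y h) x) +
          (f x - av ρ n f x) * fderiv ℝ e x h := by
      intro n x
      have h1 : HasFDerivAt e (fderiv ℝ e x) x :=
        (he.differentiable one_ne_zero).differentiableAt.hasFDerivAt
      have h2 : HasFDerivAt f (fderiv ℝ f x) x :=
        (hf.differentiable one_ne_zero).differentiableAt.hasFDerivAt
      have h3 : HasFDerivAt (av ρ n f) (fderiv ℝ (av ρ n f) x) x :=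
        ((hav n).differentiable one_ne_zero).differentiableAt.hasFDerivAt
      have h4 := h1.mul (h2.sub h3)
      have h5 : fderiv ℝ (fun x => e x * (f x - av ρ n f x)) x = _ := h4.fderiv
      rw [h5, ← av_deriv ρ n hf hfc x h]
      rfl
    have h0 : (0 : ℝ) = ∫ _ : XX k m, (0 : ℝ) := by simp
    rw [h0]
    simp only [hd]
    refine tendsto_integral_of_dominated_convergence
      (fun x => (‖e x‖ * (M' * ‖h‖ + M' * ‖h‖) + (M + M) * ‖fderiv ℝ e x h‖) ^ 2)
      (fun n => ?_) ?_ (fun n => Eventually.of_forall fun x => ?_)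
      (Eventually.of_forall fun x => ?_)
    · have h1 : Continuous (fun x => av ρ n (fun y => fderiv ℝ f y h) x) := by
        have h2 : (fun x => av ρ n (fun y => fderiv ℝ f y h) x) =
            fun x => fderiv ℝ (av ρ n f) x h := by
          funext x
          rw [av_deriv ρ n hf hfc x h]
        rw [h2]
        exact ((hav n).continuous_fderiv one_ne_zero).clm_apply continuous_const
      have h3 : Continuous (fun y => fderiv ℝ e y h) :=
        (he.continuous_fderiv one_ne_zero).clm_apply continuous_const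
      exact (((he.continuous.mul (hgc.sub h1)).add
        ((hf.continuous.sub (hav n).continuous).mul h3)).pow 2).aestronglyMeasurable
    · have h3 : Continuous (fun y => fderiv ℝ e y h) :=
        (he.continuous_fderiv one_ne_zero).clm_apply continuous_const
      have h4 : HasCompactSupport (fun y => fderiv ℝ e y h) := hec.fderiv_apply (𝕜 := ℝ) h
      refine sq_int ((he.continuous.norm.mul continuous_const).add
        (continuous_const.mul h3.norm)) ?_
      exact (hec.norm.mul_right).add (h4.norm.mul_left)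
    · rw [norm_pow]
      refine pow_le_pow_left₀ (norm_nonneg _) ?_ 2
      refine (norm_add_le _ _).trans ?_
      rw [norm_mul, norm_mul]
      refine add_le_add (mul_le_mul_of_nonneg_left ?_ (norm_nonneg _))
        (mul_le_mul_of_nonneg_right (hb n x) (norm_nonneg _))
      exact (norm_sub_le _ _).trans (add_le_add (hg x) (av_bound hρ n hg x))
    · have h1 : Tendsto (fun n => fderiv ℝ f x h - av ρ n (fun y => fderiv ℝ f y h) x) atTop
          (𝓝 0) := by
        have h2 := (tendsto_const_nhds (x := fderiv ℝ f x h)).sub (av_tendsto hρ hgc x)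
        rwa [sub_self] at h2
      have h2 := ((h1.const_mul (e x)).add ((ht x).mul_const (fderiv ℝ e x h))).pow 2
      rwa [mul_zero, zero_mul, add_zero, zero_pow two_ne_zero] at h2

theorem sq_add_int {a b : XX k m → ℝ} (ha : Integrable (fun x => a x ^ 2))
    (hb : Integrable (fun x => b x ^ 2)) :
    ∫ x, (a x + b x) ^ 2 ≤ 2 * (∫ x, a x ^ 2) + 2 * ∫ x, b x ^ 2 := by
  rw [← integral_const_mul, ← integral_const_mul,
    ← integral_add (ha.const_mul 2) (hb.const_mul 2)]
  refine integral_mono_of_nonneg (Eventually.of_forall fun x => sq_nonneg _)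
    ((ha.const_mul 2).add (hb.const_mul 2)) (Eventually.of_forall fun x => ?_)
  show (a x + b x) ^ 2 ≤ 2 * a x ^ 2 + 2 * b x ^ 2
  nlinarith [sq_nonneg (a x - b x)]

/-- **the sums `∑ G_j(|y|, z) P_j(y)` with `P_j` harmonic homogeneous are dense** -/
theorem dense_harm (hk : 2 ≤ k) {f : XX k m → ℝ} (hf : ContDiff ℝ 1 f)
    (hfc : HasCompactSupport f) {ε : ℝ} (hε : 0 < ε) :
    ∃ (g : ℕ) (P : Fin g → MvPolynomial (Fin (k + 1)) ℝ) (dg : Fin g → ℕ) (G : Fin g → V m → ℝ),
      (∀ j, P j ∈ HH (k + 1) (dg j)) ∧ (∀ j, ContDiff ℝ 1 (G j)) ∧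
      (∀ j, HasCompactSupport (G j)) ∧ (∀ j, tsupport (G j) ⊆ HS m) ∧
      ContDiff ℝ 1 (fun x : XX k m => ∑ j, G j (kap x) * pe (P j) x.1) ∧
      HasCompactSupport (fun x : XX k m => ∑ j, G j (kap x) * pe (P j) x.1) ∧
      ∫ x, (f x - ∑ j, G j (kap x) * pe (P j) x.1) ^ 2 < ε ∧
      (∀ i : Fin (k + 1), ∫ x, (fderiv ℝ (fun x => f x - ∑ j, G j (kap x) * pe (P j) x.1) x
        (EuclideanSpace.single i 1, 0)) ^ 2 < ε) ∧
      ∀ i : Fin m, ∫ x, (fderiv ℝ (fun x => f x - ∑ j, G j (kap x) * pe (P j) x.1) x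
        (0, Pi.single i 1)) ^ 2 < ε := by
  obtain ⟨R, hR0, hR⟩ : ∃ R : ℝ, 0 < R ∧ ∀ x, f x ≠ 0 → ‖x‖ ≤ R := by
    obtain ⟨R, hR⟩ := hfc.isCompact.isBounded.subset_closedBall (0 : XX k m)
    refine ⟨max R 1, lt_max_of_lt_right one_pos, fun x hx => ?_⟩
    exact (mem_closedBall_zero_iff.1 (hR (subset_tsupport f hx))).trans (le_max_left _ _)
  -- the directions
  set dir : Fin (k + 1) ⊕ Fin m → XX k m :=
    Sum.elim (fun i => (EuclideanSpace.single i 1, 0)) (fun j => (0, Pi.single j 1)) with hdir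
  choose K hK0 hK using fun i => axis_small hk hf hR (dir i)
  obtain ⟨K0, hK00, hK0'⟩ := axis_small hk hf hR (0 : XX k m)
  set KK : ℝ := K0 + ∑ i, K i with hKK
  have hKi : ∀ i, K i ≤ KK := by
    intro i
    have h1 := Finset.single_le_sum (f := K) (fun i _ => hK0 i) (Finset.mem_univ i)
    rw [hKK]
    linarith
  have hKK0 : K0 ≤ KK := by
    have h1 : 0 ≤ ∑ i, K i := Finset.sum_nonneg fun i _ => hK0 i
    rw [hKK]
    linarith
  have hKKn : 0 ≤ KK := hK00.trans hKK0
  obtain ⟨δ, hδ, hδ1, hδ2⟩ : ∃ δ : ℝ, 0 < δ ∧ δ ≤ 1 ∧ KK * δ < ε / 4 := by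
    refine ⟨min 1 (ε / (8 * (KK + 1))), lt_min one_pos (by positivity), min_le_left _ _, ?_⟩
    have h1 : KK * min 1 (ε / (8 * (KK + 1))) ≤ (KK + 1) * (ε / (8 * (KK + 1))) :=
      mul_le_mul (by linarith) (min_le_right _ _) (le_min zero_le_one (by positivity))
        (by positivity)
    have h2 : (KK + 1) * (ε / (8 * (KK + 1))) = ε / 8 := by field_simp
    linarith
  let b : ContDiffBump (0 : V m) := ⟨R, R + 1, hR0, by linarith⟩
  have hbo : b.rOut = R + 1 := rfl
  have hbi : b.rIn = R := rfl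
  set ρ : ℝ := R + 1 with hρ
  have hρ0 : 0 < ρ := by linarith
  set e : XX k m → ℝ := fun x => et δ b (kap x) with he
  have hes : ∀ x, e x ≠ 0 → ‖x‖ ≤ ρ := fun x hx =>
    comp_kap_supp (fun v hv => (et_supp hδ b hv).2) x hx
  have hec : HasCompactSupport e := hcs_of hes
  have hes2 : ContDiff ℝ 1 e := comp_kap (et_smooth δ b) (et_tsupp hδ b)
  have hfe : ∀ x, f x - e x * f x = f x * ph (δ⁻¹ • x.1) := by
    intro x
    by_cases hx : f x = 0
    · rw [hx]
      ring
    · have h1 : b (kap x) = 1 := by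
        refine b.one_of_mem_closedBall ?_
        rw [mem_closedBall_zero_iff, norm_kap]
        exact hR x hx
      rw [he]
      unfold et ph
      simp only
      rw [h1, kap_zeroD, norm_smul, Real.norm_of_nonneg (inv_nonneg.2 hδ.le)]
      ring
  obtain ⟨ha1, ha2⟩ := approx_small hf hes2 hρ0 hfc hec
  have hev : ∀ᶠ n in atTop, ∫ x, (e x * (f x - av ρ n f x)) ^ 2 < ε / 4 ∧
      ∀ i, ∫ x, (fderiv ℝ (fun x => e x * (f x - av ρ n f x)) x (dir i)) ^ 2 < ε / 4 := by
    refine (ha1.eventually (gt_mem_nhds (by positivity))).and ?_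
    rw [eventually_all]
    intro i
    exact (ha2 (dir i)).eventually (gt_mem_nhds (by positivity))
  obtain ⟨n, hn1, hn2⟩ := hev.exists
  obtain ⟨F, hF, hFe⟩ := av_pol n hf.continuous (ρ := ρ) fun x hx => (hR x hx).trans (by linarith)
  have hw : (fun x => e x * F x) ∈ GoodS k m :=
    good_of_pol hF (et_smooth δ b) (et_compact hδ b) (et_tsupp hδ b)
  have hwe : ∀ x, e x * F x = e x * av ρ n f x := by
    intro x
    by_cases hx : e x = 0
    · rw [hx, zero_mul, zero_mul]
    · rw [hFe x (hes x hx)]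
  obtain ⟨g, P, dg, G, h1, h2, h3, h4, h5⟩ := good_rep hw
  have h6 : (fun x : XX k m => ∑ j, G j (kap x) * pe (P j) x.1) = fun x => e x * av ρ n f x := by
    funext x
    rw [← h5, hwe]
  have havs : ContDiff ℝ 1 (av ρ n f) := av_smooth ρ n hf hfc
  have h7 : (fun x : XX k m => f x - ∑ j, G j (kap x) * pe (P j) x.1) =
      fun x => f x * ph (δ⁻¹ • x.1) + e x * (f x - av ρ n f x) := by
    funext x
    rw [← hfe x, congrFun h6 x]
    ring
  have hphs : ContDiff ℝ 1 (fun x : XX k m => f x * ph (δ⁻¹ • x.1)) :=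
    hf.mul (ph_smooth.comp (contDiff_fst.const_smul δ⁻¹))
  have hphc : HasCompactSupport (fun x : XX k m => f x * ph (δ⁻¹ • x.1)) := hfc.mul_right
  have hes3 : ContDiff ℝ 1 (fun x => e x * (f x - av ρ n f x)) := hes2.mul (hf.sub havs)
  have hes4 : HasCompactSupport (fun x => e x * (f x - av ρ n f x)) := hec.mul_right
  have hfd : ∀ i, ∫ x, (fderiv ℝ (fun x => f x - ∑ j, G j (kap x) * pe (P j) x.1) x
      (dir i)) ^ 2 < ε := by
    intro i
    rw [h7]
    have h8 : ∀ x, fderiv ℝ (fun x => f x * ph (δ⁻¹ • x.1) + e x * (f x - av ρ n f x)) x (dir i) =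
        fderiv ℝ (fun x => f x * ph (δ⁻¹ • x.1)) x (dir i) +
          fderiv ℝ (fun x => e x * (f x - av ρ n f x)) x (dir i) := by
      intro x
      rw [fderiv_fun_add (hphs.differentiable one_ne_zero).differentiableAt
        (hes3.differentiable one_ne_zero).differentiableAt]
      rfl
    simp only [h8]
    have h9 := sq_add_int (a := fun x => fderiv ℝ (fun x => f x * ph (δ⁻¹ • x.1)) x (dir i))
      (b := fun x => fderiv ℝ (fun x => e x * (f x - av ρ n f x)) x (dir i))
      (sq_int ((hphs.continuous_fderiv one_ne_zero).clm_apply continuous_const)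
        (hphc.fderiv_apply (𝕜 := ℝ) _))
      (sq_int ((hes3.continuous_fderiv one_ne_zero).clm_apply continuous_const)
        (hes4.fderiv_apply (𝕜 := ℝ) _))
    have h10 := (hK i δ hδ hδ1).2
    have h11 := mul_le_mul_of_nonneg_right (hKi i) hδ.le
    have h12 := hn2 i
    linarith
  refine ⟨g, P, dg, G, h1, h2, h3, h4, ?_, ?_, ?_, fun i => hfd (Sum.inl i),
    fun i => hfd (Sum.inr i)⟩
  · rw [h6]
    exact hes2.mul havs
  · rw [h6]
    exact hec.mul_right
  · have h8 : ∫ x, (f x - ∑ j, G j (kap x) * pe (P j) x.1) ^ 2 =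
        ∫ x, (f x * ph (δ⁻¹ • x.1) + e x * (f x - av ρ n f x)) ^ 2 :=
      integral_congr_ae (Eventually.of_forall fun x => by
        show (f x - ∑ j, G j (kap x) * pe (P j) x.1) ^ 2 = _
        rw [congrFun h7 x])
    rw [h8]
    have h9 := sq_add_int (a := fun x => f x * ph (δ⁻¹ • x.1))
      (b := fun x => e x * (f x - av ρ n f x)) (sq_int hphs.continuous hphc)
      (sq_int hes3.continuous hes4)
    have h10 := (hK0' δ hδ hδ1).1
    have h11 := mul_le_mul_of_nonneg_right hKK0 hδ.le
    linarith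

end Pool.Agent.K7.H4.LT
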