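import Pool.Agent.K7.H4.LT.Num

/-!
The number of spherical harmonics.
-/

set_option autoImplicit false

open MeasureTheory Set Filter Topology

namespace Pool.Agent.K7.H4.LT

open Pool.Agent.R117.RL

theorem prod_le (f : ℕ) : ∀ y : ℝ, 0 ≤ y →
    ∏ i ∈ Finset.range f, (y + (i : ℝ)) ≤ (y + ((f : ℝ) - 1) / 2) ^ f := by
  induction f using Nat.strong_induction_on with
  | _ f ih =>
    intro y hy
    rcases Nat.lt_or_ge f 2 with h | h
    · interval_cases f
      · simp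
      · simp
    · obtain ⟨n, rfl⟩ : ∃ n, f = n + 2 := ⟨f - 2, by omega⟩
      have h1 := ih n (by omega) (y + 1) (by linarith)
      rw [Finset.prod_range_succ, Finset.prod_range_succ']
      have e1 : ∏ i ∈ Finset.range n, (y + ((i + 1 : ℕ) : ℝ)) =
          ∏ i ∈ Finset.range n, (y + 1 + (i : ℝ)) := by
        refine Finset.prod_congr rfl fun i _ => ?_
        push_cast
        ring
      rw [e1]
      have hn : (0 : ℝ) ≤ n := Nat.cast_nonneg n
      have e2 : y + 1 + ((n : ℝ) - 1) / 2 = y + (n + 1) / 2 := by ring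
      rw [e2] at h1
      push_cast
      have e3 : y + ((n : ℝ) + 2 - 1) / 2 = y + (n + 1) / 2 := by ring
      rw [e3]
      have h2 : y * (y + (n + 1)) ≤ (y + (n + 1) / 2) ^ 2 := by nlinarith
      calc (∏ i ∈ Finset.range n, (y + 1 + (i : ℝ))) * (y + 0) * (y + (n + 1))
          = (∏ i ∈ Finset.range n, (y + 1 + (i : ℝ))) * (y * (y + (n + 1))) := by ring
        _ ≤ (y + (n + 1) / 2) ^ n * (y + (n + 1) / 2) ^ 2 :=
            mul_le_mul h1 h2 (by positivity) (by positivity)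
        _ = _ := by rw [← pow_add]

/-- **the number of spherical harmonics of degree `l`** -/
theorem dim_le {k l : ℕ} (hk : 1 ≤ k) (hl : 1 ≤ l) :
    (Module.finrank ℝ (HH (k + 1) l) : ℝ) ≤
      2 * ((l : ℝ) + ((k : ℝ) - 1) / 2) ^ (k - 1) / ((k - 1).factorial : ℝ) := by
  obtain ⟨e, rfl⟩ : ∃ e, k = e + 1 := ⟨k - 1, by omega⟩
  obtain ⟨j, rfl⟩ : ∃ j, l = j + 1 := ⟨l - 1, by omega⟩
  simp only [Nat.add_sub_cancel]
  have hf : (0 : ℝ) < (e.factorial : ℝ) := by exact_mod_cast e.factorial_pos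
  rw [le_div_iff₀ hf]
  have h1 := finrank_HH (e + 1) j
  have e1 : (e + 1 + (j + 1) - 1).choose (j + 1) = (j + 1 + e).choose e := by
    rw [show e + 1 + (j + 1) - 1 = j + 1 + e by omega]
    exact Nat.choose_symm_add
  have e2 : (e + 1 + j - 1).choose j = (j + e).choose e := by
    rw [show e + 1 + j - 1 = j + e by omega]
    exact Nat.choose_symm_add
  rw [e1, e2] at h1
  have h2 : Module.finrank ℝ (HH (e + 1 + 1) (j + 1)) * e.factorial ≤
      (j + 1 + 1).ascFactorial e + (j + 1).ascFactorial e := by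
    rw [Nat.ascFactorial_eq_factorial_mul_choose, Nat.ascFactorial_eq_factorial_mul_choose]
    calc _ ≤ ((j + 1 + e).choose e + (j + e).choose e) * e.factorial :=
          Nat.mul_le_mul_right _ h1
      _ = _ := by ring
  have h3 : (Module.finrank ℝ (HH (e + 1 + 1) (j + 1)) : ℝ) * (e.factorial : ℝ) ≤
      (((j + 1 + 1).ascFactorial e : ℕ) : ℝ) + (((j + 1).ascFactorial e : ℕ) : ℝ) := by
    exact_mod_cast h2
  refine h3.trans ?_
  rw [Nat.ascFactorial_eq_prod_range, Nat.ascFactorial_eq_prod_range]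
  push_cast
  have hj : (0 : ℝ) ≤ j := Nat.cast_nonneg j
  rcases Nat.eq_zero_or_pos e with h0 | h0
  · subst h0
    simp
    norm_num
  · obtain ⟨f, rfl⟩ : ∃ f, e = f + 1 := ⟨e - 1, by omega⟩
    rw [Finset.prod_range_succ, Finset.prod_range_succ']
    have e3 : ∏ i ∈ Finset.range f, ((j : ℝ) + 1 + ((i + 1 : ℕ) : ℝ)) =
        ∏ i ∈ Finset.range f, ((j : ℝ) + 2 + (i : ℝ)) := by
      refine Finset.prod_congr rfl fun i _ => ?_
      push_cast
      ring
    have e4 : ∏ i ∈ Finset.range f, ((j : ℝ) + 1 + 1 + (i : ℝ)) =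
        ∏ i ∈ Finset.range f, ((j : ℝ) + 2 + (i : ℝ)) := by
      refine Finset.prod_congr rfl fun i _ => ?_
      ring
    rw [e3, e4]
    have h4 := prod_le f ((j : ℝ) + 2) (by positivity)
    have hfn : (0 : ℝ) ≤ f := Nat.cast_nonneg f
    push_cast
    have e5 : (j : ℝ) + 1 + ((f : ℝ) + 1 + 1 - 1) / 2 = j + 2 + ((f : ℝ) - 1) / 2 := by ring
    rw [e5]
    set x : ℝ := j + 2 + ((f : ℝ) - 1) / 2 with hx
    have hx0 : 0 ≤ x := by
      rw [hx]
      linarith
    set Q := ∏ i ∈ Finset.range f, ((j : ℝ) + 2 + (i : ℝ)) with hQ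
    calc Q * ((j : ℝ) + 1 + 1 + f) + Q * (j + 1 + 0) = Q * (2 * x) := by
          rw [hx]
          ring
      _ ≤ x ^ f * (2 * x) := mul_le_mul_of_nonneg_right h4 (by linarith)
      _ = _ := by ring

theorem pow_diff (n : ℕ) {x : ℝ} (hx : 1 / 2 ≤ x) :
    ((n : ℝ) + 1) * x ^ n ≤ (x + 1 / 2) ^ (n + 1) - (x - 1 / 2) ^ (n + 1) := by
  induction n with
  | zero =>
    simp
    linarith
  | succ n ih =>
    have h1 := add_pow_le (a := x + 1 / 2) (b := x - 1 / 2) (by linarith) (by linarith) (n + 1)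
    have e1 : x + 1 / 2 + (x - 1 / 2) = 2 * x := by ring
    rw [e1, mul_pow, Nat.add_sub_cancel, pow_succ (2 : ℝ) n] at h1
    have h2 : 2 * x ^ (n + 1) ≤ (x + 1 / 2) ^ (n + 1) + (x - 1 / 2) ^ (n + 1) := by
      have h3 : (2 : ℝ) ^ n * (2 * x ^ (n + 1)) ≤
          2 ^ n * ((x + 1 / 2) ^ (n + 1) + (x - 1 / 2) ^ (n + 1)) := by linarith
      exact le_of_mul_le_mul_left h3 (by positivity)
    have h4 := mul_le_mul_of_nonneg_left ih (by linarith : 0 ≤ x)
    rw [pow_succ (x + 1 / 2) (n + 1), pow_succ (x - 1 / 2) (n + 1)]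
    push_cast
    have e2 : x * (((n : ℝ) + 1) * x ^ n) = (n + 1) * x ^ (n + 1) := by ring
    rw [e2] at h4
    nlinarith

/-- the number of spherical harmonics with degrees in a window -/
theorem dim_sum {k l : ℕ} (hk : 1 ≤ k) (hl : 1 ≤ l) (n : ℕ) :
    ∑ j ∈ Finset.range n, (Module.finrank ℝ (HH (k + 1) (l + j)) : ℝ) ≤
      2 * (((l : ℝ) + n - 1 + (k : ℝ) / 2) ^ k - ((l : ℝ) - 1 + (k : ℝ) / 2) ^ k) /
        (k.factorial : ℝ) := by
  have hk' : (1 : ℝ) ≤ k := by exact_mod_cast hk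
  have hl' : (1 : ℝ) ≤ l := by exact_mod_cast hl
  have hf : (0 : ℝ) < (k.factorial : ℝ) := by exact_mod_cast k.factorial_pos
  induction n with
  | zero => simp
  | succ n ih =>
    rw [Finset.sum_range_succ]
    have h1 := dim_le hk (show 1 ≤ l + n by omega)
    have h2 : 2 * (((l + n : ℕ) : ℝ) + ((k : ℝ) - 1) / 2) ^ (k - 1) / ((k - 1).factorial : ℝ) ≤
        2 * (((l : ℝ) + n + (k : ℝ) / 2) ^ k - ((l : ℝ) + n - 1 + (k : ℝ) / 2) ^ k) /
          (k.factorial : ℝ) := by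
      obtain ⟨e, rfl⟩ : ∃ e, k = e + 1 := ⟨k - 1, by omega⟩
      simp only [Nat.add_sub_cancel]
      have hn : (0 : ℝ) ≤ n := Nat.cast_nonneg n
      have he : (0 : ℝ) ≤ e := Nat.cast_nonneg e
      have hfe : (0 : ℝ) < (e.factorial : ℝ) := by exact_mod_cast e.factorial_pos
      have h3 := pow_diff e (x := (l : ℝ) + n + e / 2) (by linarith)
      rw [Nat.factorial_succ]
      push_cast
      have e1 : (l : ℝ) + n + ((e : ℝ) + 1 - 1) / 2 = l + n + e / 2 := by ring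
      have e2 : (l : ℝ) + n + ((e : ℝ) + 1) / 2 = l + n + e / 2 + 1 / 2 := by ring
      have e3 : (l : ℝ) + n - 1 + ((e : ℝ) + 1) / 2 = l + n + e / 2 - 1 / 2 := by ring
      rw [e1, e2, e3, div_le_div_iff₀ hfe (by positivity)]
      have h4 := mul_le_mul_of_nonneg_left h3 (by positivity : 0 ≤ 2 * (e.factorial : ℝ))
      linarith
    have e4 : (l : ℝ) + ((n + 1 : ℕ) : ℝ) - 1 + (k : ℝ) / 2 = l + n + k / 2 := by
      push_cast
      ring
    rw [e4]
    calc _ ≤ 2 * (((l : ℝ) + n - 1 + (k : ℝ) / 2) ^ k - ((l : ℝ) - 1 + (k : ℝ) / 2) ^ k) /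
          (k.factorial : ℝ) + 2 * (((l : ℝ) + n + (k : ℝ) / 2) ^ k -
            ((l : ℝ) + n - 1 + (k : ℝ) / 2) ^ k) / (k.factorial : ℝ) := add_le_add ih (h1.trans h2)
      _ = _ := by ring

/-- windows of angular momenta in the plane: the semiclassical constant -/
theorem window_one {a b : ℝ} (ha : 0 < a) (hab : a < b) (h : b ≤ 5 / 2 * a) :
    Kcl 2 ≤ CL 1 (a * (a + 1)) (sg 2 / (2 * (b - a))) := by
  have hπ : 3 < Real.pi := Real.pi_gt_three
  have hd : 0 < b - a := by linarith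
  refine crit (k := 1) le_rfl (by positivity) (by positivity) ?_
  rw [show (1 : ℕ) + 1 = 2 from rfl, Ga_two]
  push_cast
  have h1 : (b - a) ^ 2 ≤ (3 / 2 * a) ^ 2 := pow_le_pow_left₀ hd.le (by linarith) 2
  have h2 : 9 * (a * (a + 1)) ≤ Real.pi ^ 2 * (a * (a + 1)) :=
    mul_le_mul_of_nonneg_right (by nlinarith) (by positivity)
  nlinarith

/-- **windows of angular momenta**: the semiclassical constant -/
theorem window {k : ℕ} (hk : 1 ≤ k) {a b : ℝ} (ha : 0 < a) (hab : a < b)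
    (h : b ^ k ≤ 5 / 2 * a ^ k) :
    Kcl (k + 1) ≤ CL k (a * (a + 1)) (sg (k + 1) / (2 * (b ^ k - a ^ k) / (k.factorial : ℝ))) := by
  rcases Nat.lt_or_ge k 2 with hk1 | hk2
  · obtain rfl : k = 1 := by omega
    simp only [pow_one, Nat.factorial_one, Nat.cast_one, div_one] at h ⊢
    exact window_one ha hab h
  have hk' : (2 : ℝ) ≤ k := by exact_mod_cast hk2
  have hπ := Real.pi_pos
  have hf : (0 : ℝ) < (k.factorial : ℝ) := by exact_mod_cast k.factorial_pos
  have hd : 0 < b ^ k - a ^ k := by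
    have := pow_lt_pow_left₀ hab ha.le (by omega : k ≠ 0)
    linarith
  have hd2 : b ^ k - a ^ k ≤ 3 / 2 * a ^ k := by linarith
  refine crit hk (by positivity) (by positivity) ?_
  have h1 := Ga_four_le k
  rw [Nat.factorial_succ] at h1
  push_cast at h1
  -- the elementary inequality
  have h2 : 8 * (3 / 2) ^ 2 * (k : ℝ) ^ k * (k + 2) ≤ Real.pi * (k + 3) ^ (k + 1) := by
    have hπ2 : 3.14 < Real.pi := Real.pi_gt_d2
    have hb := bern (x := 3 / (k : ℝ)) (by positivity) k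
    have e1 : 1 + (k : ℝ) * (3 / k) + k * (k - 1) * (3 / k) ^ 2 / 2 = (17 * k - 9) / (2 * k) := by
      field_simp
      ring
    have e2 : 1 + 3 / (k : ℝ) = (k + 3) / k := by
      field_simp
    rw [e1, e2, div_pow, le_div_iff₀ (by positivity)] at hb
    have h3 : 8 * (3 / 2) ^ 2 * ((k : ℝ) + 2) ≤ 3.14 * ((17 * k - 9) / (2 * k)) * (k + 3) := by
      have e3 : 3.14 * ((17 * (k : ℝ) - 9) / (2 * k)) * (k + 3) - 8 * (3 / 2) ^ 2 * ((k : ℝ) + 2) =
          (3.14 * (17 * k - 9) * (k + 3) - 8 * (3 / 2) ^ 2 * (k + 2) * (2 * k)) / (2 * k) := by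
        field_simp
      have h4 : 0 ≤ (3.14 * (17 * (k : ℝ) - 9) * (k + 3) -
          8 * (3 / 2) ^ 2 * (k + 2) * (2 * k)) / (2 * k) := by
        apply div_nonneg _ (by positivity)
        nlinarith
      linarith
    calc 8 * (3 / 2) ^ 2 * (k : ℝ) ^ k * (k + 2)
        = (8 * (3 / 2) ^ 2 * ((k : ℝ) + 2)) * k ^ k := by ring
      _ ≤ (3.14 * ((17 * (k : ℝ) - 9) / (2 * k)) * (k + 3)) * (k : ℝ) ^ k :=
          mul_le_mul_of_nonneg_right h3 (by positivity)
      _ = 3.14 * ((17 * (k : ℝ) - 9) / (2 * k) * (k : ℝ) ^ k) * (k + 3) := by ring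
      _ ≤ 3.14 * ((k : ℝ) + 3) ^ k * (k + 3) := by
          apply mul_le_mul_of_nonneg_right _ (by positivity)
          exact mul_le_mul_of_nonneg_left hb (by norm_num)
      _ ≤ Real.pi * ((k : ℝ) + 3) ^ k * (k + 3) := by
          apply mul_le_mul_of_nonneg_right _ (by positivity)
          exact mul_le_mul_of_nonneg_right hπ2.le (by positivity)
      _ = _ := by ring
  have h5 : Ga (k + 1) ^ 4 * (2 * (b ^ k - a ^ k) / (k.factorial : ℝ)) ^ 2 ≤
      2 * Real.pi * (k + 2) * (k + 1) ^ 2 * (3 / 2 * a ^ k) ^ 2 / 4 ^ (k + 1) := by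
    rw [le_div_iff₀ (by positivity)]
    calc Ga (k + 1) ^ 4 * (2 * (b ^ k - a ^ k) / (k.factorial : ℝ)) ^ 2 * 4 ^ (k + 1)
        = (Ga (k + 1) ^ 4 * 4 ^ (k + 1) * 2) * (2 * (b ^ k - a ^ k) ^ 2 / (k.factorial : ℝ) ^ 2) := by
          rw [div_pow, mul_pow]
          ring
      _ ≤ (Real.pi * (k + 2) * ((k + 1) * (k.factorial : ℝ)) ^ 2) *
          (2 * (3 / 2 * a ^ k) ^ 2 / (k.factorial : ℝ) ^ 2) := by
          apply mul_le_mul h1 _ (by positivity) (by positivity)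
          apply div_le_div_of_nonneg_right _ (by positivity)
          apply mul_le_mul_of_nonneg_left _ (by norm_num)
          exact pow_le_pow_left₀ hd.le hd2 2
      _ = _ := by
          field_simp
  refine h5.trans ?_
  have h6 : a ^ k * a ^ k ≤ (a * (a + 1)) ^ k := by
    rw [← mul_pow]
    exact pow_le_pow_left₀ (by positivity) (by nlinarith) k
  have e5 : (((k : ℝ) + 3) / 4) ^ (k + 1) * (Real.pi ^ 2 / 4) * (a * (a + 1) / k) ^ k *
      ((k : ℝ) + 1) ^ 2 = Real.pi * ((k : ℝ) + 1) ^ 2 / 4 / 4 ^ (k + 1) *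
        (Real.pi * (k + 3) ^ (k + 1) * ((a * (a + 1)) ^ k / k ^ k)) := by
    rw [div_pow, div_pow]
    ring
  have e6 : 2 * Real.pi * (k + 2) * (k + 1) ^ 2 * (3 / 2 * a ^ k) ^ 2 / 4 ^ (k + 1) =
      Real.pi * ((k : ℝ) + 1) ^ 2 / 4 / 4 ^ (k + 1) *
        (8 * (3 / 2) ^ 2 * k ^ k * (k + 2) * (a ^ k * a ^ k / k ^ k)) := by
    field_simp
    ring
  rw [e5, e6]
  apply mul_le_mul_of_nonneg_left _ (by positivity)
  apply mul_le_mul h2 _ (by positivity) (by positivity)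
  exact div_le_div_of_nonneg_right h6 (by positivity)

end Pool.Agent.K7.H4.LT
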