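import Pool.Agent.K7.H4.LT.Family
import Pool.Agent.K7.H4.LT.AngMain
import Pool.Agent.K7.H4.LT.Num2

/-!
The kinetic inequality for orthonormal systems with angular momenta in a window.
-/

set_option autoImplicit false

open MeasureTheory Set Filter Topology Metric MvPolynomial
open scoped ENNReal InnerProductSpace

namespace Pool.Agent.K7.H4.LT

open Pool.Agent.R117.RL

/-- functions with angular momenta `l, …, l + n - 1` in the first variable -/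
def Mom {k m : ℕ} (l n : ℕ) (u : E (k + 1) × (Fin m → ℝ) → ℂ) : Prop :=
  ∃ (g : ℕ) (P : Fin g → MvPolynomial (Fin (k + 1)) ℝ) (dg : Fin g → ℕ) (G : Fin g → V m → ℂ),
    (∀ j, dg j < n ∧ P j ∈ HH (k + 1) (l + dg j)) ∧ (∀ j, ContDiffOn ℝ 1 (G j) (HS m)) ∧
    ∀ x, x.1 ≠ 0 → u x = ∑ j, G j (kap x) * (pe (P j) x.1 : ℂ)

/-- orthonormal systems with angular momenta `l, …, l + n - 1` -/
structure MomSys {k m N : ℕ} (l n : ℕ) (u : Fin N → E (k + 1) × (Fin m → ℝ) → ℂ) : Prop where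
  form : ∀ i, Mom l n (u i)
  square : ∀ n, Integrable (fun x => ‖u n x‖ ^ 2)
  energy : ∀ n, Integrable (gr2 (u n))
  orthonormal : ∀ n n', ∫ x, star (u n x) * u n' x = if n = n' then (1 : ℂ) else 0

theorem kap_zero {d m : ℕ} (x : E d × (Fin m → ℝ)) : kap x 0 = ‖x.1‖ := by
  unfold kap
  rw [Fin.cons_zero]

theorem mom_form {k m l n g : ℕ} {P : Fin g → MvPolynomial (Fin (k + 1)) ℝ} {dg : Fin g → ℕ}
    (hs : ∀ j < n, ∀ p ∈ HH (k + 1) (l + j), p = ∑ a, ip (P a) p • P a)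
    {u : E (k + 1) × (Fin m → ℝ) → ℂ} (hu : Mom l n u) :
    ∃ G : Fin g → V m → ℂ, (∀ j, ContDiffOn ℝ 1 (G j) (HS m)) ∧
      ∀ x, x.1 ≠ 0 → u x = ∑ j, G j (kap x) * (yy (P j) (dg j) x.1 : ℂ) := by
  obtain ⟨g', P', dg', G', h1, h2, h3⟩ := hu
  refine ⟨fun a v => ∑ j, G' j v * ((ip (P a) (P' j) : ℝ) : ℂ) * (((v 0) ^ dg a : ℝ) : ℂ), ?_, ?_⟩
  · intro a
    refine ContDiffOn.sum fun j _ => ?_
    refine ((h2 j).mul contDiffOn_const).mul ?_
    have h4 : ContDiff ℝ 1 (fun v : V m => v 0 ^ dg a) := (contDiff_apply ℝ ℝ 0).pow (dg a)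
    exact (Complex.ofRealCLM.contDiff.comp h4).contDiffOn
  · intro x hx
    rw [h3 x hx]
    have hn : ‖x.1‖ ≠ 0 := norm_ne_zero_iff.2 hx
    have h5 : ∀ a, pe (P a) x.1 = ‖x.1‖ ^ dg a * yy (P a) (dg a) x.1 := by
      intro a
      unfold yy
      field_simp
    have h6 : ∀ j, pe (P' j) x.1 = ∑ a, ip (P a) (P' j) * (‖x.1‖ ^ dg a * yy (P a) (dg a) x.1) := by
      intro j
      have h7 := hs (dg' j) (h1 j).1 (P' j) (h1 j).2
      conv_lhs => rw [h7, pe_sum]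
      refine Finset.sum_congr rfl fun a _ => ?_
      rw [pe_smul, h5]
    have h8 : ∀ j, G' j (kap x) * (pe (P' j) x.1 : ℂ) = ∑ a, G' j (kap x) *
        ((ip (P a) (P' j) : ℝ) : ℂ) * (((kap x 0) ^ dg a : ℝ) : ℂ) * (yy (P a) (dg a) x.1 : ℂ) := by
      intro j
      rw [h6 j, kap_zero]
      push_cast
      rw [Finset.mul_sum]
      refine Finset.sum_congr rfl fun a _ => ?_
      ring
    rw [Finset.sum_congr rfl fun j _ => h8 j, Finset.sum_comm]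
    refine Finset.sum_congr rfl fun a _ => ?_
    rw [Finset.sum_mul]

/-- **the general inequality for a window of angular momenta** -/
theorem driver {k m l n N : ℕ} (hk : 1 ≤ k) {lam D : ℝ} (hD : 0 < D)
    (hg : ∑ j ∈ Finset.range n, (Module.finrank ℝ (HH (k + 1) (l + j)) : ℝ) ≤ D)
    (hlam : lam = 0 ∨ (1 ≤ l ∧ lam = l * (l + k - 1)))
    (hc : 0 < ((k : ℝ) / 2) ^ 2 - (k : ℝ) / 2 + lam)
    {u : Fin N → E (k + 1) × (Fin m → ℝ) → ℂ} (hu : MomSys l n u) :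
    Integrable (fun x => (∑ n, ‖u n x‖ ^ 2) ^ (1 + 2 / ((k + m + 1 : ℕ) : ℝ))) ∧
    CL3 k m (((k : ℝ) / 2) ^ 2 - (k : ℝ) / 2 + lam) (sg (k + 1) / D) *
      ∫ x, (∑ n, ‖u n x‖ ^ 2) ^ (1 + 2 / ((k + m + 1 : ℕ) : ℝ)) ≤ ∑ n, ∫ x, gr2 (u n) x := by
  obtain ⟨g, P, dg, h1, h2, h3, h4, h5, h6⟩ := family hk l n
  have hσ := sg_pos (Nat.succ_pos k)
  have hk' : (1 : ℝ) ≤ k := by exact_mod_cast hk
  have hB : 0 < D / sg (k + 1) := by positivity
  have hgD : (g : ℝ) ≤ D := by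
    rw [h5]
    push_cast
    exact hg
  have hl0 : 0 ≤ lam := by
    rcases hlam with h | ⟨h, h'⟩
    · exact h.ge
    · have : (1 : ℝ) ≤ l := by exact_mod_cast h
      rw [h']
      apply mul_nonneg <;> linarith
  have hang : Ang k lam (D / sg (k + 1)) (fun j => yy (P j) (dg j)) := by
    refine ang_of_harm (fun j => (h1 j).1) (fun j => (h1 j).2) ?_ h3 ?_ ?_
    · rcases hlam with h | ⟨h, _⟩
      · exact Or.inl h
      · exact Or.inr fun j => h.trans (h2 j)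
    · intro ω
      rw [le_div_iff₀ hσ, h4 ω]
      exact hgD
    · intro j
      rcases hlam with h | ⟨h, h'⟩
      · rw [h]
        rcases Nat.eq_zero_or_pos (dg j) with h7 | h7
        · rw [h7]
          simp
        · have : (1 : ℝ) ≤ dg j := by exact_mod_cast h7
          apply mul_nonneg <;> linarith
      · rw [h']
        have h8 : (l : ℝ) ≤ dg j := by exact_mod_cast h2 j
        have h9 : (1 : ℝ) ≤ l := by exact_mod_cast h
        apply mul_le_mul h8 (by linarith) (by linarith) (by linarith)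
  have hsys : AngSys (fun j => yy (P j) (dg j)) u := by
    refine ⟨?_, hu.square, hu.energy, hu.orthonormal⟩
    choose G hG using fun i => mom_form (dg := dg) h6 (hu.form i)
    exact ⟨G, fun n j => (hG n).1 j, fun n => (hG n).2⟩
  have h7 := ang_ineq hk hl0 hc hB hang hsys
  have e : 1 / (D / sg (k + 1)) = sg (k + 1) / D := by
    rw [one_div, inv_div]
  rw [e] at h7
  exact h7

/-- the semiclassical constant for a window of angular momenta -/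
theorem driver_cl {k m l n N : ℕ} (hk : 1 ≤ k) {lam D : ℝ} (hD : 0 < D)
    (hg : ∑ j ∈ Finset.range n, (Module.finrank ℝ (HH (k + 1) (l + j)) : ℝ) ≤ D)
    (hlam : lam = 0 ∨ (1 ≤ l ∧ lam = l * (l + k - 1)))
    (hc : 0 < ((k : ℝ) / 2) ^ 2 - (k : ℝ) / 2 + lam)
    (hK : Kcl (k + 1) ≤ CL k (((k : ℝ) / 2) ^ 2 - (k : ℝ) / 2 + lam) (sg (k + 1) / D))
    {u : Fin N → E (k + 1) × (Fin m → ℝ) → ℂ} (hu : MomSys l n u) :
    Integrable (fun x => (∑ n, ‖u n x‖ ^ 2) ^ (1 + 2 / ((k + m + 1 : ℕ) : ℝ))) ∧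
    Kcl (k + m + 1) * ∫ x, (∑ n, ‖u n x‖ ^ 2) ^ (1 + 2 / ((k + m + 1 : ℕ) : ℝ)) ≤
      ∑ n, ∫ x, gr2 (u n) x := by
  have hσ := sg_pos (Nat.succ_pos k)
  obtain ⟨h1, h2⟩ := driver hk hD hg hlam hc hu
  refine ⟨h1, le_trans (mul_le_mul_of_nonneg_right ?_ ?_) h2⟩
  · exact Kcl_le_CL3 hk m hc (by positivity) hK
  · exact integral_nonneg fun x => Real.rpow_nonneg (Finset.sum_nonneg fun n _ => sq_nonneg _) _

/-- one angular momentum `l ≥ 1` -/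
theorem driver_single {k m l N : ℕ} (hk : 1 ≤ k) (hl : 1 ≤ l)
    {u : Fin N → E (k + 1) × (Fin m → ℝ) → ℂ} (hu : MomSys l 1 u) :
    Integrable (fun x => (∑ n, ‖u n x‖ ^ 2) ^ (1 + 2 / ((k + m + 1 : ℕ) : ℝ))) ∧
    Kcl (k + m + 1) * ∫ x, (∑ n, ‖u n x‖ ^ 2) ^ (1 + 2 / ((k + m + 1 : ℕ) : ℝ)) ≤
      ∑ n, ∫ x, gr2 (u n) x := by
  have hk' : (1 : ℝ) ≤ k := by exact_mod_cast hk
  have hl' : (1 : ℝ) ≤ l := by exact_mod_cast hl
  have hf : (0 : ℝ) < ((k - 1).factorial : ℝ) := by exact_mod_cast (k - 1).factorial_pos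
  have hx : ((k : ℝ) + 1) / 2 ≤ (l : ℝ) + ((k : ℝ) - 1) / 2 := by linarith
  have hx0 : 0 < (l : ℝ) + ((k : ℝ) - 1) / 2 := by linarith
  have hce : ((k : ℝ) / 2) ^ 2 - (k : ℝ) / 2 + (l : ℝ) * (l + k - 1) =
      ((l : ℝ) + ((k : ℝ) - 1) / 2) ^ 2 - 1 / 4 := by ring
  have hc : 0 < ((k : ℝ) / 2) ^ 2 - (k : ℝ) / 2 + (l : ℝ) * (l + k - 1) := by
    rw [hce]
    nlinarith
  refine driver_cl hk (lam := (l : ℝ) * (l + k - 1))
    (D := 2 * ((l : ℝ) + ((k : ℝ) - 1) / 2) ^ (k - 1) / ((k - 1).factorial : ℝ))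
    (by positivity) ?_ (Or.inr ⟨hl, rfl⟩) hc ?_ hu
  · rw [Finset.sum_range_one, Nat.add_zero]
    exact dim_le hk hl
  · rw [hce]
    exact single hk hx

/-- windows of angular momenta -/
theorem driver_window {k m l n N : ℕ} (hk : 1 ≤ k) (hl : 1 ≤ l) (hn : 1 ≤ n)
    (hw : ((l : ℝ) + n - 1 + (k : ℝ) / 2) ^ k ≤ 5 / 2 * ((l : ℝ) - 1 + (k : ℝ) / 2) ^ k)
    {u : Fin N → E (k + 1) × (Fin m → ℝ) → ℂ} (hu : MomSys l n u) :
    Integrable (fun x => (∑ n, ‖u n x‖ ^ 2) ^ (1 + 2 / ((k + m + 1 : ℕ) : ℝ))) ∧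
    Kcl (k + m + 1) * ∫ x, (∑ n, ‖u n x‖ ^ 2) ^ (1 + 2 / ((k + m + 1 : ℕ) : ℝ)) ≤
      ∑ n, ∫ x, gr2 (u n) x := by
  have hk' : (1 : ℝ) ≤ k := by exact_mod_cast hk
  have hl' : (1 : ℝ) ≤ l := by exact_mod_cast hl
  have hn' : (1 : ℝ) ≤ n := by exact_mod_cast hn
  have hf : (0 : ℝ) < (k.factorial : ℝ) := by exact_mod_cast k.factorial_pos
  have ha : 0 < (l : ℝ) - 1 + (k : ℝ) / 2 := by linarith
  have hab : (l : ℝ) - 1 + (k : ℝ) / 2 < (l : ℝ) + n - 1 + (k : ℝ) / 2 := by linarith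
  have hd := pow_lt_pow_left₀ hab ha.le (by omega : k ≠ 0)
  have hd2 : 0 < ((l : ℝ) + n - 1 + (k : ℝ) / 2) ^ k - ((l : ℝ) - 1 + (k : ℝ) / 2) ^ k := by
    linarith
  have hce : ((k : ℝ) / 2) ^ 2 - (k : ℝ) / 2 + (l : ℝ) * (l + k - 1) =
      ((l : ℝ) - 1 + (k : ℝ) / 2) * (((l : ℝ) - 1 + (k : ℝ) / 2) + 1) := by ring
  have hc : 0 < ((k : ℝ) / 2) ^ 2 - (k : ℝ) / 2 + (l : ℝ) * (l + k - 1) := by
    rw [hce]
    positivity
  refine driver_cl hk (lam := (l : ℝ) * (l + k - 1))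
    (D := 2 * (((l : ℝ) + n - 1 + (k : ℝ) / 2) ^ k - ((l : ℝ) - 1 + (k : ℝ) / 2) ^ k) /
        (k.factorial : ℝ)) (by positivity) (dim_sum hk hl n) (Or.inr ⟨hl, rfl⟩) hc ?_ hu
  rw [hce]
  exact window hk ha hab hw

theorem finrank_zero (k : ℕ) : Module.finrank ℝ (HH (k + 1) 0) ≤ 1 := by
  let Φ : HH (k + 1) 0 →ₗ[ℝ] ℝ :=
    { toFun := fun p => coeff 0 p.1
      map_add' := fun p q => by simp
      map_smul' := fun a p => by simp }
  have hinj : Function.Injective Φ := by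
    rw [← LinearMap.ker_eq_bot, LinearMap.ker_eq_bot']
    intro p hp
    have h1 : coeff 0 p.1 = 0 := hp
    refine Subtype.ext ?_
    ext b
    by_cases hb : b = 0
    · rw [hb, h1]
      simp
    · have h2 : b.degree ≠ 0 := by
        intro h3
        exact hb ((Finsupp.degree_eq_zero_iff b).1 h3)
      rw [p.2.1.coeff_eq_zero h2]
      simp
  have h3 := LinearMap.finrank_le_finrank_of_injective hinj
  rwa [Module.finrank_self] at h3

/-- angular momentum zero in dimension at least six -/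
theorem driver_zero {k m N : ℕ} (hk : 5 ≤ k) {u : Fin N → E (k + 1) × (Fin m → ℝ) → ℂ}
    (hu : MomSys 0 1 u) :
    Integrable (fun x => (∑ n, ‖u n x‖ ^ 2) ^ (1 + 2 / ((k + m + 1 : ℕ) : ℝ))) ∧
    Kcl (k + m + 1) * ∫ x, (∑ n, ‖u n x‖ ^ 2) ^ (1 + 2 / ((k + m + 1 : ℕ) : ℝ)) ≤
      ∑ n, ∫ x, gr2 (u n) x := by
  have hk' : (5 : ℝ) ≤ k := by exact_mod_cast hk
  refine driver_cl (by omega) (lam := 0) (D := 1) one_pos ?_ (Or.inl rfl) ?_ ?_ hu
  · rw [Finset.sum_range_one]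
    exact_mod_cast finrank_zero k
  · nlinarith
  · rw [add_zero, div_one, CC_eq (by omega)]
    exact Kcl_le (by omega)

end Pool.Agent.K7.H4.LT
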