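import Pool.Agent.K7.H4.LT.Basis

/-!
An orthonormal basis of the harmonic polynomials with degrees in a window.
-/

set_option autoImplicit false

open MeasureTheory Set Filter Topology Metric MvPolynomial
open scoped ENNReal InnerProductSpace

namespace Pool.Agent.K7.H4.LT

open Pool.Agent.R117.RL (E sg)

section

variable {k : ℕ}

/-- harmonic polynomials of different degrees are orthogonal -/
theorem ip_diff (hk : 1 ≤ k) {l l' : ℕ} {p q : MvPolynomial (Fin (k + 1)) ℝ}
    (hp : p ∈ HH (k + 1) l) (hq : q ∈ HH (k + 1) l') (hl : l ≠ l') : ip p q = 0 := by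
  set r : Fin (k + 1) → MvPolynomial (Fin (k + 1)) ℝ :=
    fun i => p * pderiv i q - q * pderiv i p with hr
  have h1 : ∑ i, pderiv i (r i) = 0 := by
    have h2 : ∀ i, pderiv i (r i) = p * pderiv i (pderiv i q) - q * pderiv i (pderiv i p) := by
      intro i
      simp only [hr]
      rw [map_sub, pderiv_mul, pderiv_mul]
      ring
    rw [Finset.sum_congr rfl fun i _ => h2 i, Finset.sum_sub_distrib, ← Finset.mul_sum,
      ← Finset.mul_sum]
    have h3 : ∑ i, pderiv i (pderiv i q) = 0 := hq.2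
    have h4 : ∑ i, pderiv i (pderiv i p) = 0 := hp.2
    rw [h3, h4, mul_zero, mul_zero, sub_zero]
  have hw : Continuous (wt (d := k + 1)) := chi_cont.comp (continuous_norm.pow 2)
  have hw' : Continuous (fun x : E (k + 1) => chi' (‖x‖ ^ 2)) :=
    chi'_cont.comp (continuous_norm.pow 2)
  have hi1 : ∀ i : Fin (k + 1), Integrable (fun x : E (k + 1) => wt x * pe (pderiv i (r i)) x) := by
    intro i
    refine wt_supp (hw.mul (pe_cont _)) fun x hx => ?_
    unfold wt
    rw [chi_zero (one_lt_sq hx).le, zero_mul]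
  have hi2 : ∀ i : Fin (k + 1), Integrable (fun x : E (k + 1) => 2 * chi' (‖x‖ ^ 2) *
      (x i * pe (r i) x)) := by
    intro i
    have hxi : Continuous (fun x : E (k + 1) => x i) :=
      (EuclideanSpace.proj i : E (k + 1) →L[ℝ] ℝ).continuous
    refine wt_supp ((continuous_const.mul hw').mul (hxi.mul (pe_cont _))) fun x hx => ?_
    rw [chi'_zero (one_lt_sq hx)]
    ring
  have h2 : ∑ i : Fin (k + 1), ∫ x : E (k + 1), wt x * pe (pderiv i (r i)) x = 0 := by
    rw [← integral_finsetSum _ fun i _ => hi1 i]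
    have e : ∀ x : E (k + 1), ∑ i, wt x * pe (pderiv i (r i)) x = 0 := by
      intro x
      rw [← Finset.mul_sum, ← pe_sum, h1, pe_zero, mul_zero]
    simp only [e, integral_zero]
  simp only [parts] at h2
  rw [Finset.sum_neg_distrib, ← integral_finsetSum _ fun i _ => hi2 i, neg_eq_zero] at h2
  have e1 : ∀ x : E (k + 1), ∑ i, 2 * chi' (‖x‖ ^ 2) * (x i * pe (r i) x) =
      ((l' : ℝ) - l) * (2 * chi' (‖x‖ ^ 2) * pe (p * q) x) := by
    intro x
    have e2 := euler hp.1 x
    have e3 := euler hq.1 x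
    have e4 : ∀ i, 2 * chi' (‖x‖ ^ 2) * (x i * pe (r i) x) =
        2 * chi' (‖x‖ ^ 2) * pe p x * (x i * pe (pderiv i q) x) -
          2 * chi' (‖x‖ ^ 2) * pe q x * (x i * pe (pderiv i p) x) := by
      intro i
      have e5 : pe (r i) x = pe p x * pe (pderiv i q) x - pe q x * pe (pderiv i p) x := by
        have e6 : r i = p * pderiv i q + (-1 : ℝ) • (q * pderiv i p) := by
          rw [neg_one_smul, ← sub_eq_add_neg]
        rw [e6, pe_add, pe_smul, pe_mul, pe_mul]
        ring
      rw [e5]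
      ring
    rw [Finset.sum_congr rfl fun i _ => e4 i, Finset.sum_sub_distrib, ← Finset.mul_sum,
      ← Finset.mul_sum, e2, e3, pe_mul]
    ring
  simp only [e1] at h2
  have hchi' : Continuous (fun r : ℝ => 2 * chi' (r ^ 2)) :=
    continuous_const.mul (chi'_cont.comp (continuous_id.pow 2))
  have h3 := polar_pe (hp.1.mul hq.1) hchi'
  obtain ⟨a, ha⟩ : ∃ a, k + (l + l') = a + 2 := ⟨k + (l + l') - 2, by omega⟩
  have e3 : ∫ r in Ioi (0 : ℝ), r ^ k * (2 * chi' (r ^ 2) * r ^ (l + l')) =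
      ∫ r in Ioi (0 : ℝ), 2 * chi' (r ^ 2) * r ^ (a + 2) := by
    refine setIntegral_congr_fun measurableSet_Ioi fun r _ => ?_
    show r ^ k * (2 * chi' (r ^ 2) * r ^ (l + l')) = 2 * chi' (r ^ 2) * r ^ (a + 2)
    rw [← ha, pow_add r k]
    ring
  obtain ⟨h4, h5⟩ := one_dim a
  rw [integral_const_mul, h3, e3, h4] at h2
  have h6 : ((l' : ℝ) - l) ≠ 0 := by
    rw [sub_ne_zero]
    exact_mod_cast (Ne.symm hl)
  have h7 : -(((a : ℝ) + 1) * ∫ r in Ioi (0 : ℝ), chi (r ^ 2) * r ^ a) ≠ 0 := by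
    have : 0 < ((a : ℝ) + 1) * ∫ r in Ioi (0 : ℝ), chi (r ^ 2) * r ^ a := by positivity
    linarith
  have h8 := (mul_eq_zero.1 ((mul_eq_zero.1 h2).resolve_left h6)).resolve_right h7
  unfold ip
  simp only [pe_mul] at h8
  exact h8

/-- **an orthonormal basis of the harmonic polynomials with degrees `l, …, l + n - 1`** -/
theorem family (hk : 1 ≤ k) (l n : ℕ) : ∃ (g : ℕ) (P : Fin g → MvPolynomial (Fin (k + 1)) ℝ)
    (dg : Fin g → ℕ), (∀ a, P a ∈ HH (k + 1) (dg a)) ∧ (∀ a, l ≤ dg a) ∧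
      (∀ a b, ip (P a) (P b) = if a = b then 1 else 0) ∧
      (∀ ω : Sp k, (∑ a, pe (P a) ω ^ 2) * sg (k + 1) = g) ∧
      g = ∑ j ∈ Finset.range n, Module.finrank ℝ (HH (k + 1) (l + j)) ∧
      ∀ j < n, ∀ p ∈ HH (k + 1) (l + j), p = ∑ a, ip (P a) p • P a := by
  choose b hb ho hs using fun j => exists_basis k (l + j)
  set m : Fin n → ℕ := fun i => Module.finrank ℝ (HH (k + 1) (l + i)) with hm
  set e : (Σ i : Fin n, Fin (m i)) ≃ Fin (∑ i : Fin n, m i) := finSigmaFinEquiv with he
  set Q : (Σ i : Fin n, Fin (m i)) → MvPolynomial (Fin (k + 1)) ℝ := fun s => b s.1 s.2 with hQ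
  have hQm : ∀ s, Q s ∈ HH (k + 1) (l + s.1) := fun s => hb s.1 s.2
  have hQo : ∀ s s', ip (Q s) (Q s') = if s = s' then 1 else 0 := by
    rintro ⟨i, x⟩ ⟨i', x'⟩
    by_cases h : i = i'
    · subst h
      simp only [hQ]
      rw [ho]
      by_cases h2 : x = x'
      · subst h2
        simp
      · rw [if_neg h2, if_neg]
        intro h3
        exact h2 (by simpa using h3)
    · rw [if_neg]
      · refine ip_diff hk (hQm ⟨i, x⟩) (hQm ⟨i', x'⟩) ?_
        intro h2
        exact h (Fin.ext (by simpa using h2))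
      · intro h3
        exact h (congrArg Sigma.fst h3)
  refine ⟨∑ i : Fin n, m i, fun a => Q (e.symm a), fun a => l + (e.symm a).1,
    fun a => hQm _, fun a => Nat.le_add_right _ _, ?_, ?_, ?_, ?_⟩
  · intro a a'
    rw [hQo]
    simp only [EmbeddingLike.apply_eq_iff_eq]
  · intro ω
    rw [Equiv.sum_comp e.symm (fun s => pe (Q s) ω ^ 2), Fintype.sum_sigma, Finset.sum_mul]
    push_cast
    refine Finset.sum_congr rfl fun i _ => ?_
    have h1 := kernel_eq (hb i) (ho i) (hs i) ω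
    rw [tau_univ] at h1
    exact h1
  · exact Fin.sum_univ_eq_sum_range (fun j => Module.finrank ℝ (HH (k + 1) (l + j))) n
  · intro j hj p hp
    rw [Equiv.sum_comp e.symm (fun s => ip (Q s) p • Q s), Fintype.sum_sigma,
      Finset.sum_eq_single (⟨j, hj⟩ : Fin n)]
    · exact hs j p hp
    · intro i _ hi
      refine Finset.sum_eq_zero fun x _ => ?_
      rw [ip_diff hk (hQm ⟨i, x⟩) hp ?_, zero_smul]
      intro h2
      exact hi (Fin.ext (by simpa using h2))
    · intro h
      exact absurd (Finset.mem_univ _) h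

end

end Pool.Agent.K7.H4.LT
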