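import Pool.Agent.K7.H4.LT.Dim

/-!
Every polynomial is a sum of products of powers of `∑ X_i ^ 2` and harmonic polynomials.
-/

set_option autoImplicit false

open Set Filter Topology Metric MvPolynomial

namespace Pool.Agent.K7.H4.LT

open Pool.Agent.R117.RL (E)

/-- the polynomial `∑ X_i ^ 2` -/
noncomputable def r2 (d : ℕ) : MvPolynomial (Fin d) ℝ := ∑ i, X i * X i

theorem pe_r2 {d : ℕ} (x : E d) : pe (r2 d) x = ‖x‖ ^ 2 := by
  unfold r2
  rw [pe_sum, EuclideanSpace.real_norm_sq_eq]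
  refine Finset.sum_congr rfl fun i _ => ?_
  rw [pe_mul, pe_X]
  ring

theorem pe_pow {d : ℕ} (p : MvPolynomial (Fin d) ℝ) (n : ℕ) (x : E d) :
    pe (p ^ n) x = pe p x ^ n := by
  unfold pe
  rw [map_pow]

theorem r2_hom (d : ℕ) : (r2 d).IsHomogeneous 2 := by
  refine IsHomogeneous.sum _ _ _ fun i _ => ?_
  exact (isHomogeneous_X ℝ i).mul (isHomogeneous_X ℝ i)

theorem pderiv_r2 {d : ℕ} (i : Fin d) : pderiv i (r2 d) = 2 * X i := by
  unfold r2
  rw [map_sum, Finset.sum_eq_single i]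
  · rw [pderiv_mul, pderiv_X_self]
    ring
  · intro j _ hj
    rw [pderiv_mul, pderiv_X_of_ne hj]
    ring
  · intro h
    exact absurd (Finset.mem_univ i) h

theorem lapp_r2_mul {d : ℕ} {F : MvPolynomial (Fin d) ℝ} {n : ℕ} (hF : F.IsHomogeneous n) :
    lapp (r2 d * F) = ((2 : ℝ) * d + 4 * n) • F + r2 d * lapp F := by
  have h1 : ∀ i, pderiv i (pderiv i (r2 d * F)) =
      2 * F + 4 * (X i * pderiv i F) + r2 d * pderiv i (pderiv i F) := by
    intro i
    rw [pderiv_mul, map_add, pderiv_mul, pderiv_mul, pderiv_r2, pderiv_mul, pderiv_X_self]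
    have h2 : pderiv i (2 : MvPolynomial (Fin d) ℝ) = 0 := by
      have := pderiv_C (R := ℝ) (i := i) (a := 2)
      rwa [map_ofNat] at this
    rw [h2]
    ring
  unfold lapp
  rw [Finset.sum_congr rfl fun i _ => h1 i, Finset.sum_add_distrib, Finset.sum_add_distrib,
    ← Finset.mul_sum, ← Finset.mul_sum, hF.sum_X_mul_pderiv, Finset.sum_const, Finset.card_univ,
    Fintype.card_fin, smul_eq_C_mul, Finset.mul_sum]
  simp only [nsmul_eq_mul, map_add, map_mul, map_ofNat, map_natCast]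
  ring

/-- the products of powers of `∑ X_i ^ 2` and harmonic polynomials, of total degree `n` -/
noncomputable def FD (d n : ℕ) : Submodule ℝ (MvPolynomial (Fin d) ℝ) :=
  Submodule.span ℝ {F | ∃ i l H, H ∈ HH d l ∧ 2 * i + l = n ∧ F = r2 d ^ i * H}

theorem lapp_pow {d : ℕ} (hd : 1 ≤ d) {H : MvPolynomial (Fin d) ℝ} {l : ℕ} (hH : H ∈ HH d l)
    (i : ℕ) : ∃ c : ℝ, 0 < c ∧ lapp (r2 d ^ (i + 1) * H) = c • (r2 d ^ i * H) := by
  have hd' : (0 : ℝ) < d := by exact_mod_cast hd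
  induction i with
  | zero =>
    refine ⟨2 * d + 4 * l, by positivity, ?_⟩
    rw [zero_add, pow_one, pow_zero, one_mul, lapp_r2_mul hH.1, hH.2, mul_zero, add_zero]
  | succ i ih =>
    obtain ⟨c, hc, h1⟩ := ih
    have h2 : (r2 d ^ (i + 1) * H).IsHomogeneous (2 * (i + 1) + l) :=
      ((r2_hom d).pow (i + 1)).mul hH.1
    refine ⟨2 * d + 4 * ((2 * (i + 1) + l : ℕ) : ℝ) + c, by positivity, ?_⟩
    have h3 : r2 d ^ (i + 1 + 1) * H = r2 d * (r2 d ^ (i + 1) * H) := by ring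
    rw [h3, lapp_r2_mul h2, h1, mul_smul_comm, pow_succ' (r2 d) i, mul_assoc]
    simp only [add_smul]

theorem lapp_surj {d n : ℕ} (hd : 1 ≤ d) {g : MvPolynomial (Fin d) ℝ} (hg : g ∈ FD d n) :
    ∃ q ∈ FD d (n + 2), lapp q = g := by
  unfold FD at hg
  induction hg using Submodule.span_induction with
  | mem x hx =>
    obtain ⟨i, l, H, hH, hn, rfl⟩ := hx
    obtain ⟨c, hc, h1⟩ := lapp_pow hd hH i
    refine ⟨c⁻¹ • (r2 d ^ (i + 1) * H), ?_, ?_⟩
    · refine (FD d (n + 2)).smul_mem _ (Submodule.subset_span ⟨i + 1, l, H, hH, by omega, rfl⟩)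
    · rw [lapp_smul, h1, smul_smul, inv_mul_cancel₀ hc.ne', one_smul]
  | zero =>
    refine ⟨0, Submodule.zero_mem _, ?_⟩
    unfold lapp
    simp
  | add x y _ _ hx hy =>
    obtain ⟨a, ha, h1⟩ := hx
    obtain ⟨b, hb, h2⟩ := hy
    exact ⟨a + b, Submodule.add_mem _ ha hb, by rw [lapp_add, h1, h2]⟩
  | smul c x _ hx =>
    obtain ⟨a, ha, h1⟩ := hx
    exact ⟨c • a, Submodule.smul_mem _ c ha, by rw [lapp_smul, h1]⟩

theorem FD_hom {d n : ℕ} {g : MvPolynomial (Fin d) ℝ} (hg : g ∈ FD d n) : g.IsHomogeneous n := by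
  have h : FD d n ≤ homogeneousSubmodule (Fin d) ℝ n := by
    unfold FD
    rw [Submodule.span_le]
    rintro F ⟨i, l, H, hH, hn, rfl⟩
    show (r2 d ^ i * H).IsHomogeneous n
    rw [← hn]
    exact ((r2_hom d).pow i).mul hH.1
  exact h hg

/-- **the decomposition of homogeneous polynomials** -/
theorem hom_FD {d : ℕ} (hd : 1 ≤ d) : ∀ (n : ℕ) (p : MvPolynomial (Fin d) ℝ),
    p.IsHomogeneous n → p ∈ FD d n := by
  intro n
  induction n using Nat.strong_induction_on with
  | _ n ih =>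
    intro p hp
    by_cases hn : n < 2
    · have h1 : lapp p = 0 := by
        unfold lapp
        refine Finset.sum_eq_zero fun i _ => ?_
        have h2 : (pderiv i p).IsHomogeneous (n - 1) := hp.pderiv
        have h3 : n - 1 = 0 := by omega
        rw [h3] at h2
        have h4 : (pderiv i p).totalDegree = 0 := by
          by_cases h5 : pderiv i p = 0
          · rw [h5, totalDegree_zero]
          · exact h2.totalDegree h5
        rw [totalDegree_eq_zero_iff_eq_C.1 h4, pderiv_C]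
      exact Submodule.subset_span ⟨0, n, p, ⟨hp, h1⟩, by omega, by rw [pow_zero, one_mul]⟩
    · obtain ⟨a, rfl⟩ : ∃ a, n = a + 2 := ⟨n - 2, by omega⟩
      obtain ⟨q, hq, h1⟩ := lapp_surj hd (ih a (by omega) (lapp p) (lapp_hom hp))
      have h2 : p - q ∈ FD d (a + 2) := by
        refine Submodule.subset_span ⟨0, a + 2, p - q, ⟨hp.sub (FD_hom hq), ?_⟩, by omega,
          by rw [pow_zero, one_mul]⟩
        have h3 : lapp (p - q) = lapp p - lapp q := by
          rw [sub_eq_add_neg, lapp_add, ← neg_one_smul ℝ q, lapp_smul, neg_one_smul,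
            ← sub_eq_add_neg]
        rw [h3, h1, sub_self]
      have h3 := Submodule.add_mem _ h2 hq
      rwa [sub_add_cancel] at h3

/-- **every polynomial is a sum of `(∑ X_i ^ 2) ^ i H`, `H` harmonic homogeneous** -/
theorem all_FD {d : ℕ} (hd : 1 ≤ d) (p : MvPolynomial (Fin d) ℝ) :
    p ∈ Submodule.span ℝ {F | ∃ i l H, H ∈ HH d l ∧ F = r2 d ^ i * H} := by
  rw [← sum_homogeneousComponent p]
  refine Submodule.sum_mem _ fun n _ => ?_
  have h1 : FD d n ≤ Submodule.span ℝ {F | ∃ i l H, H ∈ HH d l ∧ F = r2 d ^ i * H} := by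
    refine Submodule.span_mono ?_
    rintro F ⟨i, l, H, hH, hn, rfl⟩
    exact ⟨i, l, H, hH, rfl⟩
  exact h1 (hom_FD hd n _ (homogeneousComponent_isHomogeneous n p))

end Pool.Agent.K7.H4.LT
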