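import Pool.Agent.K7.H4.LT.Slice
import Pool.Agent.R117.RL.ShellFull

/-!
The gradient of `∑ G_j(|y|, z) Y_j(y)`.
-/

set_option autoImplicit false

open MeasureTheory Set Filter Topology Metric
open scoped InnerProductSpace

namespace Pool.Agent.K7.H4.LT

open Pool.Agent.R117.RL (E norm_deriv sum_coord)

/-- `|∇u|²`, the sum of the squares of the absolute values of the partial derivatives -/
noncomputable def gr2 {d m : ℕ} (u : E d × (Fin m → ℝ) → ℂ) (x : E d × (Fin m → ℝ)) : ℝ :=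
  (∑ i : Fin d, ‖fderiv ℝ u x (EuclideanSpace.single i 1, 0)‖ ^ 2) +
    ∑ j : Fin m, ‖fderiv ℝ u x (0, Pi.single j 1)‖ ^ 2

/-- the map `(y, z) ↦ (|y|, z)` -/
noncomputable def kap {d m : ℕ} (x : E d × (Fin m → ℝ)) : V m := Fin.cons ‖x.1‖ x.2

/-- its derivative -/
noncomputable def kap' {d m : ℕ} (x : E d × (Fin m → ℝ)) : E d × (Fin m → ℝ) →L[ℝ] V m :=
  ContinuousLinearMap.pi fun i => Fin.cases
    (((1 / ‖x.1‖) • innerSL ℝ x.1).comp (ContinuousLinearMap.fst ℝ (E d) (Fin m → ℝ)))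
    (fun j => (ContinuousLinearMap.proj j).comp (ContinuousLinearMap.snd ℝ (E d) (Fin m → ℝ))) i

theorem kap_deriv {d m : ℕ} {x : E d × (Fin m → ℝ)} (hx : x.1 ≠ 0) :
    HasFDerivAt (kap (d := d) (m := m)) (kap' x) x := by
  rw [hasFDerivAt_pi']
  intro i
  refine Fin.cases ?_ (fun j => ?_) i
  · have h1 : HasFDerivAt (fun y : E d × (Fin m → ℝ) => ‖y.1‖)
        (((1 / ‖x.1‖) • innerSL ℝ x.1).comp (ContinuousLinearMap.fst ℝ (E d) (Fin m → ℝ))) x :=
      (norm_deriv hx).comp x hasFDerivAt_fst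
    exact h1
  · have h1 : HasFDerivAt (fun y : E d × (Fin m → ℝ) => y.2 j)
        ((ContinuousLinearMap.proj j).comp (ContinuousLinearMap.snd ℝ (E d) (Fin m → ℝ))) x :=
      ((ContinuousLinearMap.proj (R := ℝ) (φ := fun _ : Fin m => ℝ) j).comp
        (ContinuousLinearMap.snd ℝ (E d) (Fin m → ℝ))).hasFDerivAt
    exact h1

theorem kap'_fst {d m : ℕ} (x : E d × (Fin m → ℝ)) (i : Fin d) :
    kap' x (EuclideanSpace.single i 1, 0) = (x.1 i / ‖x.1‖) • (Pi.single 0 1 : V m) := by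
  funext l
  refine Fin.cases ?_ (fun j => ?_) l
  · have h6 : ⟪x.1, EuclideanSpace.single i (1 : ℝ)⟫_ℝ = x.1 i := by
      rw [EuclideanSpace.inner_single_right]
      simp
    show ((1 / ‖x.1‖) • innerSL ℝ x.1) (EuclideanSpace.single i 1) = _
    rw [smul_apply, innerSL_apply_apply, h6, Pi.smul_apply, Pi.single_eq_same, smul_eq_mul,
      smul_eq_mul]
    ring
  · show (0 : Fin m → ℝ) j = _
    rw [Pi.smul_apply, Pi.single_eq_of_ne (Fin.succ_ne_zero j)]
    simp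

theorem kap'_snd {d m : ℕ} (x : E d × (Fin m → ℝ)) (j : Fin m) :
    kap' x (0, Pi.single j 1) = (Pi.single j.succ 1 : V m) := by
  funext l
  refine Fin.cases ?_ (fun i => ?_) l
  · show ((1 / ‖x.1‖) • innerSL ℝ x.1) (0 : E d) = _
    rw [map_zero, Pi.single_eq_of_ne (Fin.succ_ne_zero j).symm]
  · show (Pi.single j 1 : Fin m → ℝ) i = _
    by_cases h : i = j
    · subst h
      rw [Pi.single_eq_same, Pi.single_eq_same]
    · rw [Pi.single_eq_of_ne h, Pi.single_eq_of_ne (fun h2 => h (Fin.succ_injective _ h2))]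

/-- the derivative of `∑ G_j(|y|, z) Y_j(y)` -/
theorem sum_deriv {d m g : ℕ} {G : Fin g → V m → ℂ} (hG : ∀ j, ContDiffOn ℝ 1 (G j) (HS m))
    {Y : Fin g → E d → ℝ} (hY : ∀ j, ContDiffOn ℝ 1 (Y j) {0}ᶜ) {x : E d × (Fin m → ℝ)}
    (hx : x.1 ≠ 0) :
    ∃ L : E d × (Fin m → ℝ) →L[ℝ] ℂ,
      HasFDerivAt (fun x : E d × (Fin m → ℝ) => ∑ j, G j (kap x) * (Y j x.1 : ℂ)) L x ∧
      ∀ h, L h = ∑ j, (fderiv ℝ (G j) (kap x) (kap' x h) * (Y j x.1 : ℂ) +
        G j (kap x) * (fderiv ℝ (Y j) x.1 h.1 : ℂ)) := by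
  have hk : kap x ∈ HS m := by
    show 0 < (Fin.cons ‖x.1‖ x.2 : V m) 0
    rw [Fin.cons_zero]
    exact norm_pos_iff.2 hx
  have h1 : ∀ j, HasFDerivAt (fun x : E d × (Fin m → ℝ) => G j (kap x))
      ((fderiv ℝ (G j) (kap x)).comp (kap' x)) x := by
    intro j
    have h2 : HasFDerivAt (G j) (fderiv ℝ (G j) (kap x)) (kap x) :=
      (((hG j).differentiableOn one_ne_zero).differentiableAt
        ((HS_open m).mem_nhds hk)).hasFDerivAt
    exact h2.comp x (kap_deriv hx)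
  have h3 : ∀ j, HasFDerivAt (fun x : E d × (Fin m → ℝ) => (Y j x.1 : ℂ))
      (Complex.ofRealCLM.comp ((fderiv ℝ (Y j) x.1).comp
        (ContinuousLinearMap.fst ℝ (E d) (Fin m → ℝ)))) x := by
    intro j
    have h2 : HasFDerivAt (Y j) (fderiv ℝ (Y j) x.1) x.1 :=
      (((hY j).differentiableOn one_ne_zero).differentiableAt
        (isOpen_compl_singleton.mem_nhds hx)).hasFDerivAt
    exact Complex.ofRealCLM.hasFDerivAt.comp x (h2.comp x hasFDerivAt_fst)
  have h4 := HasFDerivAt.fun_sum (u := Finset.univ) fun j _ => (h1 j).mul (h3 j)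
  refine ⟨_, h4, fun h => ?_⟩
  rw [sum_apply]
  refine Finset.sum_congr rfl fun j _ => ?_
  simp only [add_apply, smul_apply, ContinuousLinearMap.comp_apply, Complex.ofRealCLM_apply,
    smul_eq_mul, ContinuousLinearMap.coe_fst']
  ring

theorem orth_sum {d : ℕ} (w : Fin d → ℝ) (A : ℂ) (T : Fin d → ℂ) (h1 : ∑ i, w i ^ 2 = 1)
    (h2 : ∑ i, (w i : ℂ) * T i = 0) : ∑ i, ‖(w i : ℂ) * A + T i‖ ^ 2 = ‖A‖ ^ 2 + ∑ i, ‖T i‖ ^ 2 := by
  have e : ∀ i, ‖(w i : ℂ) * A + T i‖ ^ 2 =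
      w i ^ 2 * ‖A‖ ^ 2 + 2 * ⟪A, (w i : ℂ) * T i⟫_ℝ + ‖T i‖ ^ 2 := by
    intro i
    rw [norm_add_sq_real, norm_mul, mul_pow, Complex.norm_real, Real.norm_eq_abs, sq_abs]
    congr 2
    rw [← Complex.real_smul, ← Complex.real_smul, inner_smul_left, inner_smul_right]
    simp
  rw [Finset.sum_congr rfl fun i _ => e i, Finset.sum_add_distrib, Finset.sum_add_distrib,
    ← Finset.sum_mul, h1, one_mul, ← Finset.mul_sum, ← inner_sum, h2, inner_zero_right, mul_zero,
    add_zero]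

/-- the derivative of a function homogeneous of degree zero -/
theorem homog_deriv {d : ℕ} {Y : E d → ℝ} (hY : ContDiffOn ℝ 1 Y {0}ᶜ)
    (hh : ∀ (t : ℝ) (x : E d), 0 < t → Y (t • x) = Y x) {x : E d} (hx : x ≠ 0) :
    fderiv ℝ Y x x = 0 ∧ ∀ (t : ℝ), 0 < t → ∀ h, fderiv ℝ Y (t • x) h = t⁻¹ * fderiv ℝ Y x h := by
  have hd : ∀ y : E d, y ≠ 0 → HasFDerivAt Y (fderiv ℝ Y y) y := fun y hy =>
    ((hY.differentiableOn one_ne_zero).differentiableAt
        (isOpen_compl_singleton.mem_nhds hy)).hasFDerivAt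
  constructor
  · have h1 : HasDerivAt (fun t : ℝ => Y (t • x)) (fderiv ℝ Y x x) 1 := by
      have h2 : HasDerivAt (fun t : ℝ => t • x) x 1 := by
        have h3 := (hasDerivAt_id (1 : ℝ)).smul_const x
        rw [one_smul] at h3
        exact h3
      have h4 := hd ((1 : ℝ) • x) (by rwa [one_smul])
      have h5 := h4.comp_hasDerivAt (1 : ℝ) h2
      rwa [one_smul] at h5
    have h2 : HasDerivAt (fun t : ℝ => Y (t • x)) 0 1 := by
      have h3 : (fun t : ℝ => Y (t • x)) =ᶠ[𝓝 1] fun _ => Y x := by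
        filter_upwards [lt_mem_nhds (zero_lt_one' ℝ)] with t ht
        exact hh t x ht
      exact (hasDerivAt_const (1 : ℝ) (Y x)).congr_of_eventuallyEq h3
    exact h1.unique h2
  · intro t ht h
    have htx : t • x ≠ 0 := smul_ne_zero ht.ne' hx
    have h1 : HasFDerivAt (fun y : E d => Y (t • y)) ((fderiv ℝ Y (t • x)).comp
        (t • ContinuousLinearMap.id ℝ (E d))) x :=
      (hd _ htx).comp x ((hasFDerivAt_id x).const_smul t)
    have h2 : (fun y : E d => Y (t • y)) = Y := funext fun y => hh t y ht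
    rw [h2] at h1
    have h3 := h1.unique (hd x hx)
    rw [← h3]
    simp only [ContinuousLinearMap.comp_apply, smul_apply, ContinuousLinearMap.id_apply, map_smul,
      smul_eq_mul]
    field_simp

/-- the tangential part of the gradient of an angular function -/
noncomputable def tg {d g : ℕ} (Y : Fin g → E d → ℝ) (a : Fin g → ℂ) (x : E d) : ℝ :=
  ∑ i : Fin d, ‖∑ j, a j * (fderiv ℝ (Y j) x (EuclideanSpace.single i 1) : ℂ)‖ ^ 2

/-- **the square of the gradient in polar coordinates** -/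
theorem gr2_polar {k m g : ℕ} {G : Fin g → V m → ℂ} (hG : ∀ j, ContDiffOn ℝ 1 (G j) (HS m))
    {Y : Fin g → E (k + 1) → ℝ} (hY : ∀ j, ContDiffOn ℝ 1 (Y j) {0}ᶜ)
    (hh : ∀ j (t : ℝ) (x : E (k + 1)), 0 < t → Y j (t • x) = Y j x)
    {u : E (k + 1) × (Fin m → ℝ) → ℂ}
    (hu : ∀ x, x.1 ≠ 0 → u x = ∑ j, G j (kap x) * (Y j x.1 : ℂ)) (ω : Sp k) {v : V m}
    (hv : v ∈ HS m) :
    gr2 u (Psi k m (ω, v)) = ‖dU (fun v => ∑ j, G j v * (Y j ω : ℂ)) 0 v‖ ^ 2 +
      tg Y (fun j => G j v) ω / v 0 ^ 2 +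
      ∑ i : Fin m, ‖dU (fun v => ∑ j, G j v * (Y j ω : ℂ)) i.succ v‖ ^ 2 := by
  have hv0 : 0 < v 0 := hv
  have hω : ‖(ω : E (k + 1))‖ = 1 := by
    have := ω.2
    rwa [mem_sphere_zero_iff_norm] at this
  have hω0 : (ω : E (k + 1)) ≠ 0 := by
    intro h
    rw [h, norm_zero] at hω
    exact zero_ne_one hω
  have hx1 : (Psi k m (ω, v)).1 = v 0 • (ω : E (k + 1)) := rfl
  have hx : (Psi k m (ω, v)).1 ≠ 0 := by
    rw [hx1]
    exact smul_ne_zero hv0.ne' hω0
  have hn : ‖(Psi k m (ω, v)).1‖ = v 0 := by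
    rw [hx1, norm_smul, hω, mul_one, Real.norm_of_nonneg hv0.le]
  have hkap : kap (Psi k m (ω, v)) = v := by
    unfold kap
    rw [hn]
    exact Fin.cons_self_tail v
  obtain ⟨L, hL, hLv⟩ := sum_deriv hG hY hx
  have hfd : fderiv ℝ u (Psi k m (ω, v)) = L := by
    have h1 : u =ᶠ[𝓝 (Psi k m (ω, v))] fun x => ∑ j, G j (kap x) * (Y j x.1 : ℂ) := by
      have h2 : ∀ᶠ x : E (k + 1) × (Fin m → ℝ) in 𝓝 (Psi k m (ω, v)), x.1 ≠ 0 :=
        continuous_fst.continuousAt.eventually_ne hx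
      filter_upwards [h2] with x hx
      exact hu x hx
    exact (hL.congr_of_eventuallyEq h1).fderiv
  -- the slices
  have hdU : ∀ i, dU (fun v => ∑ j, G j v * (Y j ω : ℂ)) i v = ∑ j, dU (G j) i v * (Y j ω : ℂ) := by
    intro i
    have h1 : ∀ j, HasFDerivAt (fun v => G j v * (Y j ω : ℂ))
        ((Y j ω : ℂ) • fderiv ℝ (G j) v) v := by
      intro j
      have h2 : HasFDerivAt (G j) (fderiv ℝ (G j) v) v :=
        (((hG j).differentiableOn one_ne_zero).differentiableAt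
          ((HS_open m).mem_nhds hv)).hasFDerivAt
      exact h2.mul_const _
    have h3 := (HasFDerivAt.fun_sum (u := Finset.univ) fun j _ => h1 j).fderiv
    unfold dU
    rw [h3, sum_apply]
    refine Finset.sum_congr rfl fun j _ => ?_
    rw [smul_apply, smul_eq_mul]
    ring
  have hYω : ∀ j, Y j (Psi k m (ω, v)).1 = Y j ω := fun j => by rw [hx1, hh j _ _ hv0]
  have hYd : ∀ j h, fderiv ℝ (Y j) (Psi k m (ω, v)).1 h = (v 0)⁻¹ * fderiv ℝ (Y j) ω h := fun j h => by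
    rw [hx1]
    exact (homog_deriv (hY j) (hh j) hω0).2 _ hv0 h
  unfold gr2
  rw [hfd]
  congr 1
  · -- the first factor
    have h1 : ∀ i : Fin (k + 1), L (EuclideanSpace.single i 1, 0) =
        (((ω : E (k + 1)) i : ℝ) : ℂ) * dU (fun v => ∑ j, G j v * (Y j ω : ℂ)) 0 v +
          ((v 0)⁻¹ : ℝ) * ∑ j, G j v * (fderiv ℝ (Y j) ω (EuclideanSpace.single i 1) : ℂ) := by
      intro i
      rw [hLv, Finset.sum_add_distrib, hdU, Finset.mul_sum, Finset.mul_sum]
      congr 1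
      · refine Finset.sum_congr rfl fun j _ => ?_
        rw [kap'_fst, hkap, hYω, map_smul, hn, hx1]
        have e1 : (v 0 • (ω : E (k + 1))) i / v 0 = (ω : E (k + 1)) i := by
          rw [PiLp.smul_apply, smul_eq_mul]
          field_simp
        rw [e1, Complex.real_smul]
        unfold dU
        ring
      · refine Finset.sum_congr rfl fun j _ => ?_
        rw [hkap, hYd]
        push_cast
        ring
    simp only [h1]
    have hw : ∑ i, (ω : E (k + 1)) i ^ 2 = 1 := by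
      rw [← EuclideanSpace.real_norm_sq_eq, hω, one_pow]
    rw [orth_sum (fun i => (ω : E (k + 1)) i) _ _ hw]
    · congr 1
      unfold tg
      rw [Finset.sum_div]
      refine Finset.sum_congr rfl fun i _ => ?_
      rw [norm_mul, mul_pow, Complex.norm_real, Real.norm_eq_abs, sq_abs, inv_pow]
      ring
    · have e2 : ∑ i, (((ω : E (k + 1)) i : ℝ) : ℂ) * (((v 0)⁻¹ : ℝ) *
          ∑ j, G j v * (fderiv ℝ (Y j) ω (EuclideanSpace.single i 1) : ℂ)) =
          ((v 0)⁻¹ : ℝ) * ∑ j, G j v * ((∑ i, (ω : E (k + 1)) i *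
            fderiv ℝ (Y j) ω (EuclideanSpace.single i 1) : ℝ) : ℂ) := by
        have e3 : ∀ i, (((ω : E (k + 1)) i : ℝ) : ℂ) * (((v 0)⁻¹ : ℝ) *
          ∑ j, G j v * (fderiv ℝ (Y j) ω (EuclideanSpace.single i 1) : ℂ)) =
          ∑ j, ((v 0)⁻¹ : ℝ) * (G j v * (((ω : E (k + 1)) i *
            fderiv ℝ (Y j) ω (EuclideanSpace.single i 1) : ℝ) : ℂ)) := by
          intro i
          rw [Finset.mul_sum, Finset.mul_sum]
          refine Finset.sum_congr rfl fun j _ => ?_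
          push_cast
          ring
        rw [Finset.sum_congr rfl fun i _ => e3 i, Finset.sum_comm, Finset.mul_sum]
        refine Finset.sum_congr rfl fun j _ => ?_
        rw [← Finset.mul_sum, ← Finset.mul_sum]
        push_cast
        rfl
      rw [e2]
      have e4 : ∀ j, ∑ i, (ω : E (k + 1)) i * fderiv ℝ (Y j) ω (EuclideanSpace.single i 1) = 0 := by
        intro j
        rw [sum_coord]
        exact (homog_deriv (hY j) (hh j) hω0).1
      simp [e4]
  · refine Finset.sum_congr rfl fun i _ => ?_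
    congr 2
    rw [hLv, hdU]
    refine Finset.sum_congr rfl fun j _ => ?_
    rw [kap'_snd, hkap, hYω]
    simp only [map_zero, Complex.ofReal_zero, mul_zero, add_zero]
    rfl

end Pool.Agent.K7.H4.LT
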