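import Pool.Agent.Helper717.LT.P_final_thm

/-!
The kinetic inequality for complex families whose Gram matrix is at most one.
-/

set_option autoImplicit false

open MeasureTheory Set Filter Topology Real
open scoped Matrix

namespace Pool.Agent.K7.H4.LT

open LTd

theorem gram_real {d N : ℕ} (u : Fin N → (Fin d → ℝ) → ℂ) (hu : ∀ i, MemLp (u i) 2 volume)
    (hg : ∀ b : Fin N → ℂ, ∫ x, ‖∑ i, b i * u i x‖ ^ 2 ≤ ∑ i, ‖b i‖ ^ 2) (a b : Fin N → ℝ) :
    ∫ x, (∑ i, (a i * (u i x).re + b i * (u i x).im)) ^ 2 ≤ ∑ i, (a i ^ 2 + b i ^ 2) := by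
  set c : Fin N → ℂ := fun i => (a i : ℂ) - (b i : ℂ) * Complex.I with hc
  have h1 := hg c
  have h2 : ∑ i, ‖c i‖ ^ 2 = ∑ i, (a i ^ 2 + b i ^ 2) := by
    refine Finset.sum_congr rfl fun i _ => ?_
    rw [hc, Complex.sq_norm, Complex.normSq_apply]
    simp
    ring
  rw [h2] at h1
  refine le_trans ?_ h1
  have hL : MemLp (fun x => ∑ i, c i * u i x) 2 volume :=
    memLp_finsetSum _ fun i _ => (hu i).const_mul (c i)
  refine integral_mono_of_nonneg (Filter.Eventually.of_forall fun x => sq_nonneg _)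
    (hL.integrable_norm_pow two_ne_zero) (Filter.Eventually.of_forall fun x => ?_)
  have hre : (∑ i, (a i * (u i x).re + b i * (u i x).im)) = (∑ i, c i * u i x).re := by
    rw [Complex.re_sum]
    refine Finset.sum_congr rfl fun i _ => ?_
    rw [hc]
    simp [Complex.mul_re, Complex.sub_re, Complex.sub_im]
  simp only
  rw [hre, sq_le_sq, abs_of_nonneg (norm_nonneg _)]
  exact Complex.abs_re_le_norm _

/-- the kinetic inequality of `AllDimensions` for families with Gram matrix at most one -/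
theorem lt_gram (m N : ℕ) (u : Fin N → (Fin (m + 1) → ℝ) → ℂ)
    (g : Fin N → Fin (m + 1) → (Fin (m + 1) → ℝ) → ℂ) (hu : ∀ i, WGradC (u i) (g i))
    (hg : ∀ b : Fin N → ℂ, ∫ x, ‖∑ i, b i * u i x‖ ^ 2 ≤ ∑ i, ‖b i‖ ^ 2) :
    Integrable (fun x => (∑ i, ‖u i x‖ ^ 2) ^ (1 + 2 / ((m + 1 : ℕ) : ℝ))) ∧
    (3 / 4 : ℝ) ^ (1 / ((m + 1 : ℕ) : ℝ)) * Kcl (m + 1) *
      ∫ x, (∑ i, ‖u i x‖ ^ 2) ^ (1 + 2 / ((m + 1 : ℕ) : ℝ)) ≤
      ∑ i, ∑ k, ∫ x, ‖g i k x‖ ^ 2 := by
  have hsq : ∀ z : ℂ, ‖z‖ ^ 2 = z.re ^ 2 + z.im ^ 2 := by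
    intro z
    rw [Complex.sq_norm, Complex.normSq_apply]; ring
  let F : Fin (N + N) → (Fin (m + 1) → ℝ) → ℝ :=
    Fin.append (fun i x => (u i x).re) (fun i x => (u i x).im)
  let G : Fin (N + N) → Fin (m + 1) → (Fin (m + 1) → ℝ) → ℝ :=
    Fin.append (fun i k x => (g i k x).re) (fun i k x => (g i k x).im)
  have hFl : ∀ i, F (Fin.castAdd N i) = fun x => (u i x).re := fun i => Fin.append_left _ _ i
  have hFr : ∀ i, F (Fin.natAdd N i) = fun x => (u i x).im := fun i => Fin.append_right _ _ i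
  have hGl : ∀ i, G (Fin.castAdd N i) = fun k x => (g i k x).re := fun i => Fin.append_left _ _ i
  have hGr : ∀ i, G (Fin.natAdd N i) = fun k x => (g i k x).im := fun i => Fin.append_right _ _ i
  have hW : ∀ i, WGrad (F i) (G i) := by
    intro i
    refine Fin.addCases (fun i => ?_) (fun i => ?_) i
    · rw [hFl, hGl]
      exact (split_complex (hu i)).1
    · rw [hFr, hGr]
      exact (split_complex (hu i)).2
  have hG : ∀ v : Fin (N + N) → ℝ, ∫ x, (∑ i, v i * F i x) ^ 2 ≤ ∑ i, v i ^ 2 := by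
    intro v
    have h1 := gram_real u (fun i => (hu i).f2) hg (fun i => v (Fin.castAdd N i))
      (fun i => v (Fin.natAdd N i))
    have h2 : ∀ x, ∑ i, v i * F i x = ∑ i : Fin N, (v (Fin.castAdd N i) * (u i x).re +
        v (Fin.natAdd N i) * (u i x).im) := by
      intro x
      rw [Fin.sum_univ_add, Finset.sum_add_distrib]
      simp only [hFl, hFr]
    have h3 : ∑ i, v i ^ 2 = ∑ i : Fin N, (v (Fin.castAdd N i) ^ 2 + v (Fin.natAdd N i) ^ 2) := by
      rw [Fin.sum_univ_add, Finset.sum_add_distrib]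
    simp only [h2]
    rw [h3]
    exact h1
  have hH := H_real m (N + N) F G hW hG
  have hFs : ∀ x, ∑ i, F i x ^ 2 = ∑ i, ‖u i x‖ ^ 2 := by
    intro x
    rw [Fin.sum_univ_add, ← Finset.sum_add_distrib]
    simp only [hFl, hFr, hsq]
  have hGs : ∀ x, ∑ j, ∑ i, G i j x ^ 2 = ∑ i, ∑ j, ‖g i j x‖ ^ 2 := by
    intro x
    rw [Finset.sum_comm, Fin.sum_univ_add, ← Finset.sum_add_distrib]
    refine Finset.sum_congr rfl fun i _ => ?_
    rw [← Finset.sum_add_distrib]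
    simp only [hGl, hGr, hsq]
  simp only [hFs, hGs, const_final, final_thm_pp] at hH
  refine ⟨hH.1, ?_⟩
  have hI : ∀ i k, Integrable (fun x => ‖g i k x‖ ^ 2) := by
    intro i k
    have := (hu i).g2 k
    exact this.integrable_norm_pow two_ne_zero
  have hint : ∫ x, ∑ i, ∑ j, ‖g i j x‖ ^ 2 = ∑ i, ∑ k, ∫ x, ‖g i k x‖ ^ 2 := by
    rw [integral_finset_sum _ (fun i _ => integrable_finset_sum _ (fun k _ => hI i k))]
    refine Finset.sum_congr rfl fun i _ => ?_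
    rw [integral_finset_sum _ (fun k _ => hI i k)]
  rw [hint] at hH
  have h5 := hH.2
  have h6 : ((m + 1 : ℕ) : ℝ) = (m : ℝ) + 1 := by push_cast; ring
  rw [h6] at h5 ⊢
  exact h5

end Pool.Agent.K7.H4.LT
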