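import Pool.Agent.K7.H4.LT.Poly
import Mathlib.Analysis.Calculus.LineDeriv.IntegrationByParts
import Mathlib.Analysis.SpecialFunctions.SmoothTransition

/-!
The integral of the Laplacian of a homogeneous polynomial over the sphere.
-/

set_option autoImplicit false

open MeasureTheory Set Filter Topology Metric MvPolynomial
open scoped ENNReal InnerProductSpace

namespace Pool.Agent.K7.H4.LT

open Pool.Agent.R117.RL (E)

/-- the measure `r ^ k dr` on the half line -/
noncomputable def rr (k : ℕ) : Measure ℝ :=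
  (volume.restrict (Ioi 0)).withDensity fun r => ENNReal.ofReal (r ^ k)

instance (k : ℕ) : SFinite (rr k) := by
  unfold rr
  infer_instance

theorem rr_meas (k : ℕ) : Measurable (fun r : ℝ => ENNReal.ofReal (r ^ k)) :=
  (measurable_id.pow_const k).ennreal_ofReal

theorem Phi_cont (k : ℕ) : Continuous (fun q : Sp k × ℝ => q.2 • (q.1 : E (k + 1))) :=
  continuous_snd.smul (continuous_subtype_val.comp continuous_fst)

theorem Phi_mp (k : ℕ) : MeasurePreserving (fun q : Sp k × ℝ => q.2 • (q.1 : E (k + 1)))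
    ((tau k).prod (rr k)) volume := by
  refine ⟨(Phi_cont k).measurable, ?_⟩
  refine Measure.ext_of_lintegral _ fun F hF => ?_
  rw [lintegral_map hF (Phi_cont k).measurable]
  have hFP : Measurable (fun q : Sp k × ℝ => F (q.2 • (q.1 : E (k + 1)))) :=
    hF.comp (Phi_cont k).measurable
  rw [lintegral_prod _ hFP.aemeasurable, polar_lint k hF]
  refine lintegral_congr fun ω => ?_
  have hm : Measurable (fun r : ℝ => F (r • (ω : E (k + 1)))) :=
    hF.comp (measurable_id.smul_const _)
  show ∫⁻ r : ℝ, F (r • (ω : E (k + 1))) ∂(rr k) = _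
  unfold rr
  rw [lintegral_withDensity_eq_lintegral_mul _ (rr_meas k) hm]
  rfl

theorem rr_ae (k : ℕ) : ∀ᵐ r ∂(rr k), 0 < r :=
  (withDensity_absolutelyContinuous _ _).ae_le (ae_restrict_mem measurableSet_Ioi)

theorem rr_int {k : ℕ} (F : ℝ → ℝ) : ∫ r, F r ∂(rr k) = ∫ r in Ioi 0, r ^ k * F r := by
  unfold rr
  rw [integral_withDensity_eq_integral_toReal_smul (rr_meas k)
    (ae_of_all _ fun v => ENNReal.ofReal_lt_top)]
  refine setIntegral_congr_fun measurableSet_Ioi fun r hr => ?_
  have hr0 : 0 < r := hr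
  simp only [smul_eq_mul]
  rw [ENNReal.toReal_ofReal (by positivity)]

/-- integrals of homogeneous polynomials with a radial weight -/
theorem polar_pe {k D : ℕ} {q : MvPolynomial (Fin (k + 1)) ℝ} (hq : q.IsHomogeneous D)
    {φ : ℝ → ℝ} (hφ : Continuous φ) :
    ∫ x : E (k + 1), φ ‖x‖ * pe q x =
      (∫ ω : Sp k, pe q ω ∂(tau k)) * ∫ r in Ioi 0, r ^ k * (φ r * r ^ D) := by
  have hc : Continuous (fun x : E (k + 1) => φ ‖x‖ * pe q x) :=
    (hφ.comp continuous_norm).mul (pe_cont q)
  have h1 : ∫ x : E (k + 1), φ ‖x‖ * pe q x = ∫ p : Sp k × ℝ, φ ‖p.2 • (p.1 : E (k + 1))‖ *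
      pe q (p.2 • (p.1 : E (k + 1))) ∂((tau k).prod (rr k)) := by
    have h := (Phi_mp k).map_eq
    conv_lhs => rw [← h]
    exact integral_map (Phi_cont k).measurable.aemeasurable hc.aestronglyMeasurable
  have h2 : ∀ᵐ p : Sp k × ℝ ∂((tau k).prod (rr k)), φ ‖p.2 • (p.1 : E (k + 1))‖ *
      pe q (p.2 • (p.1 : E (k + 1))) = pe q p.1 * (φ p.2 * p.2 ^ D) := by
    have h3 : ∀ᵐ p : Sp k × ℝ ∂((tau k).prod (rr k)), 0 < p.2 :=
      Measure.quasiMeasurePreserving_snd.ae (rr_ae k)
    filter_upwards [h3] with p hp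
    have h4 : ‖(p.1 : E (k + 1))‖ = 1 := by
      have := p.1.2
      rwa [mem_sphere_zero_iff_norm] at this
    rw [pe_hom hq, norm_smul, h4, mul_one, Real.norm_of_nonneg hp.le]
    ring
  rw [h1, integral_congr_ae h2, integral_prod_mul (fun ω : Sp k => pe q ω)
    (fun r => φ r * r ^ D), rr_int]

/-- the cut-off function -/
noncomputable def chi (t : ℝ) : ℝ := Real.smoothTransition (1 - t)

/-- its derivative -/
noncomputable def chi' (t : ℝ) : ℝ := -deriv Real.smoothTransition (1 - t)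

theorem chi_deriv (t : ℝ) : HasDerivAt chi (chi' t) t := by
  have h1 : HasDerivAt Real.smoothTransition (deriv Real.smoothTransition (1 - t)) (1 - t) :=
    ((Real.smoothTransition.contDiff (n := 1)).differentiable one_ne_zero _).hasDerivAt
  have h2 : HasDerivAt (fun t : ℝ => 1 - t) (-1) t := by
    simpa using (hasDerivAt_id t).const_sub 1
  have h3 := h1.comp t h2
  have h4 : deriv Real.smoothTransition (1 - t) * -1 = chi' t := by
    unfold chi'
    ring
  rw [h4] at h3
  exact h3

theorem chi'_cont : Continuous chi' := by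
  have h1 : Continuous (deriv Real.smoothTransition) :=
    (Real.smoothTransition.contDiff (n := 1)).continuous_deriv le_rfl
  exact (h1.comp (continuous_const.sub continuous_id)).neg

theorem chi_cont : Continuous chi :=
  continuous_iff_continuousAt.2 fun t => (chi_deriv t).continuousAt

theorem chi_zero {t : ℝ} (ht : 1 ≤ t) : chi t = 0 :=
  Real.smoothTransition.zero_of_nonpos (by linarith)

theorem chi_pos {t : ℝ} (ht : t < 1) : 0 < chi t :=
  Real.smoothTransition.pos_of_pos (by linarith)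

theorem chi'_zero {t : ℝ} (ht : 1 < t) : chi' t = 0 := by
  have h1 : chi =ᶠ[𝓝 t] fun _ => 0 := by
    filter_upwards [lt_mem_nhds ht] with s hs
    exact chi_zero (le_of_lt hs)
  exact (chi_deriv t).unique ((hasDerivAt_const t (0 : ℝ)).congr_of_eventuallyEq h1)

/-- the radial weight -/
noncomputable def wt {d : ℕ} (x : E d) : ℝ := chi (‖x‖ ^ 2)

theorem wt_deriv {d : ℕ} (x : E d) : HasFDerivAt wt (chi' (‖x‖ ^ 2) • (2 • innerSL ℝ x)) x :=
  (chi_deriv (‖x‖ ^ 2)).comp_hasFDerivAt x (hasStrictFDerivAt_norm_sq x).hasFDerivAt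

theorem wt_fderiv {d : ℕ} (x : E d) (i : Fin d) :
    fderiv ℝ wt x (EuclideanSpace.single i 1) = 2 * chi' (‖x‖ ^ 2) * x i := by
  have h6 : ⟪x, EuclideanSpace.single i (1 : ℝ)⟫_ℝ = x i := by
    rw [EuclideanSpace.inner_single_right]
    simp
  rw [(wt_deriv x).fderiv, smul_apply, smul_apply, innerSL_apply_apply, h6]
  simp only [smul_eq_mul, nsmul_eq_mul, Nat.cast_ofNat]
  ring

theorem wt_supp {d : ℕ} {f : E d → ℝ} (hf : Continuous f) (hs : ∀ x, 1 < ‖x‖ → f x = 0) :
    Integrable f := by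
  refine hf.integrable_of_hasCompactSupport ?_
  refine HasCompactSupport.intro (isCompact_closedBall (0 : E d) 1) fun x hx => hs x ?_
  rw [mem_closedBall_zero_iff, not_le] at hx
  exact hx

theorem one_lt_sq {t : ℝ} (ht : 1 < t) : 1 < t ^ 2 := by nlinarith

/-- integration by parts -/
theorem parts {d : ℕ} {q : MvPolynomial (Fin d) ℝ} (i : Fin d) :
    ∫ x : E d, wt x * pe (pderiv i q) x = -∫ x : E d, 2 * chi' (‖x‖ ^ 2) * (x i * pe q x) := by
  have hw : Continuous (wt (d := d)) := chi_cont.comp (continuous_norm.pow 2)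
  have hw' : Continuous (fun x : E d => chi' (‖x‖ ^ 2)) := chi'_cont.comp (continuous_norm.pow 2)
  have hxi : Continuous (fun x : E d => x i) := (EuclideanSpace.proj i : E d →L[ℝ] ℝ).continuous
  have h := integral_mul_fderiv_eq_neg_fderiv_mul_of_integrable (μ := (volume : Measure (E d)))
    (f := wt) (g := pe q) (v := EuclideanSpace.single i 1) ?_ ?_ ?_
    (fun x _ => (wt_deriv x).differentiableAt) (fun x _ => (pe_deriv q x).differentiableAt)
  · simp only [pe_fderiv, wt_fderiv] at h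
    rw [h]
    congr 1
    refine integral_congr_ae (ae_of_all _ fun x => ?_)
    simp only
    ring
  · simp only [wt_fderiv]
    refine wt_supp ?_ fun x hx => ?_
    · exact ((continuous_const.mul hw').mul hxi).mul (pe_cont q)
    · rw [chi'_zero (one_lt_sq hx)]
      ring
  · simp only [pe_fderiv]
    refine wt_supp (hw.mul (pe_cont _)) fun x hx => ?_
    unfold wt
    rw [chi_zero (one_lt_sq hx).le, zero_mul]
  · refine wt_supp (hw.mul (pe_cont _)) fun x hx => ?_
    unfold wt
    rw [chi_zero (one_lt_sq hx).le, zero_mul]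

/-- the one-dimensional identity -/
theorem one_dim (a : ℕ) : ∫ r in Ioi (0 : ℝ), 2 * chi' (r ^ 2) * r ^ (a + 2) =
    -((a + 1 : ℝ) * ∫ r in Ioi (0 : ℝ), chi (r ^ 2) * r ^ a) ∧
    0 < ∫ r in Ioi (0 : ℝ), chi (r ^ 2) * r ^ a := by
  have hc : Continuous (fun r : ℝ => chi (r ^ 2) * r ^ a) :=
    (chi_cont.comp (continuous_id.pow 2)).mul (continuous_id.pow a)
  have hc' : Continuous (fun r : ℝ => 2 * chi' (r ^ 2) * r ^ (a + 2)) :=
    (continuous_const.mul (chi'_cont.comp (continuous_id.pow 2))).mul (continuous_id.pow (a + 2))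
  have e1 : ∫ r in Ioi (0 : ℝ), chi (r ^ 2) * r ^ a = ∫ r in (0 : ℝ)..1, chi (r ^ 2) * r ^ a := by
    rw [intervalIntegral.integral_of_le zero_le_one]
    refine setIntegral_eq_of_subset_of_forall_sdiff_eq_zero measurableSet_Ioi Ioc_subset_Ioi_self
      fun r hr => ?_
    have h1 : 0 < r := hr.1
    have h2 : 1 < r := by
      by_contra h
      exact hr.2 ⟨h1, not_lt.1 h⟩
    rw [chi_zero (one_lt_sq h2).le, zero_mul]
  have e2 : ∫ r in Ioi (0 : ℝ), 2 * chi' (r ^ 2) * r ^ (a + 2) =
      ∫ r in (0 : ℝ)..1, 2 * chi' (r ^ 2) * r ^ (a + 2) := by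
    rw [intervalIntegral.integral_of_le zero_le_one]
    refine setIntegral_eq_of_subset_of_forall_sdiff_eq_zero measurableSet_Ioi Ioc_subset_Ioi_self
      fun r hr => ?_
    have h1 : 0 < r := hr.1
    have h2 : 1 < r := by
      by_contra h
      exact hr.2 ⟨h1, not_lt.1 h⟩
    rw [chi'_zero (one_lt_sq h2)]
    ring
  rw [e1, e2]
  constructor
  · have hd : ∀ r : ℝ, HasDerivAt (fun r : ℝ => chi (r ^ 2) * r ^ (a + 1))
        (2 * chi' (r ^ 2) * r ^ (a + 2) + (a + 1 : ℝ) * (chi (r ^ 2) * r ^ a)) r := by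
      intro r
      have h1 : HasDerivAt (fun r : ℝ => r ^ 2) (2 * r) r := by
        simpa using hasDerivAt_pow 2 r
      have h2 : HasDerivAt (chi ∘ fun r : ℝ => r ^ 2) (chi' (r ^ 2) * (2 * r)) r :=
        HasDerivAt.comp r (chi_deriv (r ^ 2)) h1
      have h3 : HasDerivAt (fun r : ℝ => r ^ (a + 1)) ((a + 1 : ℕ) * r ^ a) r := by
        simpa using hasDerivAt_pow (a + 1) r
      have h4 := h2.mul h3
      refine h4.congr_deriv ?_
      simp only [Function.comp_apply]
      push_cast
      ring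
    have hc2 : Continuous (fun r : ℝ => (a + 1 : ℝ) * (chi (r ^ 2) * r ^ a)) :=
      continuous_const.mul hc
    have h5 := intervalIntegral.integral_eq_sub_of_hasDerivAt (a := 0) (b := 1)
      (fun r _ => hd r) ((hc'.add hc2).intervalIntegrable _ _)
    rw [intervalIntegral.integral_add (hc'.intervalIntegrable _ _)
      (hc2.intervalIntegrable _ _), intervalIntegral.integral_const_mul] at h5
    have h6 : chi ((1 : ℝ) ^ 2) = 0 := chi_zero (by norm_num)
    rw [h6] at h5
    simp only [zero_mul, zero_pow (Nat.succ_ne_zero a), mul_zero, sub_zero] at h5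
    linarith
  · refine intervalIntegral.intervalIntegral_pos_of_pos_on (hc.intervalIntegrable _ _)
      (fun r hr => ?_) zero_lt_one
    refine mul_pos (chi_pos ?_) (pow_pos hr.1 a)
    have h1 := hr.1
    have h2 := hr.2
    nlinarith

/-- **the integral of the Laplacian over the sphere** -/
theorem green {k D : ℕ} {q : MvPolynomial (Fin (k + 1)) ℝ} (hq : q.IsHomogeneous (D + 2)) :
    ∫ ω : Sp k, pe (lapp q) ω ∂(tau k) =
      ((D : ℝ) + 2) * (D + k + 1) * ∫ ω : Sp k, pe q ω ∂(tau k) := by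
  have hchi : Continuous (fun r : ℝ => chi (r ^ 2)) := chi_cont.comp (continuous_id.pow 2)
  have hchi' : Continuous (fun r : ℝ => 2 * chi' (r ^ 2)) :=
    continuous_const.mul (chi'_cont.comp (continuous_id.pow 2))
  have hw : Continuous (wt (d := k + 1)) := chi_cont.comp (continuous_norm.pow 2)
  have hw' : Continuous (fun x : E (k + 1) => chi' (‖x‖ ^ 2)) :=
    chi'_cont.comp (continuous_norm.pow 2)
  have h1 := polar_pe (lapp_hom hq) hchi
  have h2 := polar_pe hq hchi'
  have h3 : ∫ x : E (k + 1), chi (‖x‖ ^ 2) * pe (lapp q) x =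
      -(((D : ℝ) + 2) * ∫ x : E (k + 1), 2 * chi' (‖x‖ ^ 2) * pe q x) := by
    have hi1 : ∀ i : Fin (k + 1), Integrable (fun x : E (k + 1) => wt x *
        pe (pderiv i (pderiv i q)) x) := by
      intro i
      refine wt_supp (hw.mul (pe_cont _)) fun x hx => ?_
      unfold wt
      rw [chi_zero (one_lt_sq hx).le, zero_mul]
    have hi2 : ∀ i : Fin (k + 1), Integrable (fun x : E (k + 1) => 2 * chi' (‖x‖ ^ 2) *
        (x i * pe (pderiv i q) x)) := by
      intro i
      have hxi : Continuous (fun x : E (k + 1) => x i) :=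
        (EuclideanSpace.proj i : E (k + 1) →L[ℝ] ℝ).continuous
      refine wt_supp ((continuous_const.mul hw').mul (hxi.mul (pe_cont _))) fun x hx => ?_
      rw [chi'_zero (one_lt_sq hx)]
      ring
    have e1 : ∀ x : E (k + 1), chi (‖x‖ ^ 2) * pe (lapp q) x =
        ∑ i, wt x * pe (pderiv i (pderiv i q)) x := by
      intro x
      unfold lapp wt
      rw [pe_sum, Finset.mul_sum]
    simp only [e1]
    rw [integral_finsetSum _ fun i _ => hi1 i]
    simp only [parts]
    rw [Finset.sum_neg_distrib, ← integral_finsetSum _ fun i _ => hi2 i, ← integral_const_mul]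
    congr 1
    refine integral_congr_ae (ae_of_all _ fun x => ?_)
    simp only
    rw [← Finset.mul_sum, euler hq]
    push_cast
    ring
  rw [h1, h2] at h3
  obtain ⟨h4, h5⟩ := one_dim (k + D)
  have e2 : ∫ r in Ioi (0 : ℝ), r ^ k * (chi (r ^ 2) * r ^ D) =
      ∫ r in Ioi (0 : ℝ), chi (r ^ 2) * r ^ (k + D) := by
    refine setIntegral_congr_fun measurableSet_Ioi fun r _ => ?_
    show r ^ k * (chi (r ^ 2) * r ^ D) = chi (r ^ 2) * r ^ (k + D)
    rw [pow_add]
    ring
  have e3 : ∫ r in Ioi (0 : ℝ), r ^ k * (2 * chi' (r ^ 2) * r ^ (D + 2)) =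
      ∫ r in Ioi (0 : ℝ), 2 * chi' (r ^ 2) * r ^ (k + D + 2) := by
    refine setIntegral_congr_fun measurableSet_Ioi fun r _ => ?_
    show r ^ k * (2 * chi' (r ^ 2) * r ^ (D + 2)) = 2 * chi' (r ^ 2) * r ^ (k + D + 2)
    rw [add_assoc k D 2, pow_add r k]
    ring
  rw [e2, e3, h4] at h3
  set I := ∫ r in Ioi (0 : ℝ), chi (r ^ 2) * r ^ (k + D) with hI
  have h6 : (∫ ω : Sp k, pe (lapp q) ω ∂(tau k)) * I =
      (((D : ℝ) + 2) * (D + k + 1) * ∫ ω : Sp k, pe q ω ∂(tau k)) * I := by
    rw [h3]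
    push_cast
    ring
  exact mul_right_cancel₀ h5.ne' h6

end Pool.Agent.K7.H4.LT
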