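import Pool.Agent.K7.H4.LT.Green
import Pool.Agent.K7.H4.LT.Ang

/-!
Angular functions of harmonic polynomials.
-/

set_option autoImplicit false

open MeasureTheory Set Filter Topology Metric MvPolynomial
open scoped ENNReal InnerProductSpace

namespace Pool.Agent.K7.H4.LT

open Pool.Agent.R117.RL (E norm_deriv)

/-- the angular function `p(x) / |x| ^ l` -/
noncomputable def yy {d : ℕ} (p : MvPolynomial (Fin d) ℝ) (l : ℕ) (x : E d) : ℝ :=
  pe p x * (‖x‖ ^ l)⁻¹

section

variable {k : ℕ}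

theorem yy_sp (p : MvPolynomial (Fin (k + 1)) ℝ) (l : ℕ) (ω : Sp k) : yy p l ω = pe p ω := by
  unfold yy
  rw [sp_norm, one_pow, inv_one, mul_one]

theorem yy_homog {p : MvPolynomial (Fin (k + 1)) ℝ} {l : ℕ} (hp : p.IsHomogeneous l) (t : ℝ)
    (x : E (k + 1)) (ht : 0 < t) : yy p l (t • x) = yy p l x := by
  unfold yy
  rw [pe_hom hp, norm_smul, Real.norm_of_nonneg ht.le, mul_pow, mul_inv]
  field_simp

theorem yy_smooth (p : MvPolynomial (Fin (k + 1)) ℝ) (l : ℕ) : ContDiffOn ℝ 1 (yy p l) {0}ᶜ := by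
  intro x hx
  have h1 : ContDiffAt ℝ 1 (fun x : E (k + 1) => ‖x‖) x := contDiffAt_norm ℝ hx
  have h2 : ContDiffAt ℝ 1 (fun x : E (k + 1) => (‖x‖ ^ l)⁻¹) x :=
    (h1.pow l).inv (pow_ne_zero l (norm_ne_zero_iff.2 hx))
  exact ((pe_contDiff p).contDiffAt.mul h2).contDiffWithinAt

theorem yy_deriv (p : MvPolynomial (Fin (k + 1)) ℝ) (l : ℕ) (ω : Sp k) (i : Fin (k + 1)) :
    fderiv ℝ (yy p l) ω (EuclideanSpace.single i 1) =
      pe (pderiv i p) ω - l * pe p ω * (ω : E (k + 1)) i := by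
  have hω := sp_norm ω
  have h1 : HasFDerivAt (fun y : E (k + 1) => ‖y‖)
      ((1 / ‖(ω : E (k + 1))‖) • innerSL ℝ (ω : E (k + 1))) (ω : E (k + 1)) :=
    norm_deriv (sp_ne ω)
  have h2 : HasDerivAt (fun r : ℝ => (r ^ l)⁻¹) (-(l : ℝ)) ‖(ω : E (k + 1))‖ := by
    rw [hω]
    have h3 := (hasDerivAt_pow l (1 : ℝ)).fun_inv (by simp)
    simpa using h3
  have h3 := h2.comp_hasFDerivAt (ω : E (k + 1)) h1
  have h4 := (pe_deriv p (ω : E (k + 1))).mul h3
  have h5 : fderiv ℝ (yy p l) ω = _ := h4.fderiv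
  have h6 : ⟪(ω : E (k + 1)), EuclideanSpace.single i (1 : ℝ)⟫_ℝ = (ω : E (k + 1)) i := by
    rw [EuclideanSpace.inner_single_right]
    simp
  have h7 : (∑ i, pe (pderiv i p) (ω : E (k + 1)) • (EuclideanSpace.proj i : E (k + 1) →L[ℝ] ℝ))
      (EuclideanSpace.single i 1) = pe (pderiv i p) ω := by
    rw [← (pe_deriv p (ω : E (k + 1))).fderiv, pe_fderiv]
  rw [h5]
  simp only [add_apply, smul_apply, h7, innerSL_apply_apply, h6, Function.comp_apply, hω,
    smul_eq_mul, one_pow, inv_one, div_one, one_mul]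
  ring

/-- the product of two tangential gradients -/
theorem yy_grad {p q : MvPolynomial (Fin (k + 1)) ℝ} {l l' : ℕ} (hp : p.IsHomogeneous l)
    (hq : q.IsHomogeneous l') (ω : Sp k) :
    ∑ i, fderiv ℝ (yy p l) ω (EuclideanSpace.single i 1) *
      fderiv ℝ (yy q l') ω (EuclideanSpace.single i 1) =
      pe (∑ i, pderiv i p * pderiv i q) ω - l * l' * (pe p ω * pe q ω) := by
  have hw : ∑ i, (ω : E (k + 1)) i ^ 2 = 1 := by
    rw [← EuclideanSpace.real_norm_sq_eq, sp_norm, one_pow]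
  have e1 := euler hp (ω : E (k + 1))
  have e2 := euler hq (ω : E (k + 1))
  simp only [yy_deriv]
  rw [pe_sum]
  have e3 : ∀ i, (pe (pderiv i p) ω - l * pe p ω * (ω : E (k + 1)) i) *
      (pe (pderiv i q) ω - l' * pe q ω * (ω : E (k + 1)) i) =
      pe (pderiv i p * pderiv i q) ω - l' * pe q ω * ((ω : E (k + 1)) i * pe (pderiv i p) ω) -
      l * pe p ω * ((ω : E (k + 1)) i * pe (pderiv i q) ω) +
      l * l' * (pe p ω * pe q ω) * (ω : E (k + 1)) i ^ 2 := by
    intro i
    rw [pe_mul]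
    ring
  rw [Finset.sum_congr rfl fun i _ => e3 i, Finset.sum_add_distrib, Finset.sum_sub_distrib,
    Finset.sum_sub_distrib, ← Finset.mul_sum, ← Finset.mul_sum, ← Finset.mul_sum, e1, e2, hw]
  ring

theorem int_sp {f : Sp k → ℝ} (hf : Continuous f) : Integrable f (tau k) :=
  hf.integrable_of_hasCompactSupport (HasCompactSupport.of_compactSpace _)

theorem pe_csp (p : MvPolynomial (Fin (k + 1)) ℝ) : Continuous (fun ω : Sp k => pe p ω) :=
  (pe_cont p).comp continuous_subtype_val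

/-- the integral of the product of two tangential gradients -/
theorem yy_int {p q : MvPolynomial (Fin (k + 1)) ℝ} {l l' : ℕ} (hp : p.IsHomogeneous l)
    (hq : q.IsHomogeneous l') (hp2 : lapp p = 0) (hq2 : lapp q = 0) (hl : 2 ≤ l + l') :
    ∫ ω : Sp k, ∑ i, fderiv ℝ (yy p l) ω (EuclideanSpace.single i 1) *
      fderiv ℝ (yy q l') ω (EuclideanSpace.single i 1) ∂(tau k) =
      (((l : ℝ) + l') * (l + l' + k - 1) / 2 - l * l') * ∫ ω : Sp k, pe p ω * pe q ω ∂(tau k) := by
  obtain ⟨D, hD⟩ : ∃ D, l + l' = D + 2 := ⟨l + l' - 2, by omega⟩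
  have hpq : (p * q).IsHomogeneous (D + 2) := by
    rw [← hD]
    exact hp.mul hq
  have h1 := green (k := k) hpq
  have hDr : (l : ℝ) + l' = D + 2 := by exact_mod_cast hD
  rw [lapp_mul hp2 hq2] at h1
  have e1 : ∀ ω : Sp k, pe (2 * ∑ i, pderiv i p * pderiv i q) ω =
      2 * pe (∑ i, pderiv i p * pderiv i q) ω := by
    intro ω
    rw [pe_mul]
    congr 1
    unfold pe
    rw [map_ofNat]
  simp only [e1, pe_mul] at h1
  rw [integral_const_mul] at h1
  simp only [yy_grad hp hq]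
  have hi : Integrable (fun ω : Sp k => (l : ℝ) * l' * (pe p ω * pe q ω)) (tau k) :=
    (int_sp ((pe_csp p).mul (pe_csp q))).const_mul _
  rw [integral_sub (int_sp (pe_csp _)) hi, integral_const_mul]
  have h2 : ((l : ℝ) + l') * (l + l' + k - 1) = ((D : ℝ) + 2) * (D + k + 1) := by
    rw [hDr]
    ring
  rw [h2]
  linear_combination (1 / 2) * h1

end

theorem norm_sum_sq {g : ℕ} (a : Fin g → ℂ) (x : Fin g → ℝ) :
    ‖∑ j, a j * (x j : ℂ)‖ ^ 2 = ∑ i, ∑ j, (a i * star (a j)).re * (x i * x j) := by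
  have h1 : ((‖∑ j, a j * (x j : ℂ)‖ ^ 2 : ℝ) : ℂ) =
      ∑ i, ∑ j, (a i * star (a j)) * ((x i * x j : ℝ) : ℂ) := by
    rw [Complex.ofReal_pow, ← Complex.mul_conj', map_sum, Finset.sum_mul_sum]
    refine Finset.sum_congr rfl fun i _ => Finset.sum_congr rfl fun j _ => ?_
    rw [map_mul, Complex.conj_ofReal]
    simp only [RCLike.star_def]
    push_cast
    ring
  have h2 := congrArg Complex.re h1
  rw [Complex.ofReal_re] at h2
  rw [h2, Complex.re_sum]
  refine Finset.sum_congr rfl fun i _ => ?_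
  rw [Complex.re_sum]
  refine Finset.sum_congr rfl fun j _ => ?_
  rw [Complex.re_mul_ofReal]

/-- **the angular space of a family of harmonic polynomials** -/
theorem ang_of_harm {k g : ℕ} {lam B : ℝ} {P : Fin g → MvPolynomial (Fin (k + 1)) ℝ}
    {dg : Fin g → ℕ} (hp : ∀ j, (P j).IsHomogeneous (dg j)) (hh : ∀ j, lapp (P j) = 0)
    (hd : lam = 0 ∨ ∀ j, 1 ≤ dg j)
    (ho : ∀ i j, ∫ ω : Sp k, pe (P i) ω * pe (P j) ω ∂(tau k) = if i = j then 1 else 0)
    (hs : ∀ ω : Sp k, ∑ j, pe (P j) ω ^ 2 ≤ B)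
    (hl : ∀ j, lam ≤ dg j * (dg j + k - 1)) : Ang k lam B (fun j => yy (P j) (dg j)) := by
  have hsq : ∀ a : Fin g → ℂ, ∫ θ : Sp k, ‖∑ j, a j * (yy (P j) (dg j) θ : ℂ)‖ ^ 2 ∂(tau k) =
      ∑ j, ‖a j‖ ^ 2 := by
    intro a
    have hi : ∀ i j, Integrable (fun θ : Sp k =>
        (a i * star (a j)).re * (pe (P i) θ * pe (P j) θ)) (tau k) := fun i j =>
      (int_sp ((pe_csp _).mul (pe_csp _))).const_mul _
    simp only [norm_sum_sq, yy_sp]
    rw [integral_finsetSum _ fun i _ => integrable_finsetSum _ fun j _ => hi i j]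
    refine Finset.sum_congr rfl fun i _ => ?_
    rw [integral_finsetSum _ fun j _ => hi i j]
    simp only [integral_const_mul, ho]
    rw [Finset.sum_eq_single i]
    · rw [if_pos rfl, mul_one]
      simp only [RCLike.star_def]
      rw [Complex.mul_conj']
      norm_cast
    · intro j _ hj
      rw [if_neg (Ne.symm hj), mul_zero]
    · simp
  refine ⟨fun j => yy_smooth _ _, fun j t x ht => yy_homog (hp j) t x ht, ?_, ?_⟩
  · intro a ω
    rw [hsq]
    simp only [yy_sp]
    have h1 : ‖∑ j, a j * (pe (P j) ω : ℂ)‖ ≤ ∑ j, ‖a j‖ * |pe (P j) ω| := by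
      refine (norm_sum_le _ _).trans (le_of_eq ?_)
      refine Finset.sum_congr rfl fun j _ => ?_
      rw [norm_mul, Complex.norm_real, Real.norm_eq_abs]
    have h2 : (∑ j, ‖a j‖ * |pe (P j) ω|) ^ 2 ≤ (∑ j, ‖a j‖ ^ 2) * ∑ j, |pe (P j) ω| ^ 2 :=
      Finset.sum_mul_sq_le_sq_mul_sq _ _ _
    simp only [sq_abs] at h2
    calc ‖∑ j, a j * (pe (P j) ω : ℂ)‖ ^ 2 ≤ (∑ j, ‖a j‖ * |pe (P j) ω|) ^ 2 :=
          pow_le_pow_left₀ (norm_nonneg _) h1 2
      _ ≤ (∑ j, ‖a j‖ ^ 2) * ∑ j, pe (P j) ω ^ 2 := h2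
      _ ≤ (∑ j, ‖a j‖ ^ 2) * B := mul_le_mul_of_nonneg_left (hs ω)
          (Finset.sum_nonneg fun j _ => sq_nonneg _)
      _ = _ := mul_comm _ _
  · intro a
    rcases hd with rfl | hd
    · rw [zero_mul]
      exact integral_nonneg fun θ => tg_nonneg _ _
    rw [hsq]
    have hcd : ∀ (j : Fin g) (i : Fin (k + 1)), Continuous (fun θ : Sp k =>
        fderiv ℝ (yy (P j) (dg j)) θ (EuclideanSpace.single i 1)) := by
      intro j i
      simp only [yy_deriv]
      refine (pe_csp _).sub ((continuous_const.mul (pe_csp _)).mul ?_)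
      exact (EuclideanSpace.proj i : E (k + 1) →L[ℝ] ℝ).continuous.comp continuous_subtype_val
    have e1 : ∀ θ : Sp k, tg (fun j => yy (P j) (dg j)) a θ =
        ∑ i, ∑ j, (a i * star (a j)).re *
          ∑ c, fderiv ℝ (yy (P i) (dg i)) θ (EuclideanSpace.single c 1) *
            fderiv ℝ (yy (P j) (dg j)) θ (EuclideanSpace.single c 1) := by
      intro θ
      unfold tg
      simp only [norm_sum_sq]
      rw [Finset.sum_comm]
      refine Finset.sum_congr rfl fun i _ => ?_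
      rw [Finset.sum_comm]
      refine Finset.sum_congr rfl fun j _ => ?_
      rw [Finset.mul_sum]
    have hi : ∀ i j, Integrable (fun θ : Sp k => (a i * star (a j)).re *
          ∑ c, fderiv ℝ (yy (P i) (dg i)) θ (EuclideanSpace.single c 1) *
            fderiv ℝ (yy (P j) (dg j)) θ (EuclideanSpace.single c 1)) (tau k) := by
      intro i j
      refine Integrable.const_mul (int_sp ?_) _
      exact continuous_finsetSum _ fun c _ => (hcd i c).mul (hcd j c)
    simp only [e1]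
    rw [integral_finsetSum _ fun i _ => integrable_finsetSum _ fun j _ => hi i j, Finset.mul_sum]
    refine Finset.sum_le_sum fun i _ => ?_
    rw [integral_finsetSum _ fun j _ => hi i j]
    have e2 : ∀ j, ∫ θ : Sp k, (a i * star (a j)).re *
          ∑ c, fderiv ℝ (yy (P i) (dg i)) θ (EuclideanSpace.single c 1) *
            fderiv ℝ (yy (P j) (dg j)) θ (EuclideanSpace.single c 1) ∂(tau k) =
        if i = j then (dg i * (dg i + k - 1)) * ‖a i‖ ^ 2 else 0 := by
      intro j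
      have h1 := hd i
      have h2 := hd j
      rw [integral_const_mul, yy_int (hp i) (hp j) (hh i) (hh j) (by omega), ho]
      by_cases h : i = j
      · subst h
        rw [if_pos rfl, if_pos rfl]
        have h3 : (a i * star (a i)).re = ‖a i‖ ^ 2 := by
          simp only [RCLike.star_def]
          rw [Complex.mul_conj']
          norm_cast
        rw [h3]
        ring
      · rw [if_neg h, if_neg h]
        ring
    rw [Finset.sum_congr rfl fun j _ => e2 j, Finset.sum_ite_eq, if_pos (Finset.mem_univ i)]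
    exact mul_le_mul_of_nonneg_right (hl i) (sq_nonneg _)

end Pool.Agent.K7.H4.LT
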