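import Pool.Agent.K7.H4.LT.Sep
import Mathlib.MeasureTheory.Integral.PeakFunction
import Mathlib.Analysis.Calculus.ContDiff.Convolution

/-!
Approximation of `C^1` functions with compact support by polynomials, with derivatives.
-/

set_option autoImplicit false

open MeasureTheory Set Filter Topology Metric MvPolynomial

namespace Pool.Agent.K7.H4.LT

open Pool.Agent.R117.RL (E)

variable {k m : ℕ}

instance : (volume : Measure (XX k m)).IsAddHaarMeasure := by
  rw [Measure.volume_eq_prod]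
  exact Measure.prod.instIsAddHaarMeasure _ _

instance : (volume : Measure (XX k m)).IsNegInvariant :=
  Measure.IsAddHaarMeasure.isNegInvariant_of_regular _

theorem qq_nonneg (u : XX k m) : 0 ≤ qqD u := by
  unfold qqD
  exact add_nonneg (Finset.sum_nonneg fun i _ => sq_nonneg _)
    (Finset.sum_nonneg fun i _ => sq_nonneg _)

theorem qqD_pos {u : XX k m} (hu : u ≠ 0) : 0 < qqD u := by
  rcases (qq_nonneg u).lt_or_eq with h | h
  · exact h
  · exfalso
    apply hu
    have h1 : (∑ i, u.1 i ^ 2) = 0 ∧ ∑ j, u.2 j ^ 2 = 0 := by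
      have h2 : 0 ≤ ∑ i, u.1 i ^ 2 := Finset.sum_nonneg fun i _ => sq_nonneg _
      have h3 : 0 ≤ ∑ j, u.2 j ^ 2 := Finset.sum_nonneg fun i _ => sq_nonneg _
      unfold qqD at h
      constructor <;> linarith
    refine Prod.ext ?_ ?_
    · ext i
      have h2 := (Finset.sum_eq_zero_iff_of_nonneg fun i _ => sq_nonneg (u.1 i)).1 h1.1 i
        (Finset.mem_univ i)
      exact pow_eq_zero_iff (two_ne_zero) |>.1 h2
    · ext j
      have h2 := (Finset.sum_eq_zero_iff_of_nonneg fun i _ => sq_nonneg (u.2 i)).1 h1.2 j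
        (Finset.mem_univ j)
      exact pow_eq_zero_iff (two_ne_zero) |>.1 h2

theorem qq_cont : Continuous (qqD (k := k) (m := m)) := by
  unfold qqD
  refine Continuous.add (continuous_finsetSum _ fun i _ => ?_)
    (continuous_finsetSum _ fun j _ => ?_)
  · exact ((EuclideanSpace.proj i : E (k + 1) →L[ℝ] ℝ).continuous.comp continuous_fst).pow 2
  · exact ((continuous_apply j).comp continuous_snd).pow 2

theorem qq_le {u : XX k m} {s : ℝ} (hu : ‖u‖ ≤ s) : qqD u ≤ s ^ 2 * (1 + m) := by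
  have h0 : 0 ≤ s := (norm_nonneg _).trans hu
  have h1 : ‖u.1‖ ≤ s := (norm_fst_le u).trans hu
  have h2 : ‖u.2‖ ≤ s := (norm_snd_le u).trans hu
  have h3 : ∑ i, u.1 i ^ 2 ≤ s ^ 2 := by
    rw [← EuclideanSpace.real_norm_sq_eq]
    exact pow_le_pow_left₀ (norm_nonneg _) h1 2
  have h4 : ∑ j, u.2 j ^ 2 ≤ m * s ^ 2 := by
    have h5 : ∀ j ∈ (Finset.univ : Finset (Fin m)), u.2 j ^ 2 ≤ s ^ 2 := by
      intro j _
      rw [← sq_abs]
      refine pow_le_pow_left₀ (abs_nonneg _) ?_ 2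
      rw [← Real.norm_eq_abs]
      exact (norm_le_pi_norm u.2 j).trans h2
    have h6 := Finset.sum_le_card_nsmul _ _ _ h5
    rwa [Finset.card_univ, Fintype.card_fin, nsmul_eq_mul] at h6
  unfold qqD
  linarith

theorem cc_cont (s : ℝ) : Continuous (cc (k := k) (m := m) s) := by
  unfold cc
  exact continuous_const.sub (continuous_const.mul qq_cont)

theorem cc_zero (s : ℝ) : cc s (0 : XX k m) = 1 := by
  unfold cc qqD
  simp

theorem cc_lt {s : ℝ} (hs : 0 < s) {u : XX k m} (hu : u ≠ 0) : cc s u < cc s (0 : XX k m) := by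
  rw [cc_zero]
  unfold cc
  have := mul_pos (inv_pos.2 hs) (qqD_pos hu)
  linarith

/-- the constant of the kernel -/
noncomputable def sc (m : ℕ) (ρ : ℝ) : ℝ := (2 * ρ) ^ 2 * (1 + m)

theorem sc_pos (m : ℕ) {ρ : ℝ} (hρ : 0 < ρ) : 0 < sc m ρ := by
  unfold sc
  positivity

theorem cc_nonneg {ρ : ℝ} (hρ : 0 < ρ) {u : XX k m} (hu : ‖u‖ ≤ 2 * ρ) : 0 ≤ cc (sc m ρ) u := by
  unfold cc
  have h1 := qq_le hu
  have h2 : (sc m ρ)⁻¹ * qqD u ≤ (sc m ρ)⁻¹ * sc m ρ :=
    mul_le_mul_of_nonneg_left h1 (inv_nonneg.2 (sc_pos m hρ).le)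
  rw [inv_mul_cancel₀ (sc_pos m hρ).ne'] at h2
  linarith

/-- the Landau kernel -/
noncomputable def kn (ρ : ℝ) (n : ℕ) : XX k m → ℝ :=
  (closedBall (0 : XX k m) (2 * ρ)).indicator fun u =>
    (∫ v in closedBall (0 : XX k m) (2 * ρ), cc (sc m ρ) v ^ n)⁻¹ * cc (sc m ρ) u ^ n

theorem cc_int (ρ : ℝ) (n : ℕ) : IntegrableOn (fun v : XX k m => cc (sc m ρ) v ^ n)
    (closedBall (0 : XX k m) (2 * ρ)) volume :=
  ((cc_cont _).pow n).continuousOn.integrableOn_compact (isCompact_closedBall _ _)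

theorem zn_nonneg {ρ : ℝ} (hρ : 0 < ρ) (n : ℕ) :
    0 ≤ ∫ v in closedBall (0 : XX k m) (2 * ρ), cc (sc m ρ) v ^ n :=
  setIntegral_nonneg measurableSet_closedBall fun v hv =>
    pow_nonneg (cc_nonneg hρ (mem_closedBall_zero_iff.1 hv)) n

theorem kn_nonneg {ρ : ℝ} (hρ : 0 < ρ) (n : ℕ) (u : XX k m) : 0 ≤ kn ρ n u := by
  unfold kn
  refine indicator_nonneg (fun u hu => ?_) u
  exact mul_nonneg (inv_nonneg.2 (zn_nonneg hρ n))
    (pow_nonneg (cc_nonneg hρ (mem_closedBall_zero_iff.1 hu)) n)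

theorem kn_integrable (ρ : ℝ) (n : ℕ) : Integrable (kn (k := k) (m := m) ρ n) := by
  unfold kn
  rw [integrable_indicator_iff measurableSet_closedBall]
  exact (cc_int ρ n).const_mul _

theorem kn_total {ρ : ℝ} (hρ : 0 < ρ) (n : ℕ) : ∫ u, kn (k := k) (m := m) ρ n u ≤ 1 := by
  unfold kn
  rw [integral_indicator measurableSet_closedBall, integral_const_mul]
  exact inv_mul_le_one

/-- the averages of a continuous function -/
noncomputable def av (ρ : ℝ) (n : ℕ) (g : XX k m → ℝ) (x : XX k m) : ℝ :=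
  ∫ t, kn ρ n t * g (x - t)

theorem av_bound {ρ : ℝ} (hρ : 0 < ρ) (n : ℕ) {g : XX k m → ℝ} {M : ℝ} (hM : ∀ x, ‖g x‖ ≤ M)
    (x : XX k m) : ‖av ρ n g x‖ ≤ M := by
  have hM0 : 0 ≤ M := (norm_nonneg _).trans (hM 0)
  unfold av
  have h1 : ‖∫ t, kn ρ n t * g (x - t)‖ ≤ ∫ t, kn (k := k) (m := m) ρ n t * M := by
    refine norm_integral_le_of_norm_le ((kn_integrable ρ n).mul_const M)
      (Eventually.of_forall fun t => ?_)
    rw [norm_mul, Real.norm_of_nonneg (kn_nonneg hρ n t)]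
    exact mul_le_mul_of_nonneg_left (hM _) (kn_nonneg hρ n t)
  rw [integral_mul_const] at h1
  refine h1.trans ?_
  have h2 := mul_le_mul_of_nonneg_right (kn_total (k := k) (m := m) hρ n) hM0
  rwa [one_mul] at h2

theorem av_tendsto {ρ : ℝ} (hρ : 0 < ρ) {g : XX k m → ℝ} (hg : Continuous g) (x : XX k m) :
    Tendsto (fun n => av ρ n g x) atTop (𝓝 (g x)) := by
  have h1 := tendsto_setIntegral_pow_smul_of_unique_maximum_of_isCompact_of_continuousOn
    (μ := (volume : Measure (XX k m))) (x₀ := (0 : XX k m))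
    (s := closedBall (0 : XX k m) (2 * ρ)) (isCompact_closedBall _ _)
    (c := cc (sc m ρ)) (cc_cont _).continuousOn
    (fun y _ hy => cc_lt (sc_pos m hρ) hy)
    (fun y hy => cc_nonneg hρ (mem_closedBall_zero_iff.1 hy))
    (by rw [cc_zero]; exact one_pos)
    (by
      refine subset_closure ?_
      rw [mem_interior_iff_mem_nhds]
      exact closedBall_mem_nhds _ (by positivity))
    (g := fun t => g (x - t)) (hg.comp (continuous_const.sub continuous_id)).continuousOn
  simp only [sub_zero] at h1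
  refine h1.congr fun n => ?_
  unfold av kn
  have h2 : ∀ t : XX k m, (closedBall (0 : XX k m) (2 * ρ)).indicator (fun u =>
      (∫ v in closedBall (0 : XX k m) (2 * ρ), cc (sc m ρ) v ^ n)⁻¹ * cc (sc m ρ) u ^ n) t *
        g (x - t) = (closedBall (0 : XX k m) (2 * ρ)).indicator (fun u =>
      (∫ v in closedBall (0 : XX k m) (2 * ρ), cc (sc m ρ) v ^ n)⁻¹ *
        (cc (sc m ρ) u ^ n * g (x - u))) t := by
    intro t
    by_cases ht : t ∈ closedBall (0 : XX k m) (2 * ρ)
    · rw [indicator_of_mem ht, indicator_of_mem ht, mul_assoc]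
    · rw [indicator_of_notMem ht, indicator_of_notMem ht, zero_mul]
  simp only [h2]
  rw [integral_indicator measurableSet_closedBall, integral_const_mul]
  rfl

theorem av_conv (ρ : ℝ) (n : ℕ) (g : XX k m → ℝ) :
    av ρ n g = convolution (kn ρ n) g (ContinuousLinearMap.lsmul ℝ ℝ) volume := by
  funext x
  rw [convolution_lsmul]
  rfl

theorem av_smooth (ρ : ℝ) (n : ℕ) {g : XX k m → ℝ} (hg : ContDiff ℝ 1 g)
    (hgc : HasCompactSupport g) : ContDiff ℝ 1 (av ρ n g) := by
  rw [av_conv]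
  exact_mod_cast hgc.contDiff_convolution_right (n := 1) (ContinuousLinearMap.lsmul ℝ ℝ)
    (kn_integrable ρ n).locallyIntegrable (by exact_mod_cast hg)

theorem av_deriv (ρ : ℝ) (n : ℕ) {g : XX k m → ℝ} (hg : ContDiff ℝ 1 g)
    (hgc : HasCompactSupport g) (x h : XX k m) :
    fderiv ℝ (av ρ n g) x h = av ρ n (fun y => fderiv ℝ g y h) x := by
  have h1 := hgc.hasFDerivAt_convolution_right (ContinuousLinearMap.lsmul ℝ ℝ)
    (kn_integrable ρ n).locallyIntegrable hg x
  rw [av_conv, av_conv, h1.fderiv]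
  exact convolution_precompR_apply (ContinuousLinearMap.lsmul ℝ ℝ)
    (kn_integrable ρ n).locallyIntegrable (hgc.fderiv ℝ) (hg.continuous_fderiv one_ne_zero) x h

/-- on a ball the averages are polynomials -/
theorem av_pol {ρ : ℝ} (n : ℕ) {g : XX k m → ℝ} (hg : Continuous g)
    (hgs : ∀ x, g x ≠ 0 → ‖x‖ ≤ ρ) : ∃ F ∈ PolS k m, ∀ x, ‖x‖ ≤ ρ → av ρ n g x = F x := by
  have hgc : HasCompactSupport g := by
    refine HasCompactSupport.intro (isCompact_closedBall (0 : XX k m) ρ) fun x hx => ?_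
    by_contra h
    exact hx (mem_closedBall_zero_iff.2 (hgs x h))
  set z : ℝ := (∫ v in closedBall (0 : XX k m) (2 * ρ), cc (sc m ρ) v ^ n)⁻¹ with hz
  refine ⟨z • fun x => ∫ t, cc (sc m ρ) (x - t) ^ n * g t, Submodule.smul_mem _ _
    (sep_int (sep_cc (sc m ρ) n) hg hgc).2, fun x hx => ?_⟩
  rw [av_conv, convolution_lsmul_swap]
  show _ = z * ∫ t, cc (sc m ρ) (x - t) ^ n * g t
  rw [← integral_const_mul]
  refine integral_congr_ae (Eventually.of_forall fun t => ?_)
  show kn ρ n (x - t) * g t = z * (cc (sc m ρ) (x - t) ^ n * g t)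
  by_cases ht : g t = 0
  · rw [ht]
    ring
  · have h1 : x - t ∈ closedBall (0 : XX k m) (2 * ρ) := by
      rw [mem_closedBall_zero_iff]
      have h2 := norm_sub_le x t
      have h3 := hgs t ht
      linarith
    unfold kn
    rw [indicator_of_mem h1]
    ring

end Pool.Agent.K7.H4.LT
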