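import Pool.Agent.K7.H4.LT.Cst2
import Pool.Agent.K7.H4.LT.Dim

/-!
Numerical inequalities: the number of spherical harmonics and the semiclassical constant.
-/

set_option autoImplicit false

open MeasureTheory Set Filter Topology

namespace Pool.Agent.K7.H4.LT

open Pool.Agent.R117.RL

/-- the criterion for the semiclassical constant -/
theorem crit {k : ℕ} (hk : 1 ≤ k) {c G : ℝ} (hc : 0 < c) (hG : 0 < G)
    (h : Ga (k + 1) ^ 4 * G ^ 2 ≤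
      (((k : ℝ) + 3) / 4) ^ (k + 1) * (Real.pi ^ 2 / 4) * (c / k) ^ k * ((k : ℝ) + 1) ^ 2) :
    Kcl (k + 1) ≤ CL k c (sg (k + 1) / G) := by
  have hk' : (1 : ℝ) ≤ k := by exact_mod_cast hk
  have hsg := sg_pos (Nat.succ_pos k)
  have hπ := Real.pi_pos
  have hGa := Ga_pos (k + 1)
  have hs0 : 0 < sg (k + 1) / G := by positivity
  apply le_of_pow_le_pow_left₀ (Nat.succ_ne_zero k) (CL_nonneg hc hs0)
  rw [Nat.succ_eq_add_one, Kcl_pow (Nat.succ_pos k), CL_pow hk hc hs0, div_pow (sg (k + 1)),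
    sg_sq (Nat.succ_pos k)]
  push_cast
  have e1 : (((k : ℝ) + 1) / ((k : ℝ) + 1 + 2)) ^ (k + 1) * 4 ^ (k + 1) * Real.pi ^ (k + 1) *
      Ga (k + 1) ^ 2 = (((k : ℝ) + 1) ^ (k + 1) * Real.pi ^ (k + 1) / (Ga (k + 1) ^ 2 * G ^ 2) /
        (((k : ℝ) + 3) / 4) ^ (k + 1)) * (Ga (k + 1) ^ 4 * G ^ 2) := by
    have e : (k : ℝ) + 1 + 2 = k + 3 := by ring
    rw [e, div_pow, div_pow]
    field_simp
  have e2 : ((k : ℝ) + 1) ^ (k + 1) * (Real.pi ^ 2 / 4) * (c / k) ^ k *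
      (((k : ℝ) + 1) ^ 2 * (Real.pi ^ (k + 1) / Ga (k + 1) ^ 2) / G ^ 2) =
      (((k : ℝ) + 1) ^ (k + 1) * Real.pi ^ (k + 1) / (Ga (k + 1) ^ 2 * G ^ 2) /
        (((k : ℝ) + 3) / 4) ^ (k + 1)) *
      ((((k : ℝ) + 3) / 4) ^ (k + 1) * (Real.pi ^ 2 / 4) * (c / k) ^ k * ((k : ℝ) + 1) ^ 2) := by
    field_simp
  rw [e1, e2]
  exact mul_le_mul_of_nonneg_left h (by positivity)

/-- the duplication formula -/
theorem Ga_dup (k : ℕ) : 2 ^ (k + 1) * (Ga k * Ga (k + 1)) = √Real.pi * ((k + 1).factorial : ℝ) := by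
  have h := Real.Gamma_mul_Gamma_add_half ((k : ℝ) / 2 + 1)
  have e1 : (k : ℝ) / 2 + 1 + 1 / 2 = ((k + 1 : ℕ) : ℝ) / 2 + 1 := by
    push_cast
    ring
  have e2 : 2 * ((k : ℝ) / 2 + 1) = ((k + 1 : ℕ) : ℝ) + 1 := by
    push_cast
    ring
  rw [e1, e2, Real.Gamma_nat_eq_factorial] at h
  have e3 : (1 : ℝ) - (((k + 1 : ℕ) : ℝ) + 1) = -((k + 1 : ℕ) : ℝ) := by ring
  rw [e3, Real.rpow_neg (by norm_num), Real.rpow_natCast] at h
  unfold Ga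
  rw [h]
  field_simp

theorem Ga_four_le (k : ℕ) : Ga (k + 1) ^ 4 * 4 ^ (k + 1) * 2 ≤
    Real.pi * (k + 2) * ((k + 1).factorial : ℝ) ^ 2 := by
  have hπ := Real.pi_pos
  have h1 := Ga_pos k
  have h2 := Ga_pos (k + 1)
  have h3 : Ga (k + 1) ^ 2 * 2 ≤ (k + 2) * Ga k ^ 2 := by
    have h4 := Ga_log (k + 1)
    rw [show k + 1 + 1 = k + 2 from rfl, Ga_step] at h4
    push_cast at h4
    have h5 : Ga (k + 1) ^ 2 * 2 * ((k + 2 : ℝ) / 2) ≤ ((k + 2) * Ga k ^ 2) * ((k + 2 : ℝ) / 2) := by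
      nlinarith [h4]
    exact le_of_mul_le_mul_right h5 (by positivity)
  have h6 : (4 : ℝ) ^ (k + 1) * (Ga k ^ 2 * Ga (k + 1) ^ 2) =
      Real.pi * ((k + 1).factorial : ℝ) ^ 2 := by
    have h7 := congrArg (fun t => t ^ 2) (Ga_dup k)
    simp only [mul_pow, ← pow_mul] at h7
    rw [mul_comm (k + 1) 2, pow_mul 2 2 (k + 1)] at h7
    norm_num at h7
    rw [h7, Real.sq_sqrt hπ.le]
  calc Ga (k + 1) ^ 4 * 4 ^ (k + 1) * 2
      = (4 ^ (k + 1) * Ga (k + 1) ^ 2) * (Ga (k + 1) ^ 2 * 2) := by ring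
    _ ≤ (4 ^ (k + 1) * Ga (k + 1) ^ 2) * ((k + 2) * Ga k ^ 2) :=
        mul_le_mul_of_nonneg_left h3 (by positivity)
    _ = (k + 2) * (4 ^ (k + 1) * (Ga k ^ 2 * Ga (k + 1) ^ 2)) := by ring
    _ = _ := by
        rw [h6]
        ring

/-- the elementary inequality behind the comparison for one angular momentum -/
theorem elem {d : ℕ} (hd : 2 ≤ d) : 32 * (((d : ℝ) - 1) / d) ^ 2 ≤
    Real.pi * ((1 + 2 / (d : ℝ)) ^ d * (1 + 1 / (d : ℝ)) ^ (d - 2)) := by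
  have hd' : (2 : ℝ) ≤ d := by exact_mod_cast hd
  have hπ : 3.14 < Real.pi := Real.pi_gt_d2
  have hb1 := bern (x := 2 / (d : ℝ)) (by positivity) d
  have hb2 := bern (x := 1 / (d : ℝ)) (by positivity) (d - 2)
  rw [Nat.cast_sub hd] at hb2
  push_cast at hb2
  set t : ℝ := (d : ℝ) with ht
  have e1 : 1 + t * (2 / t) + t * (t - 1) * (2 / t) ^ 2 / 2 = (5 * t - 2) / t := by
    field_simp
    ring
  have e2 : 1 + (t - 2) * (1 / t) + (t - 2) * (t - 2 - 1) * (1 / t) ^ 2 / 2 =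
      (5 * t ^ 2 - 9 * t + 6) / (2 * t ^ 2) := by
    field_simp
    ring
  rw [e1] at hb1
  rw [e2] at hb2
  have h1 : 0 < 5 * t - 2 := by linarith
  have h2 : 0 < 5 * t ^ 2 - 9 * t + 6 := by nlinarith
  have h3 : (5 * t - 2) / t * ((5 * t ^ 2 - 9 * t + 6) / (2 * t ^ 2)) ≤
      (1 + 2 / t) ^ d * (1 + 1 / t) ^ (d - 2) :=
    mul_le_mul hb1 hb2 (by positivity) (by positivity)
  have h4 : 32 * ((t - 1) / t) ^ 2 ≤
      3.14 * ((5 * t - 2) / t * ((5 * t ^ 2 - 9 * t + 6) / (2 * t ^ 2))) := by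
    have e3 : 3.14 * ((5 * t - 2) / t * ((5 * t ^ 2 - 9 * t + 6) / (2 * t ^ 2))) -
        32 * ((t - 1) / t) ^ 2 =
        (14.5 * t ^ 3 - 44.7 * t ^ 2 + 86.72 * t - 37.68) / (2 * t ^ 3) := by
      field_simp
      ring
    have h5 : 0 ≤ 14.5 * t ^ 3 - 44.7 * t ^ 2 + 86.72 * t - 37.68 := by
      nlinarith [mul_nonneg (by linarith : 0 ≤ t - 2) (sq_nonneg (t - 1.5))]
    have h6 : 0 ≤ (14.5 * t ^ 3 - 44.7 * t ^ 2 + 86.72 * t - 37.68) / (2 * t ^ 3) := by positivity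
    linarith
  calc 32 * ((t - 1) / t) ^ 2
      ≤ 3.14 * ((5 * t - 2) / t * ((5 * t ^ 2 - 9 * t + 6) / (2 * t ^ 2))) := h4
    _ ≤ Real.pi * ((1 + 2 / t) ^ d * (1 + 1 / t) ^ (d - 2)) := by
        apply mul_le_mul hπ.le h3 (by positivity) (by positivity)

/-- **one angular momentum**: the semiclassical constant -/
theorem single {k : ℕ} (hk : 1 ≤ k) {x : ℝ} (hx : ((k : ℝ) + 1) / 2 ≤ x) :
    Kcl (k + 1) ≤ CL k (x ^ 2 - 1 / 4) (sg (k + 1) / (2 * x ^ (k - 1) / ((k - 1).factorial : ℝ))) := by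
  obtain ⟨e, rfl⟩ : ∃ e, k = e + 1 := ⟨k - 1, by omega⟩
  simp only [Nat.add_sub_cancel]
  push_cast at hx
  have he : (0 : ℝ) ≤ e := Nat.cast_nonneg e
  have hπ := Real.pi_pos
  have hx1 : 1 ≤ x := by linarith
  have hf : (0 : ℝ) < (e.factorial : ℝ) := by exact_mod_cast e.factorial_pos
  have hc : 0 < x ^ 2 - 1 / 4 := by nlinarith
  refine crit hk hc (by positivity) ?_
  have h1 := Ga_four_le (e + 1)
  have hf2 : ((e + 1 + 1).factorial : ℝ) = ((e : ℝ) + 2) * ((e + 1) * e.factorial) := by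
    rw [Nat.factorial_succ, Nat.factorial_succ]
    push_cast
    ring
  rw [hf2] at h1
  push_cast at h1 ⊢
  -- the quotient
  have h2 : Ga (e + 1 + 1) ^ 4 * (2 * x ^ e / (e.factorial : ℝ)) ^ 2 ≤
      2 * Real.pi * (e + 3) * (e + 2) ^ 2 * (e + 1) ^ 2 * (x ^ 2) ^ e / 4 ^ (e + 2) := by
    rw [le_div_iff₀ (by positivity)]
    have e3 : Ga (e + 1 + 1) ^ 4 * (2 * x ^ e / (e.factorial : ℝ)) ^ 2 * 4 ^ (e + 2) =
        (Ga (e + 1 + 1) ^ 4 * 4 ^ (e + 1 + 1) * 2) * (2 * (x ^ 2) ^ e / (e.factorial : ℝ) ^ 2) := by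
      rw [div_pow, mul_pow, ← pow_mul, ← pow_mul, mul_comm e 2]
      ring
    rw [e3]
    calc (Ga (e + 1 + 1) ^ 4 * 4 ^ (e + 1 + 1) * 2) * (2 * (x ^ 2) ^ e / (e.factorial : ℝ) ^ 2)
        ≤ (Real.pi * (e + 1 + 2) * ((e + 2) * ((e + 1) * (e.factorial : ℝ))) ^ 2) *
          (2 * (x ^ 2) ^ e / (e.factorial : ℝ) ^ 2) :=
          mul_le_mul_of_nonneg_right h1 (by positivity)
      _ = _ := by
          field_simp
          ring
  refine h2.trans ?_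
  -- reduction to the smallest x
  set s : ℝ := x ^ 2 with hs
  set s0 : ℝ := ((e : ℝ) + 2) ^ 2 / 4 with hs0
  have hss : s0 ≤ s := by
    rw [hs, hs0]
    nlinarith
  have hs0pos : 0 < s0 := by positivity
  have hspos : 0 < s := lt_of_lt_of_le hs0pos hss
  have hs0c : s0 - 1 / 4 = (e + 1) * (e + 3) / 4 := by
    rw [hs0]
    ring
  have hs0c0 : 0 < s0 - 1 / 4 := by
    rw [hs0c]
    positivity
  have h3 : s ^ e * (s0 - 1 / 4) ^ (e + 1) ≤ s0 ^ e * (s - 1 / 4) ^ (e + 1) := by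
    have h4 : s / s0 ≤ (s - 1 / 4) / (s0 - 1 / 4) := by
      rw [div_le_div_iff₀ hs0pos hs0c0]
      nlinarith
    have h5 : 1 ≤ s / s0 := by
      rw [le_div_iff₀ hs0pos]
      linarith
    have h6 : (s / s0) ^ e ≤ ((s - 1 / 4) / (s0 - 1 / 4)) ^ (e + 1) :=
      calc (s / s0) ^ e ≤ (s / s0) ^ (e + 1) := pow_le_pow_right₀ h5 (Nat.le_succ e)
        _ ≤ _ := pow_le_pow_left₀ (by positivity) h4 _
    rw [div_pow s s0 e, div_pow (s - 1 / 4) (s0 - 1 / 4) (e + 1),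
      div_le_div_iff₀ (by positivity) (by positivity)] at h6
    linarith
  -- the inequality at the smallest x
  have h7 := elem (d := e + 2) (by omega)
  have h8 : 32 * (e + 1) ^ 2 * ((e : ℝ) + 2) ^ (2 * e) ≤
      Real.pi * ((e + 4) ^ (e + 2) * (e + 3) ^ e) := by
    push_cast at h7
    have e5 : 1 + 2 / ((e : ℝ) + 2) = (e + 4) / (e + 2) := by
      field_simp
      ring
    have e6 : 1 + 1 / ((e : ℝ) + 2) = (e + 3) / (e + 2) := by
      field_simp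
      ring
    have e7 : (e : ℝ) + 2 - 1 = e + 1 := by ring
    rw [e5, e6, e7, div_pow, div_pow, div_pow] at h7
    have e8 : Real.pi * (((e : ℝ) + 4) ^ (e + 2) / (e + 2) ^ (e + 2) *
        ((e + 3) ^ e / (e + 2) ^ e)) =
        Real.pi * ((e + 4) ^ (e + 2) * (e + 3) ^ e) / (e + 2) ^ (2 * e + 2) := by
      rw [show 2 * e + 2 = (e + 2) + e by ring, pow_add ((e : ℝ) + 2) (e + 2) e]
      field_simp
    rw [e8, le_div_iff₀ (by positivity)] at h7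
    refine le_trans (le_of_eq ?_) h7
    rw [pow_add ((e : ℝ) + 2) (2 * e) 2]
    field_simp
  have h9 : 8 * (e + 1) ^ 2 * (e + 3) * s0 ^ e ≤
      Real.pi * ((e : ℝ) + 4) ^ (e + 2) * ((s0 - 1 / 4) / (e + 1)) ^ (e + 1) := by
    have e9 : s0 ^ e = ((e : ℝ) + 2) ^ (2 * e) / 4 ^ e := by
      rw [hs0, div_pow, ← pow_mul]
    have e10 : (s0 - 1 / 4) / (e + 1) = (e + 3) / 4 := by
      rw [hs0c]
      field_simp
    rw [e9, e10, div_pow ((e : ℝ) + 3) 4 (e + 1)]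
    calc 8 * (e + 1) ^ 2 * (e + 3) * (((e : ℝ) + 2) ^ (2 * e) / 4 ^ e)
        = (32 * (e + 1) ^ 2 * ((e : ℝ) + 2) ^ (2 * e)) * ((e + 3) / 4 ^ (e + 1)) := by
          rw [pow_succ (4 : ℝ) e]
          field_simp
          ring
      _ ≤ (Real.pi * ((e + 4) ^ (e + 2) * (e + 3) ^ e)) * ((e + 3) / 4 ^ (e + 1)) :=
          mul_le_mul_of_nonneg_right h8 (by positivity)
      _ = _ := by
          rw [pow_succ ((e : ℝ) + 3) e]
          ring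
  have h10 : 8 * (e + 1) ^ 2 * (e + 3) * s ^ e ≤
      Real.pi * ((e : ℝ) + 4) ^ (e + 2) * ((s - 1 / 4) / (e + 1)) ^ (e + 1) := by
    have h11 : (8 * (e + 1) ^ 2 * (e + 3) * s ^ e) * (s0 - 1 / 4) ^ (e + 1) ≤
        (Real.pi * ((e : ℝ) + 4) ^ (e + 2) * ((s - 1 / 4) / (e + 1)) ^ (e + 1)) *
          (s0 - 1 / 4) ^ (e + 1) := by
      calc (8 * (e + 1) ^ 2 * (e + 3) * s ^ e) * (s0 - 1 / 4) ^ (e + 1)
          = (8 * (e + 1) ^ 2 * (e + 3)) * (s ^ e * (s0 - 1 / 4) ^ (e + 1)) := by ring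
        _ ≤ (8 * (e + 1) ^ 2 * (e + 3)) * (s0 ^ e * (s - 1 / 4) ^ (e + 1)) :=
            mul_le_mul_of_nonneg_left h3 (by positivity)
        _ = (8 * (e + 1) ^ 2 * (e + 3) * s0 ^ e) * (s - 1 / 4) ^ (e + 1) := by ring
        _ ≤ (Real.pi * ((e : ℝ) + 4) ^ (e + 2) * ((s0 - 1 / 4) / (e + 1)) ^ (e + 1)) *
            (s - 1 / 4) ^ (e + 1) :=
            mul_le_mul_of_nonneg_right h9 (pow_nonneg hc.le _)
        _ = _ := by
            rw [div_pow, div_pow]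
            ring
    exact le_of_mul_le_mul_right h11 (by positivity)
  have e11 : (e : ℝ) + 1 + 3 = e + 4 := by ring
  have e12 : (e : ℝ) + 1 + 1 = e + 2 := by ring
  rw [e11, e12, div_pow ((e : ℝ) + 4) 4 (e + 1 + 1)]
  calc 2 * Real.pi * (e + 3) * (e + 2) ^ 2 * (e + 1) ^ 2 * s ^ e / 4 ^ (e + 2)
      = (8 * (e + 1) ^ 2 * (e + 3) * s ^ e) * (Real.pi * (e + 2) ^ 2 / 4 / 4 ^ (e + 2)) := by ring
    _ ≤ (Real.pi * ((e : ℝ) + 4) ^ (e + 2) * ((s - 1 / 4) / (e + 1)) ^ (e + 1)) *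
        (Real.pi * (e + 2) ^ 2 / 4 / 4 ^ (e + 2)) :=
        mul_le_mul_of_nonneg_right h10 (by positivity)
    _ = _ := by ring

end Pool.Agent.K7.H4.LT
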