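import Pool.Agent.K7.H4.LT.Weak
import Pool.Agent.K7.H4.LT.Gram
import Pool.Agent.K7.H4.LT.Cst2

/-!
The inequality for the slices in a fixed direction.
-/

set_option autoImplicit false

open MeasureTheory Set Filter Topology Metric
open scoped ENNReal

namespace Pool.Agent.K7.H4.LT

open Pool.Agent.R117.RL

theorem wgrad_smul {d : ℕ} {u : (Fin d → ℝ) → ℂ} {g : Fin d → (Fin d → ℝ) → ℂ}
    (h : LTd.WGradC u g) (a : ℝ) :
    LTd.WGradC (fun x => (a : ℂ) * u x) (fun i x => (a : ℂ) * g i x) := by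
  refine ⟨h.f2.const_mul _, fun i => (h.g2 i).const_mul _, ?_⟩
  intro i φ hφ hs
  have h1 := h.weak i φ hφ hs
  have e1 : (fun x => (a : ℂ) * u x * (LTd.pd i φ x : ℂ)) =
      fun x => (a : ℂ) * (u x * (LTd.pd i φ x : ℂ)) := by
    funext x
    ring
  have e2 : (fun x => (a : ℂ) * g i x * (φ x : ℂ)) = fun x => (a : ℂ) * (g i x * (φ x : ℂ)) := by
    funext x
    ring
  rw [e1, e2, integral_const_mul, integral_const_mul, h1]
  ring

theorem norm_ind_sq {m : ℕ} (g : V m → ℂ) (v : V m) :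
    ‖(HS m).indicator g v‖ ^ 2 = (HS m).indicator (fun v => ‖g v‖ ^ 2) v := by
  by_cases hv : v ∈ HS m
  · rw [indicator_of_mem hv, indicator_of_mem hv]
  · rw [indicator_of_notMem hv, indicator_of_notMem hv]
    simp

variable {k m : ℕ} {lam : ℝ}

theorem ff_norm (U : V m → ℂ) (v : V m) :
    ‖ff k U v‖ ^ 2 = (HS m).indicator (fun v => v 0 ^ k * ‖U v‖ ^ 2) v := by
  unfold ff
  rw [norm_ind_sq]
  by_cases hv : v ∈ HS m
  · rw [indicator_of_mem hv, indicator_of_mem hv, ff_sq v hv]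
  · rw [indicator_of_notMem hv, indicator_of_notMem hv]

theorem gg_succ_norm (U : V m → ℂ) (j : Fin m) (v : V m) :
    ‖gg k U j.succ v‖ ^ 2 = (HS m).indicator (fun v => v 0 ^ k * ‖dU U j.succ v‖ ^ 2) v := by
  unfold gg
  rw [norm_ind_sq]
  by_cases hv : v ∈ HS m
  · rw [indicator_of_mem hv, indicator_of_mem hv, if_neg (Fin.succ_ne_zero j), add_zero, norm_smul,
      mul_pow, Real.norm_eq_abs, sq_abs, rpow_half_sq hv]
  · rw [indicator_of_notMem hv, indicator_of_notMem hv]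

theorem sum_ff {N : ℕ} (U : Fin N → V m → ℂ) (b : Fin N → ℂ) (v : V m) :
    ∑ n, b n * ff k (U n) v = ff k (fun v => ∑ n, b n * U n v) v := by
  unfold ff
  by_cases hv : v ∈ HS m
  · rw [indicator_of_mem hv, Finset.smul_sum]
    refine Finset.sum_congr rfl fun n _ => ?_
    rw [indicator_of_mem hv]
    simp only [Complex.real_smul]
    ring
  · rw [indicator_of_notMem hv]
    refine Finset.sum_eq_zero fun n _ => ?_
    rw [indicator_of_notMem hv, mul_zero]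

/-- **the inequality for the slices in a fixed direction** -/
theorem omega_ineq {N : ℕ} (hk : 1 ≤ k) (hl : 0 ≤ lam)
    (hc : 0 < ((k : ℝ) / 2) ^ 2 - (k : ℝ) / 2 + lam) {B : ℝ} (hB : 0 < B) (U : Fin N → V m → ℂ)
    (hU : ∀ n, Half k m lam (U n))
    (hG : ∀ b : Fin N → ℂ, ∫ v in HS m, v 0 ^ k * ‖∑ n, b n * U n v‖ ^ 2 ≤ B * ∑ n, ‖b n‖ ^ 2) :
    IntegrableOn (fun v => v 0 ^ k * (∑ n, ‖U n v‖ ^ 2) ^ (1 + 2 / ((k + m + 1 : ℕ) : ℝ))) (HS m) ∧
    CL3 k m (((k : ℝ) / 2) ^ 2 - (k : ℝ) / 2 + lam) (1 / B) *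
      ∫ v in HS m, v 0 ^ k * (∑ n, ‖U n v‖ ^ 2) ^ (1 + 2 / ((k + m + 1 : ℕ) : ℝ)) ≤
      ∑ n, ((∫ v in HS m, v 0 ^ k * (‖dU (U n) 0 v‖ ^ 2 + lam * (‖U n v‖ ^ 2 / v 0 ^ 2))) +
        ∑ j : Fin m, ∫ v in HS m, v 0 ^ k * ‖dU (U n) j.succ v‖ ^ 2) := by
  set c := ((k : ℝ) / 2) ^ 2 - (k : ℝ) / 2 + lam with hcdef
  set s : ℝ := 1 / B with hs
  have hs0 : 0 < s := by positivity
  have hsq : √s ^ 2 = s := Real.sq_sqrt hs0.le
  set w : Fin N → V m → ℂ := fun n v => ((√s : ℝ) : ℂ) * ff k (U n) v with hw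
  set gw : Fin N → Fin (m + 1) → V m → ℂ := fun n i v => ((√s : ℝ) : ℂ) * gg k (U n) i v with hgw
  have hW : ∀ n, LTd.WGradC (w n) (gw n) := fun n => wgrad_smul ((hU n).wgrad hk hl hc) (√s)
  have hnw : ∀ z : ℂ, ‖((√s : ℝ) : ℂ) * z‖ ^ 2 = s * ‖z‖ ^ 2 := by
    intro z
    rw [norm_mul, mul_pow, Complex.norm_real, Real.norm_eq_abs, sq_abs, hsq]
  have hGw : ∀ b : Fin N → ℂ, ∫ v, ‖∑ n, b n * w n v‖ ^ 2 ≤ ∑ n, ‖b n‖ ^ 2 := by
    intro b
    have e1 : ∀ v, ‖∑ n, b n * w n v‖ ^ 2 =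
        s * (HS m).indicator (fun v => v 0 ^ k * ‖∑ n, b n * U n v‖ ^ 2) v := by
      intro v
      have e2 : ∑ n, b n * w n v = ((√s : ℝ) : ℂ) * ff k (fun v => ∑ n, b n * U n v) v := by
        rw [← sum_ff, Finset.mul_sum]
        refine Finset.sum_congr rfl fun n _ => ?_
        simp only [hw]
        ring
      rw [e2, hnw, ff_norm]
    simp only [e1]
    rw [integral_const_mul, integral_indicator (HS_meas m)]
    calc s * ∫ v in HS m, v 0 ^ k * ‖∑ n, b n * U n v‖ ^ 2 ≤ s * (B * ∑ n, ‖b n‖ ^ 2) :=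
          mul_le_mul_of_nonneg_left (hG b) hs0.le
      _ = ∑ n, ‖b n‖ ^ 2 := by
          rw [hs]
          field_simp
  have hL := lt_gram m N w gw hW hGw
  -- the density
  set P : V m → ℝ := fun v => ∑ n, ‖U n v‖ ^ 2 with hP
  have hP0 : ∀ v, 0 ≤ P v := fun v => Finset.sum_nonneg fun n _ => sq_nonneg _
  have hPc : ContinuousOn P (HS m) := by
    refine continuousOn_finsetSum _ fun n _ => ?_
    exact (hU n).cU.norm.pow 2
  have hp1 : (0 : ℝ) < 1 + 2 / ((m + 1 : ℕ) : ℝ) := by positivity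
  have hdens : (fun v => (∑ n, ‖w n v‖ ^ 2) ^ (1 + 2 / ((m + 1 : ℕ) : ℝ))) =
      (HS m).indicator (fun v => (s * v 0 ^ k * P v) ^ (1 + 2 / ((m + 1 : ℕ) : ℝ))) := by
    funext v
    have e1 : ∑ n, ‖w n v‖ ^ 2 = ∑ n, s * (HS m).indicator (fun v => v 0 ^ k * ‖U n v‖ ^ 2) v := by
      refine Finset.sum_congr rfl fun n _ => ?_
      simp only [hw]
      rw [hnw, ff_norm]
    rw [e1]
    by_cases hv : v ∈ HS m
    · rw [indicator_of_mem hv]
      congr 1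
      simp only [hP]
      rw [Finset.mul_sum]
      refine Finset.sum_congr rfl fun n _ => ?_
      rw [indicator_of_mem hv]
      ring
    · rw [indicator_of_notMem hv]
      have : ∑ n, s * (HS m).indicator (fun v => v 0 ^ k * ‖U n v‖ ^ 2) v = 0 := by
        refine Finset.sum_eq_zero fun n _ => ?_
        rw [indicator_of_notMem hv, mul_zero]
      rw [this]
      exact Real.zero_rpow hp1.ne'
  rw [hdens, integrable_indicator_iff (HS_meas m), integral_indicator (HS_meas m)] at hL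
  -- the centrifugal part
  have hcen : ∀ n, IntegrableOn (fun v => v 0 ^ k * ‖U n v‖ ^ 2 / v 0 ^ 2) (HS m) := by
    intro n
    have h2 := ((hU n).energy hk hl hc).1
    rw [← hcdef] at h2
    refine Integrable.mono' (h2.const_mul c⁻¹) ?_ ?_
    · refine ContinuousOn.aestronglyMeasurable ?_ (HS_meas m)
      exact (((c0 m).pow k).mul ((hU n).cU.norm.pow 2)).div ((c0 m).pow 2)
        fun v hv => pow_ne_zero 2 (ne_of_gt hv)
    · refine (ae_restrict_mem (HS_meas m)).mono fun v hv => ?_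
      have hv0 : 0 < v 0 := hv
      rw [Real.norm_eq_abs, abs_of_nonneg (by positivity)]
      unfold en2
      rw [ff_norm, indicator_of_mem hv, mul_add, ← mul_assoc, inv_mul_cancel₀ hc.ne', one_mul]
      have : 0 ≤ c⁻¹ * ‖gg k (U n) 0 v‖ ^ 2 := by positivity
      linarith
  have hgi : ∀ n i, Integrable (fun v => ‖gg k (U n) i v‖ ^ 2) := fun n i =>
    (gg_memLp (hU n) hk hl hc i).integrable_norm_pow two_ne_zero
  have henergy : ∀ n, (∫ v, ‖gg k (U n) 0 v‖ ^ 2) +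
      c * ∫ v in HS m, v 0 ^ k * ‖U n v‖ ^ 2 / v 0 ^ 2 ≤
      ∫ v in HS m, v 0 ^ k * (‖dU (U n) 0 v‖ ^ 2 + lam * (‖U n v‖ ^ 2 / v 0 ^ 2)) := by
    intro n
    have h2 := ((hU n).energy hk hl hc).2
    rw [← hcdef] at h2
    refine le_trans (le_of_eq ?_) h2
    have e1 : ∫ v, ‖gg k (U n) 0 v‖ ^ 2 = ∫ v in HS m, ‖gg k (U n) 0 v‖ ^ 2 := by
      rw [← integral_indicator (HS_meas m)]
      congr 1
      funext v
      by_cases hv : v ∈ HS m
      · rw [indicator_of_mem hv]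
      · rw [indicator_of_notMem hv]
        unfold gg
        rw [indicator_of_notMem hv]
        simp
    rw [e1, ← integral_const_mul, ← integral_add (hgi n 0).integrableOn ((hcen n).const_mul c)]
    refine setIntegral_congr_fun (HS_meas m) fun v hv => ?_
    unfold en2
    rw [ff_norm, indicator_of_mem hv]
  have htan : ∀ n (j : Fin m), ∫ v, ‖gg k (U n) j.succ v‖ ^ 2 =
      ∫ v in HS m, v 0 ^ k * ‖dU (U n) j.succ v‖ ^ 2 := by
    intro n j
    simp only [gg_succ_norm]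
    rw [integral_indicator (HS_meas m)]
  -- the pointwise inequality
  have hPint : IntegrableOn (fun v => s * v 0 ^ k * P v / v 0 ^ 2) (HS m) := by
    have h2 : IntegrableOn (fun v => s * ∑ n, v 0 ^ k * ‖U n v‖ ^ 2 / v 0 ^ 2) (HS m) :=
      (integrable_finsetSum _ fun n _ => hcen n).const_mul s
    refine h2.congr_fun (fun v _ => ?_) (HS_meas m)
    simp only [hP]
    rw [← Finset.sum_div, ← Finset.mul_sum]
    ring
  have hpt : ∀ v ∈ HS m, CL3 k m c s * (s * (v 0 ^ k * P v ^ (1 + 2 / ((k + m + 1 : ℕ) : ℝ)))) ≤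
      K1 m * (s * v 0 ^ k * P v) ^ (1 + 2 / ((m + 1 : ℕ) : ℝ)) + c * (s * v 0 ^ k * P v / v 0 ^ 2) := by
    intro v hv
    rw [← mul_assoc s]
    exact ptw3 hk m hc hs0 hv (hP0 v)
  have hCL : 0 < CL3 k m c s := CL3_pos hk hc hs0
  have hR : IntegrableOn (fun v => K1 m * (s * v 0 ^ k * P v) ^ (1 + 2 / ((m + 1 : ℕ) : ℝ)) +
      c * (s * v 0 ^ k * P v / v 0 ^ 2)) (HS m) :=
    Integrable.add (Integrable.const_mul hL.1 _) (hPint.const_mul c)
  have hI : IntegrableOn (fun v => v 0 ^ k * P v ^ (1 + 2 / ((k + m + 1 : ℕ) : ℝ))) (HS m) := by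
    refine Integrable.mono' (Integrable.const_mul hR (CL3 k m c s * s)⁻¹) ?_ ?_
    · refine ContinuousOn.aestronglyMeasurable ?_ (HS_meas m)
      exact ((c0 m).pow k).mul (hPc.rpow_const fun v _ => Or.inr (by positivity))
    · refine (ae_restrict_mem (HS_meas m)).mono fun v hv => ?_
      have hv0 : 0 < v 0 := hv
      have h3 := hpt v hv
      have h4 : 0 ≤ v 0 ^ k * P v ^ (1 + 2 / ((k + m + 1 : ℕ) : ℝ)) :=
        mul_nonneg (by positivity) (Real.rpow_nonneg (hP0 v) _)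
      rw [Real.norm_eq_abs, abs_of_nonneg h4, ← div_eq_inv_mul, le_div_iff₀ (by positivity)]
      refine le_trans (le_of_eq ?_) h3
      ring
  refine ⟨hI, ?_⟩
  have h5 := setIntegral_mono_on ((hI.const_mul s).const_mul (CL3 k m c s)) hR (HS_meas m) hpt
  rw [integral_const_mul, integral_const_mul, integral_add (Integrable.const_mul hL.1 _)
    (hPint.const_mul c), integral_const_mul, integral_const_mul] at h5
  have h6 : ∫ v in HS m, s * v 0 ^ k * P v / v 0 ^ 2 =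
      s * ∑ n, ∫ v in HS m, v 0 ^ k * ‖U n v‖ ^ 2 / v 0 ^ 2 := by
    rw [← integral_finsetSum _ fun n _ => hcen n, ← integral_const_mul]
    refine setIntegral_congr_fun (HS_meas m) fun v _ => ?_
    simp only [hP]
    rw [← Finset.sum_div, ← Finset.mul_sum]
    ring
  have h7 : ∑ n, ∑ i, ∫ v, ‖gw n i v‖ ^ 2 = s * ∑ n, ((∫ v, ‖gg k (U n) 0 v‖ ^ 2) +
      ∑ j : Fin m, ∫ v in HS m, v 0 ^ k * ‖dU (U n) j.succ v‖ ^ 2) := by
    rw [Finset.mul_sum]
    refine Finset.sum_congr rfl fun n _ => ?_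
    rw [Fin.sum_univ_succ, mul_add, Finset.mul_sum]
    simp only [hgw, hnw]
    rw [integral_const_mul]
    congr 1
    refine Finset.sum_congr rfl fun j _ => ?_
    rw [integral_const_mul, htan n j]
  have hL2 := hL.2
  rw [h7] at hL2
  rw [h6] at h5
  have h8 : s * (CL3 k m c s * ∫ v in HS m, v 0 ^ k * P v ^ (1 + 2 / ((k + m + 1 : ℕ) : ℝ))) ≤
      s * ∑ n, ((∫ v in HS m, v 0 ^ k * (‖dU (U n) 0 v‖ ^ 2 + lam * (‖U n v‖ ^ 2 / v 0 ^ 2))) +
        ∑ j : Fin m, ∫ v in HS m, v 0 ^ k * ‖dU (U n) j.succ v‖ ^ 2) := by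
    calc s * (CL3 k m c s * ∫ v in HS m, v 0 ^ k * P v ^ (1 + 2 / ((k + m + 1 : ℕ) : ℝ)))
        = CL3 k m c s * (s * ∫ v in HS m, v 0 ^ k * P v ^ (1 + 2 / ((k + m + 1 : ℕ) : ℝ))) := by
          ring
      _ ≤ K1 m * (∫ v in HS m, (s * v 0 ^ k * P v) ^ (1 + 2 / ((m + 1 : ℕ) : ℝ))) +
            c * (s * ∑ n, ∫ v in HS m, v 0 ^ k * ‖U n v‖ ^ 2 / v 0 ^ 2) := h5
      _ ≤ s * (∑ n, ((∫ v, ‖gg k (U n) 0 v‖ ^ 2) +
            ∑ j : Fin m, ∫ v in HS m, v 0 ^ k * ‖dU (U n) j.succ v‖ ^ 2)) +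
            c * (s * ∑ n, ∫ v in HS m, v 0 ^ k * ‖U n v‖ ^ 2 / v 0 ^ 2) :=
          add_le_add_left hL2 _
      _ = s * ∑ n, (((∫ v, ‖gg k (U n) 0 v‖ ^ 2) +
            c * ∫ v in HS m, v 0 ^ k * ‖U n v‖ ^ 2 / v 0 ^ 2) +
            ∑ j : Fin m, ∫ v in HS m, v 0 ^ k * ‖dU (U n) j.succ v‖ ^ 2) := by
          have e1 : ∑ n, (((∫ v, ‖gg k (U n) 0 v‖ ^ 2) +
            c * ∫ v in HS m, v 0 ^ k * ‖U n v‖ ^ 2 / v 0 ^ 2) +
            ∑ j : Fin m, ∫ v in HS m, v 0 ^ k * ‖dU (U n) j.succ v‖ ^ 2) =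
            (∑ n, ((∫ v, ‖gg k (U n) 0 v‖ ^ 2) +
            ∑ j : Fin m, ∫ v in HS m, v 0 ^ k * ‖dU (U n) j.succ v‖ ^ 2)) +
            c * ∑ n, ∫ v in HS m, v 0 ^ k * ‖U n v‖ ^ 2 / v 0 ^ 2 := by
            rw [Finset.mul_sum, ← Finset.sum_add_distrib]
            refine Finset.sum_congr rfl fun n _ => ?_
            ring
          rw [e1]
          ring
      _ ≤ _ := by
          refine mul_le_mul_of_nonneg_left (Finset.sum_le_sum fun n _ => ?_) hs0.le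
          exact add_le_add_left (henergy n) _
  exact le_of_mul_le_mul_left h8 hs0

end Pool.Agent.K7.H4.LT
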