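import Pool.Agent.R117.RL.Rad

/-!
Polar coordinates in the first factor of `ℝ^(k+1) × ℝ^m`.
-/

set_option autoImplicit false

open MeasureTheory Set Filter Topology Metric
open scoped ENNReal

namespace Pool.Agent.K7.H4.LT

open Pool.Agent.R117.RL

/-- the unit sphere of `ℝ^(k+1)` -/
abbrev Sp (k : ℕ) := sphere (0 : E (k + 1)) 1

/-- the surface measure -/
noncomputable def tau (k : ℕ) : Measure (Sp k) := (volume : Measure (E (k + 1))).toSphere

instance (k : ℕ) : IsFiniteMeasure (tau k) := by
  unfold tau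
  infer_instance

/-- the space of the pairs `(r, z)` -/
abbrev V (m : ℕ) := Fin (m + 1) → ℝ

/-- the half space `r > 0` -/
def HS (m : ℕ) : Set (V m) := {v | 0 < v 0}

theorem HS_meas (m : ℕ) : MeasurableSet (HS m) :=
  measurableSet_lt measurable_const (measurable_pi_apply 0)

theorem HS_open (m : ℕ) : IsOpen (HS m) := isOpen_lt continuous_const (continuous_apply 0)

/-- the map `(ω, (r, z)) ↦ (r ω, z)` -/
def Psi (k m : ℕ) (q : Sp k × V m) : E (k + 1) × (Fin m → ℝ) :=
  (q.2 0 • (q.1 : E (k + 1)), Fin.tail q.2)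

theorem tail_cont {m : ℕ} : Continuous (fun v : V m => (Fin.tail v : Fin m → ℝ)) :=
  continuous_pi fun i => continuous_apply i.succ

theorem Psi_cont (k m : ℕ) : Continuous (Psi k m) := by
  unfold Psi
  refine Continuous.prodMk ?_ (tail_cont.comp continuous_snd)
  exact ((continuous_apply 0).comp continuous_snd).smul (continuous_subtype_val.comp continuous_fst)

/-- polar coordinates for the integral of nonnegative functions -/
theorem polar_lint (k : ℕ) {F : E (k + 1) → ℝ≥0∞} (hF : Measurable F) :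
    ∫⁻ x, F x = ∫⁻ ω : Sp k, ∫⁻ r in Ioi (0 : ℝ), ENNReal.ofReal (r ^ k) * F (r • (ω : E (k + 1)))
      ∂volume ∂(tau k) := by
  have hdim : Module.finrank ℝ (E (k + 1)) - 1 = k := by
    rw [finrank_euclideanSpace_fin]
    rfl
  have hmp := (volume : Measure (E (k + 1))).measurePreserving_homeomorphUnitSphereProd
  rw [hdim] at hmp
  have hc : Continuous (fun q : Sp k × Ioi (0 : ℝ) => (q.2 : ℝ) • (q.1 : E (k + 1))) := by fun_prop
  have hm : Measurable (fun q : Sp k × Ioi (0 : ℝ) => F ((q.2 : ℝ) • (q.1 : E (k + 1)))) :=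
    hF.comp hc.measurable
  have h1 := hmp.lintegral_comp hm
  have h2 : ∫⁻ x : ({(0 : E (k + 1))}ᶜ : Set (E (k + 1))),
      F (((homeomorphUnitSphereProd (E (k + 1)) x).2 : ℝ) •
        ((homeomorphUnitSphereProd (E (k + 1)) x).1 : E (k + 1)))
        ∂((volume : Measure (E (k + 1))).comap (↑)) = ∫⁻ x, F x := by
    have h3 : ∀ x : ({(0 : E (k + 1))}ᶜ : Set (E (k + 1))),
        F (((homeomorphUnitSphereProd (E (k + 1)) x).2 : ℝ) •
        ((homeomorphUnitSphereProd (E (k + 1)) x).1 : E (k + 1))) = F x := by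
      intro x
      congr 1
      have hx0 : ‖(x : E (k + 1))‖ ≠ 0 := norm_ne_zero_iff.2 x.2
      rw [homeomorphUnitSphereProd_apply_snd_coe, homeomorphUnitSphereProd_apply_fst_coe,
        smul_smul, mul_inv_cancel₀ hx0, one_smul]
    rw [lintegral_congr h3, lintegral_subtype_comap (measurableSet_singleton _).compl,
      restrict_compl_singleton]
  rw [← h2, h1, lintegral_prod _ hm.aemeasurable]
  refine lintegral_congr fun ω => ?_
  unfold Measure.volumeIoiPow
  have hm2 : Measurable (fun r : Ioi (0 : ℝ) => F ((r : ℝ) • (ω : E (k + 1)))) := by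
    refine hF.comp ?_
    exact (measurable_subtype_coe.smul_const _)
  rw [lintegral_withDensity_eq_lintegral_mul _
    ((measurable_subtype_coe.pow_const k).ennreal_ofReal) hm2]
  exact lintegral_subtype_comap measurableSet_Ioi
    (fun r : ℝ => ENNReal.ofReal (r ^ k) * F (r • (ω : E (k + 1))))

/-- the measure `r ^ k dr dz` on the half space -/
noncomputable def nu (k m : ℕ) : Measure (V m) :=
  (volume.restrict (HS m)).withDensity fun v => ENNReal.ofReal (v 0 ^ k)

theorem dens_meas (k m : ℕ) : Measurable (fun v : V m => ENNReal.ofReal (v 0 ^ k)) :=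
  ((measurable_pi_apply 0).pow_const k).ennreal_ofReal

instance (k m : ℕ) : SFinite (nu k m) := by
  unfold nu
  infer_instance

/-- slices of integrals over `ℝ^(m+1)` -/
theorem slice_lint {m : ℕ} {F : V m → ℝ≥0∞} (hF : Measurable F) :
    ∫⁻ v, F v = ∫⁻ z : Fin m → ℝ, ∫⁻ r : ℝ, F (Fin.cons r z : V m) := by
  have h := (volume_preserving_piFinSuccAbove (fun _ : Fin (m + 1) => ℝ) 0).symm
  rw [← h.lintegral_comp hF, Measure.volume_eq_prod]
  rw [lintegral_prod_symm]
  · refine lintegral_congr fun z => lintegral_congr fun r => ?_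
    show F (Fin.insertNth 0 r z) = F (Fin.cons r z)
    rw [Fin.insertNth_zero']
  · exact (hF.comp (MeasurableEquiv.measurable _)).aemeasurable

theorem cons_meas {m : ℕ} : Measurable (fun p : ℝ × (Fin m → ℝ) => (Fin.cons p.1 p.2 : V m)) := by
  rw [measurable_pi_iff]
  intro i
  refine Fin.cases ?_ (fun i => ?_) i
  · simp only [Fin.cons_zero]
    exact measurable_fst
  · simp only [Fin.cons_succ]
    exact (measurable_pi_apply i).comp measurable_snd

theorem cons_cont {m : ℕ} : Continuous (fun p : ℝ × (Fin m → ℝ) => (Fin.cons p.1 p.2 : V m)) := by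
  rw [continuous_pi_iff]
  intro i
  refine Fin.cases ?_ (fun i => ?_) i
  · simp only [Fin.cons_zero]
    exact continuous_fst
  · simp only [Fin.cons_succ]
    exact (continuous_apply i).comp continuous_snd

theorem nu_lint {k m : ℕ} {F : V m → ℝ≥0∞} (hF : Measurable F) :
    ∫⁻ v, F v ∂(nu k m) = ∫⁻ v in HS m, ENNReal.ofReal (v 0 ^ k) * F v := by
  unfold nu
  rw [lintegral_withDensity_eq_lintegral_mul _ (dens_meas k m) hF]
  rfl

theorem nu_lint' {k m : ℕ} {F : V m → ℝ≥0∞} (hF : Measurable F) :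
    ∫⁻ v, F v ∂(nu k m) = ∫⁻ z : Fin m → ℝ, ∫⁻ r in Ioi (0 : ℝ),
      ENNReal.ofReal (r ^ k) * F (Fin.cons r z : V m) := by
  rw [nu_lint hF, ← lintegral_indicator (HS_meas m), slice_lint]
  · refine lintegral_congr fun z => ?_
    rw [← lintegral_indicator measurableSet_Ioi]
    refine lintegral_congr fun r => ?_
    by_cases hr : 0 < r
    · rw [indicator_of_mem (show (Fin.cons r z : V m) ∈ HS m from by
        show 0 < (Fin.cons r z : V m) 0
        rwa [Fin.cons_zero]), indicator_of_mem (show r ∈ Ioi (0 : ℝ) from hr)]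
      rw [Fin.cons_zero]
    · rw [indicator_of_notMem (show (Fin.cons r z : V m) ∉ HS m from by
        show ¬ 0 < (Fin.cons r z : V m) 0
        rwa [Fin.cons_zero]), indicator_of_notMem (show r ∉ Ioi (0 : ℝ) from hr)]
  · exact ((dens_meas k m).mul hF).indicator (HS_meas m)

/-- **polar coordinates in the first factor** -/
theorem Psi_mp (k m : ℕ) : MeasurePreserving (Psi k m) ((tau k).prod (nu k m)) volume := by
  refine ⟨(Psi_cont k m).measurable, ?_⟩
  refine Measure.ext_of_lintegral _ fun F hF => ?_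
  rw [lintegral_map hF (Psi_cont k m).measurable]
  have hFP : Measurable (fun q => F (Psi k m q)) := hF.comp (Psi_cont k m).measurable
  rw [lintegral_prod _ hFP.aemeasurable]
  have h1 : ∀ ω : Sp k, ∫⁻ v, F (Psi k m (ω, v)) ∂(nu k m) =
      ∫⁻ z : Fin m → ℝ, ∫⁻ r in Ioi (0 : ℝ), ENNReal.ofReal (r ^ k) * F (r • (ω : E (k + 1)), z) := by
    intro ω
    rw [nu_lint' (k := k) (F := fun v => F (Psi k m (ω, v))) (hFP.comp measurable_prodMk_left)]
    refine lintegral_congr fun z => lintegral_congr fun r => ?_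
    unfold Psi
    simp only [Fin.cons_zero, Fin.tail_cons]
  rw [lintegral_congr h1, Measure.volume_eq_prod, lintegral_prod_symm _ hF.aemeasurable]
  have h2 : ∀ z : Fin m → ℝ, ∫⁻ y : E (k + 1), F (y, z) =
      ∫⁻ ω : Sp k, ∫⁻ r in Ioi (0 : ℝ), ENNReal.ofReal (r ^ k) * F (r • (ω : E (k + 1)), z)
        ∂volume ∂(tau k) := fun z => polar_lint k (hF.comp measurable_prodMk_right)
  rw [lintegral_congr h2, lintegral_lintegral_swap]
  refine Measurable.aemeasurable ?_
  refine Measurable.lintegral_prod_right' (f := fun (q : (Sp k × (Fin m → ℝ)) × ℝ) =>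
    ENNReal.ofReal (q.2 ^ k) * F (q.2 • (q.1.1 : E (k + 1)), q.1.2)) ?_
  refine Measurable.mul ((measurable_snd.pow_const k).ennreal_ofReal) (hF.comp ?_)
  refine Measurable.prodMk ?_ (measurable_snd.comp measurable_fst)
  exact measurable_snd.smul (measurable_subtype_coe.comp (measurable_fst.comp measurable_fst))

end Pool.Agent.K7.H4.LT
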