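import Pool.Agent.K7.H4.LT.Polar
import Mathlib.RingTheory.MvPolynomial.EulerIdentity

/-!
The functions of polynomials.
-/

set_option autoImplicit false

open MeasureTheory Set Filter Topology Metric MvPolynomial

namespace Pool.Agent.K7.H4.LT

open Pool.Agent.R117.RL (E)

variable {d : ℕ}

/-- the function of a polynomial -/
noncomputable def pe (p : MvPolynomial (Fin d) ℝ) (x : E d) : ℝ := eval (fun i => x i) p

/-- the Laplacian of a polynomial -/
noncomputable def lapp (p : MvPolynomial (Fin d) ℝ) : MvPolynomial (Fin d) ℝ :=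
  ∑ i, pderiv i (pderiv i p)

theorem pe_add (p q : MvPolynomial (Fin d) ℝ) (x : E d) : pe (p + q) x = pe p x + pe q x := by
  unfold pe
  rw [map_add]

theorem pe_mul (p q : MvPolynomial (Fin d) ℝ) (x : E d) : pe (p * q) x = pe p x * pe q x := by
  unfold pe
  rw [map_mul]

theorem pe_C (a : ℝ) (x : E d) : pe (C a) x = a := by
  unfold pe
  rw [eval_C]

theorem pe_X (i : Fin d) (x : E d) : pe (X i) x = x i := by
  unfold pe
  rw [eval_X]

theorem pe_zero (x : E d) : pe 0 x = 0 := by
  unfold pe
  rw [map_zero]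

theorem pe_smul (a : ℝ) (p : MvPolynomial (Fin d) ℝ) (x : E d) : pe (a • p) x = a * pe p x := by
  unfold pe
  rw [smul_eval]

theorem pe_sum {ι : Type*} (s : Finset ι) (p : ι → MvPolynomial (Fin d) ℝ) (x : E d) :
    pe (∑ i ∈ s, p i) x = ∑ i ∈ s, pe (p i) x := by
  unfold pe
  rw [map_sum]

theorem pe_deriv (p : MvPolynomial (Fin d) ℝ) (x : E d) :
    HasFDerivAt (pe p) (∑ i, pe (pderiv i p) x • (EuclideanSpace.proj i : E d →L[ℝ] ℝ)) x := by
  induction p using MvPolynomial.induction_on with
  | C a =>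
    have h1 : pe (C a : MvPolynomial (Fin d) ℝ) = fun _ => a := by
      funext y
      exact pe_C a y
    rw [h1]
    simp only [pderiv_C, pe_zero, zero_smul, Finset.sum_const_zero]
    exact hasFDerivAt_const _ _
  | add p q hp hq =>
    have h1 : pe (p + q) = fun y => pe p y + pe q y := by
      funext y
      exact pe_add p q y
    rw [h1]
    have h2 := hp.add hq
    have h3 : ∑ i, pe (pderiv i (p + q)) x • (EuclideanSpace.proj i : E d →L[ℝ] ℝ) =
        ∑ i, pe (pderiv i p) x • (EuclideanSpace.proj i : E d →L[ℝ] ℝ) +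
          ∑ i, pe (pderiv i q) x • (EuclideanSpace.proj i : E d →L[ℝ] ℝ) := by
      rw [← Finset.sum_add_distrib]
      refine Finset.sum_congr rfl fun i _ => ?_
      rw [map_add, pe_add, add_smul]
    rw [h3]
    exact h2
  | mul_X p j hp =>
    have h1 : pe (p * X j) = fun y => pe p y * y j := by
      funext y
      rw [pe_mul, pe_X]
    rw [h1]
    have h2 : HasFDerivAt (fun y : E d => y j) (EuclideanSpace.proj j : E d →L[ℝ] ℝ) x :=
      (EuclideanSpace.proj j : E d →L[ℝ] ℝ).hasFDerivAt
    have h3 := hp.mul h2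
    have h4 : ∑ i, pe (pderiv i (p * X j)) x • (EuclideanSpace.proj i : E d →L[ℝ] ℝ) =
        pe p x • (EuclideanSpace.proj j : E d →L[ℝ] ℝ) +
          x j • ∑ i, pe (pderiv i p) x • (EuclideanSpace.proj i : E d →L[ℝ] ℝ) := by
      have h5 : ∀ i, pe (pderiv i (p * X j)) x • (EuclideanSpace.proj i : E d →L[ℝ] ℝ) =
          (if i = j then pe p x • (EuclideanSpace.proj i : E d →L[ℝ] ℝ) else 0) +
            x j • (pe (pderiv i p) x • (EuclideanSpace.proj i : E d →L[ℝ] ℝ)) := by
        intro i
        rw [pderiv_mul, pe_add, pe_mul, pe_mul, pe_X, pderiv_X, add_smul, smul_smul, add_comm]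
        congr 1
        · by_cases h : i = j
          · subst h
            rw [if_pos rfl, Pi.single_eq_same]
            have : pe (1 : MvPolynomial (Fin d) ℝ) x = 1 := by
              unfold pe
              rw [map_one]
            rw [this, mul_one]
          · rw [if_neg h, Pi.single_eq_of_ne (Ne.symm h), pe_zero, mul_zero, zero_smul]
        · rw [mul_comm]
      rw [Finset.sum_congr rfl fun i _ => h5 i, Finset.sum_add_distrib, Finset.sum_ite_eq',
        if_pos (Finset.mem_univ j), ← Finset.smul_sum]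
    rw [h4]
    exact h3

theorem pe_fderiv (p : MvPolynomial (Fin d) ℝ) (x : E d) (i : Fin d) :
    fderiv ℝ (pe p) x (EuclideanSpace.single i 1) = pe (pderiv i p) x := by
  rw [(pe_deriv p x).fderiv, sum_apply]
  have h : ∀ j, (pe (pderiv j p) x • (EuclideanSpace.proj j : E d →L[ℝ] ℝ))
      (EuclideanSpace.single i 1) = if i = j then pe (pderiv i p) x else 0 := by
    intro j
    show pe (pderiv j p) x * (EuclideanSpace.single i (1 : ℝ) : E d) j = _
    by_cases h : i = j
    · subst h
      simp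
    · rw [if_neg h]
      have h2 : (EuclideanSpace.single i (1 : ℝ) : E d) j = 0 := by
        simp [Ne.symm h]
      rw [h2, mul_zero]
  rw [Finset.sum_congr rfl fun j _ => h j, Finset.sum_ite_eq, if_pos (Finset.mem_univ i)]

theorem pe_cont (p : MvPolynomial (Fin d) ℝ) : Continuous (pe p) :=
  continuous_iff_continuousAt.2 fun x => (pe_deriv p x).continuousAt

theorem pe_contDiff (p : MvPolynomial (Fin d) ℝ) : ContDiff ℝ 1 (pe p) := by
  rw [contDiff_one_iff_fderiv]
  refine ⟨fun x => (pe_deriv p x).differentiableAt, ?_⟩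
  have h : fderiv ℝ (pe p) =
      fun x => ∑ i, pe (pderiv i p) x • (EuclideanSpace.proj i : E d →L[ℝ] ℝ) := by
    funext x
    exact (pe_deriv p x).fderiv
  rw [h]
  exact continuous_finsetSum _ fun i _ => (pe_cont _).smul continuous_const

theorem pe_hom {p : MvPolynomial (Fin d) ℝ} {l : ℕ} (hp : p.IsHomogeneous l) (t : ℝ) (x : E d) :
    pe p (t • x) = t ^ l * pe p x := by
  unfold pe
  rw [eval_eq', eval_eq', Finset.mul_sum]
  refine Finset.sum_congr rfl fun a ha => ?_
  have h1 : ∑ i, a i = l := by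
    by_contra h
    rw [← Finsupp.degree_eq_sum] at h
    exact (mem_support_iff.1 ha) (hp.coeff_eq_zero h)
  have h2 : ∏ i, ((t • x) i) ^ a i = t ^ l * ∏ i, (x i) ^ a i := by
    rw [← h1, ← Finset.prod_pow_eq_pow_sum, ← Finset.prod_mul_distrib]
    refine Finset.prod_congr rfl fun i _ => ?_
    rw [PiLp.smul_apply, smul_eq_mul, mul_pow]
  rw [h2]
  ring

theorem euler {p : MvPolynomial (Fin d) ℝ} {l : ℕ} (hp : p.IsHomogeneous l) (x : E d) :
    ∑ i, x i * pe (pderiv i p) x = l * pe p x := by
  have h := congrArg (fun q => pe q x) hp.sum_X_mul_pderiv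
  simp only [pe_sum, pe_mul, pe_X] at h
  rw [h]
  unfold pe
  rw [nsmul_eq_mul, map_mul, map_natCast]

theorem lapp_hom {p : MvPolynomial (Fin d) ℝ} {l : ℕ} (hp : p.IsHomogeneous (l + 2)) :
    (lapp p).IsHomogeneous l := by
  refine IsHomogeneous.sum _ _ _ fun i _ => ?_
  exact (hp.pderiv (i := i)).pderiv (i := i)

theorem lapp_mul {p q : MvPolynomial (Fin d) ℝ} (hp : lapp p = 0) (hq : lapp q = 0) :
    lapp (p * q) = 2 * ∑ i, pderiv i p * pderiv i q := by
  have h : ∀ i, pderiv i (pderiv i (p * q)) = pderiv i (pderiv i p) * q +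
      2 * (pderiv i p * pderiv i q) + p * pderiv i (pderiv i q) := by
    intro i
    rw [pderiv_mul, map_add, pderiv_mul, pderiv_mul]
    ring
  unfold lapp at hp hq ⊢
  rw [Finset.sum_congr rfl fun i _ => h i, Finset.sum_add_distrib, Finset.sum_add_distrib,
    ← Finset.sum_mul, ← Finset.mul_sum, ← Finset.mul_sum, hp, hq]
  ring

theorem pe_inj {p q : MvPolynomial (Fin d) ℝ} (h : ∀ x, pe p x = pe q x) : p = q := by
  refine MvPolynomial.funext fun y => ?_
  exact h (WithLp.toLp 2 y)

end Pool.Agent.K7.H4.LT
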