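import Pool.Agent.K7.H4.LT.Fischer
import Pool.Agent.K7.H4.LT.Grad

/-!
Finite sums `∑ a_j(x) b_j(t)` on `ℝ^(k+1) × ℝ^m`.
-/

set_option autoImplicit false

open MeasureTheory Set Filter Topology Metric MvPolynomial

namespace Pool.Agent.K7.H4.LT

open Pool.Agent.R117.RL (E)

/-- the space `ℝ^(k+1) × ℝ^m` -/
abbrev XX (k m : ℕ) := E (k + 1) × (Fin m → ℝ)

/-- the kernels `h(z) P(y) b(t)`, `x = (y, z)` -/
def SepM (k m : ℕ) : Submonoid (XX k m → XX k m → ℝ) where
  carrier := {K | ∃ (h : (Fin m → ℝ) → ℝ) (P : MvPolynomial (Fin (k + 1)) ℝ) (b : XX k m → ℝ),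
    ContDiff ℝ 1 h ∧ Continuous b ∧ K = fun x t => h x.2 * pe P x.1 * b t}
  mul_mem' := by
    rintro K L ⟨h, P, b, h1, h2, rfl⟩ ⟨h', P', b', h3, h4, rfl⟩
    refine ⟨fun z => h z * h' z, P * P', fun t => b t * b' t, h1.mul h3, h2.mul h4, ?_⟩
    funext x t
    simp only [Pi.mul_apply, pe_mul]
    ring
  one_mem' := by
    refine ⟨fun _ => 1, 1, fun _ => 1, contDiff_const, continuous_const, ?_⟩
    funext x t
    have : pe (1 : MvPolynomial (Fin (k + 1)) ℝ) x.1 = 1 := by
      unfold pe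
      rw [map_one]
    simp only [Pi.one_apply, this]
    ring

/-- the algebra of separated kernels -/
noncomputable def SepA (k m : ℕ) : Subalgebra ℝ (XX k m → XX k m → ℝ) :=
  Algebra.adjoin ℝ (SepM k m : Set (XX k m → XX k m → ℝ))

theorem SepA_span (k m : ℕ) : Subalgebra.toSubmodule (SepA k m) =
    Submodule.span ℝ (SepM k m : Set (XX k m → XX k m → ℝ)) := by
  unfold SepA
  rw [Algebra.adjoin_eq_span, Submonoid.closure_eq]

variable {k m : ℕ}

theorem sep_x1 (i : Fin (k + 1)) : (fun (x _ : XX k m) => x.1 i) ∈ SepA k m := by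
  refine Algebra.subset_adjoin ⟨fun _ => 1, X i, fun _ => 1, contDiff_const, continuous_const, ?_⟩
  funext x t
  rw [pe_X]
  ring

theorem sep_t1 (i : Fin (k + 1)) : (fun (_ t : XX k m) => t.1 i) ∈ SepA k m := by
  refine Algebra.subset_adjoin ⟨fun _ => 1, C 1, fun t => t.1 i, contDiff_const, ?_, ?_⟩
  · exact (EuclideanSpace.proj i : E (k + 1) →L[ℝ] ℝ).continuous.comp continuous_fst
  · funext x t
    rw [pe_C]
    ring

theorem sep_x2 (j : Fin m) : (fun (x _ : XX k m) => x.2 j) ∈ SepA k m := by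
  refine Algebra.subset_adjoin ⟨fun z => z j, C 1, fun _ => 1, contDiff_apply ℝ ℝ j,
    continuous_const, ?_⟩
  funext x t
  rw [pe_C]
  ring

theorem sep_t2 (j : Fin m) : (fun (_ t : XX k m) => t.2 j) ∈ SepA k m := by
  refine Algebra.subset_adjoin ⟨fun _ => 1, C 1, fun t => t.2 j, contDiff_const, ?_, ?_⟩
  · exact (continuous_apply j).comp continuous_snd
  · funext x t
    rw [pe_C]
    ring

/-- the square of the Euclidean norm -/
noncomputable def qqD (u : XX k m) : ℝ := (∑ i, u.1 i ^ 2) + ∑ j, u.2 j ^ 2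

theorem sep_qq : (fun (x t : XX k m) => qqD (x - t)) ∈ SepA k m := by
  have h1 : (fun (x t : XX k m) => qqD (x - t)) =
      (∑ i, ((fun (x _ : XX k m) => x.1 i) - (fun (_ t : XX k m) => t.1 i)) ^ 2) +
        ∑ j, ((fun (x _ : XX k m) => x.2 j) - (fun (_ t : XX k m) => t.2 j)) ^ 2 := by
    funext x t
    simp only [qqD, Pi.add_apply, Finset.sum_apply, Pi.pow_apply, Pi.sub_apply, Prod.fst_sub,
      Prod.snd_sub, PiLp.sub_apply]
  rw [h1]
  refine Subalgebra.add_mem _ (Subalgebra.sum_mem _ fun i _ => ?_)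
    (Subalgebra.sum_mem _ fun j _ => ?_)
  · exact Subalgebra.pow_mem _ (Subalgebra.sub_mem _ (sep_x1 i) (sep_t1 i)) 2
  · exact Subalgebra.pow_mem _ (Subalgebra.sub_mem _ (sep_x2 j) (sep_t2 j)) 2

/-- the function `1 - |u| ^ 2 / s` -/
noncomputable def cc (s : ℝ) (u : XX k m) : ℝ := 1 - s⁻¹ * qqD u

theorem sep_cc (s : ℝ) (n : ℕ) : (fun (x t : XX k m) => cc s (x - t) ^ n) ∈ SepA k m := by
  have h1 : (fun (x t : XX k m) => cc s (x - t) ^ n) =
      (1 - s⁻¹ • (fun (x t : XX k m) => qqD (x - t))) ^ n := by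
    funext x t
    simp only [cc, Pi.pow_apply, Pi.sub_apply, Pi.smul_apply, Pi.one_apply, smul_eq_mul]
  rw [h1]
  exact Subalgebra.pow_mem _ (Subalgebra.sub_mem _ (Subalgebra.one_mem _)
    (Subalgebra.smul_mem _ sep_qq _)) n

/-- the functions `∑ h_j(z) P_j(y)` -/
noncomputable def PolS (k m : ℕ) : Submodule ℝ (XX k m → ℝ) :=
  Submodule.span ℝ {F | ∃ (h : (Fin m → ℝ) → ℝ) (P : MvPolynomial (Fin (k + 1)) ℝ),
    ContDiff ℝ 1 h ∧ F = fun x => h x.2 * pe P x.1}

theorem sep_int {K : XX k m → XX k m → ℝ} (hK : K ∈ SepA k m) {g : XX k m → ℝ}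
    (hg : Continuous g) (hgc : HasCompactSupport g) :
    (∀ x, Continuous (K x)) ∧ (fun x => ∫ t, K x t * g t) ∈ PolS k m := by
  have h0 : K ∈ Submodule.span ℝ (SepM k m : Set (XX k m → XX k m → ℝ)) := by
    rw [← SepA_span]
    exact hK
  have hi : ∀ b : XX k m → ℝ, Continuous b → Integrable (fun t => b t * g t) := fun b hb =>
    (hb.mul hg).integrable_of_hasCompactSupport hgc.mul_left
  clear hK
  induction h0 using Submodule.span_induction with
  | mem K hK =>
    obtain ⟨h, P, b, h1, h2, rfl⟩ := hK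
    refine ⟨fun x => continuous_const.mul h2, ?_⟩
    have h3 : (fun x : XX k m => ∫ t, h x.2 * pe P x.1 * b t * g t) =
        (∫ t, b t * g t) • fun x : XX k m => h x.2 * pe P x.1 := by
      funext x
      show _ = (∫ t, b t * g t) * (h x.2 * pe P x.1)
      rw [mul_comm (∫ t, b t * g t), ← integral_const_mul]
      refine integral_congr_ae (Eventually.of_forall fun t => ?_)
      ring
    rw [h3]
    exact Submodule.smul_mem _ _ (Submodule.subset_span ⟨h, P, h1, rfl⟩)
  | zero =>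
    refine ⟨fun x => continuous_const, ?_⟩
    have h3 : (fun x : XX k m => ∫ t, (0 : XX k m → XX k m → ℝ) x t * g t) = 0 := by
      funext x
      simp
    rw [h3]
    exact Submodule.zero_mem _
  | add K L _ _ h1 h2 =>
    refine ⟨fun x => (h1.1 x).add (h2.1 x), ?_⟩
    have h3 : (fun x : XX k m => ∫ t, (K + L) x t * g t) =
        (fun x => ∫ t, K x t * g t) + fun x => ∫ t, L x t * g t := by
      funext x
      show _ = (∫ t, K x t * g t) + ∫ t, L x t * g t
      rw [← integral_add (hi _ (h1.1 x)) (hi _ (h2.1 x))]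
      refine integral_congr_ae (Eventually.of_forall fun t => ?_)
      simp only [Pi.add_apply]
      ring
    rw [h3]
    exact Submodule.add_mem _ h1.2 h2.2
  | smul c K _ h1 =>
    refine ⟨fun x => continuous_const.mul (h1.1 x), ?_⟩
    have h3 : (fun x : XX k m => ∫ t, (c • K) x t * g t) = c • fun x => ∫ t, K x t * g t := by
      funext x
      show _ = c * ∫ t, K x t * g t
      rw [← integral_const_mul]
      refine integral_congr_ae (Eventually.of_forall fun t => ?_)
      simp only [Pi.smul_apply, smul_eq_mul]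
      ring
    rw [h3]
    exact Submodule.smul_mem _ c h1.2

end Pool.Agent.K7.H4.LT
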