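import Pool.Agent.K7.H4.LT.Polar
import Pool.Agent.R117.RL.Half2
import Pool.Agent.Helper717.LT.Defs

/-!
Functions on the half space `r > 0`: weak differentiability of `r ^ (k/2) U` and its energy.
-/

set_option autoImplicit false

open MeasureTheory Set Filter Topology Metric
open scoped ENNReal

namespace Pool.Agent.K7.H4.LT

open Pool.Agent.R117.RL

section slices
variable {m : ℕ} {F : Type} [NormedAddCommGroup F]

theorem slice_comp {f : V m → F} (hf : Integrable f) :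
    Integrable (fun p : ℝ × (Fin m → ℝ) => f (Fin.cons p.1 p.2 : V m)) (volume.prod volume) := by
  have h := (volume_preserving_piFinSuccAbove (fun _ : Fin (m + 1) => ℝ) 0).symm
  have hi2 : Integrable (fun p : ℝ × (Fin m → ℝ) =>
      f ((MeasurableEquiv.piFinSuccAbove (fun _ : Fin (m + 1) => ℝ) 0).symm p)) :=
    (h.integrable_comp_emb (MeasurableEquiv.measurableEmbedding _)).2 hf
  rw [Measure.volume_eq_prod] at hi2
  refine hi2.congr (ae_of_all _ fun p => ?_)
  show f (Fin.insertNth 0 p.1 p.2) = f (Fin.cons p.1 p.2)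
  rw [Fin.insertNth_zero']

theorem slice_ae {f : V m → F} (hf : Integrable f) :
    ∀ᵐ z : Fin m → ℝ, Integrable (fun r : ℝ => f (Fin.cons r z : V m)) :=
  (slice_comp hf).prod_left_ae

theorem slice_integral [NormedSpace ℝ F] {f : V m → F} (hf : Integrable f) :
    ∫ v, f v = ∫ z : Fin m → ℝ, ∫ r : ℝ, f (Fin.cons r z : V m) := by
  have h := (volume_preserving_piFinSuccAbove (fun _ : Fin (m + 1) => ℝ) 0).symm
  rw [← h.integral_comp' f, Measure.volume_eq_prod, ← integral_prod_symm _ (slice_comp hf)]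
  refine integral_congr_ae (ae_of_all _ fun p => ?_)
  show f (Fin.insertNth 0 p.1 p.2) = f (Fin.cons p.1 p.2)
  rw [Fin.insertNth_zero']

theorem slice_ind {F : Type} [Zero F] (g : V m → F) (z : Fin m → ℝ) (r : ℝ) :
    (HS m).indicator g (Fin.cons r z : V m) =
      (Ioi (0 : ℝ)).indicator (fun r => g (Fin.cons r z : V m)) r := by
  by_cases hr : 0 < r
  · rw [indicator_of_mem (show (Fin.cons r z : V m) ∈ HS m from by
      show 0 < (Fin.cons r z : V m) 0
      rwa [Fin.cons_zero]), indicator_of_mem (show r ∈ Ioi (0 : ℝ) from hr)]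
  · rw [indicator_of_notMem (show (Fin.cons r z : V m) ∉ HS m from by
      show ¬ 0 < (Fin.cons r z : V m) 0
      rwa [Fin.cons_zero]), indicator_of_notMem (show r ∉ Ioi (0 : ℝ) from hr)]

theorem slice_ae_on {g : V m → F} (hg : IntegrableOn g (HS m)) :
    ∀ᵐ z : Fin m → ℝ, IntegrableOn (fun r : ℝ => g (Fin.cons r z : V m)) (Ioi 0) := by
  rw [← integrable_indicator_iff (HS_meas m)] at hg
  filter_upwards [slice_ae hg] with z hz
  rw [← integrable_indicator_iff measurableSet_Ioi]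
  refine hz.congr (ae_of_all _ fun r => ?_)
  exact slice_ind g z r

theorem slice_lint_on {g : V m → ℝ≥0∞} (hg : AEMeasurable g (volume.restrict (HS m))) :
    ∫⁻ v in HS m, g v = ∫⁻ z : Fin m → ℝ, ∫⁻ r in Ioi (0 : ℝ), g (Fin.cons r z : V m) := by
  have h := (volume_preserving_piFinSuccAbove (fun _ : Fin (m + 1) => ℝ) 0).symm
  have hg2 : AEMeasurable ((HS m).indicator g) volume :=
    (aemeasurable_indicator_iff (HS_meas m)).2 hg
  rw [← lintegral_indicator (HS_meas m), ← h.lintegral_comp_emb (MeasurableEquiv.measurableEmbedding _),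
    Measure.volume_eq_prod, lintegral_prod_symm]
  · refine lintegral_congr fun z => ?_
    rw [← lintegral_indicator measurableSet_Ioi]
    refine lintegral_congr fun r => ?_
    rw [← slice_ind g z r]
    show (HS m).indicator g (Fin.insertNth 0 r z) = (HS m).indicator g (Fin.cons r z)
    rw [Fin.insertNth_zero']
  · rw [← Measure.volume_eq_prod]
    exact hg2.comp_quasiMeasurePreserving h.quasiMeasurePreserving

end slices

/-- partial derivatives -/
noncomputable def dU {m : ℕ} (U : V m → ℂ) (i : Fin (m + 1)) (v : V m) : ℂ :=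
  fderiv ℝ U v (Pi.single i 1)

/-- the conditions on a function on the half space -/
structure Half (k m : ℕ) (lam : ℝ) (U : V m → ℂ) : Prop where
  smooth : ContDiffOn ℝ 1 U (HS m)
  sq : IntegrableOn (fun v => v 0 ^ k * ‖U v‖ ^ 2) (HS m)
  en : IntegrableOn (fun v => v 0 ^ k * (‖dU U 0 v‖ ^ 2 + lam * (‖U v‖ ^ 2 / v 0 ^ 2))) (HS m)
  tan : ∀ j : Fin m, IntegrableOn (fun v => v 0 ^ k * ‖dU U j.succ v‖ ^ 2) (HS m)

/-- `r ^ (k/2) U`, extended by zero -/
noncomputable def ff (k : ℕ) {m : ℕ} (U : V m → ℂ) : V m → ℂ :=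
  (HS m).indicator fun v => (v 0 ^ ((k : ℝ) / 2)) • U v

/-- the weak derivatives of `r ^ (k/2) U` -/
noncomputable def gg (k : ℕ) {m : ℕ} (U : V m → ℂ) (i : Fin (m + 1)) : V m → ℂ :=
  (HS m).indicator fun v => (v 0 ^ ((k : ℝ) / 2)) • dU U i v +
    (if i = 0 then ((k : ℝ) / 2 * v 0 ^ ((k : ℝ) / 2 - 1)) • U v else 0)

theorem rpow_half_sq {k : ℕ} {r : ℝ} (hr : 0 < r) : (r ^ ((k : ℝ) / 2)) ^ 2 = r ^ k := by
  rw [← Real.rpow_natCast (r ^ ((k : ℝ) / 2)) 2, ← Real.rpow_mul hr.le, ← Real.rpow_natCast r k]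
  congr 1
  push_cast
  ring

variable {k m : ℕ} {lam : ℝ} {U : V m → ℂ}

theorem Half.hasF (h : Half k m lam U) {v : V m} (hv : v ∈ HS m) : HasFDerivAt U (fderiv ℝ U v) v :=
  ((h.smooth.differentiableOn one_ne_zero).differentiableAt ((HS_open m).mem_nhds hv)).hasFDerivAt

theorem Half.cU (h : Half k m lam U) : ContinuousOn U (HS m) := h.smooth.continuousOn

theorem Half.cdU (h : Half k m lam U) (i : Fin (m + 1)) : ContinuousOn (dU U i) (HS m) :=
  (h.smooth.continuousOn_fderiv_of_isOpen (HS_open m) le_rfl).clm_apply continuousOn_const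

theorem c0 (m : ℕ) : ContinuousOn (fun v : V m => v 0) (HS m) := (continuous_apply 0).continuousOn

theorem crp (m : ℕ) (a : ℝ) : ContinuousOn (fun v : V m => v 0 ^ a) (HS m) :=
  (c0 m).rpow_const fun v hv => Or.inl (ne_of_gt hv)

theorem Half.cff (h : Half k m lam U) :
    ContinuousOn (fun v : V m => (v 0 ^ ((k : ℝ) / 2)) • U v) (HS m) := (crp m _).smul h.cU

theorem Half.cgg (h : Half k m lam U) (i : Fin (m + 1)) :
    ContinuousOn (fun v : V m => (v 0 ^ ((k : ℝ) / 2)) • dU U i v +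
      (if i = 0 then ((k : ℝ) / 2 * v 0 ^ ((k : ℝ) / 2 - 1)) • U v else 0)) (HS m) := by
  refine ((crp m _).smul (h.cdU i)).add ?_
  split_ifs
  · exact (continuousOn_const.mul (crp m _)).smul h.cU
  · exact continuousOn_const

theorem ff_sq (v : V m) (hv : v ∈ HS m) :
    ‖(v 0 ^ ((k : ℝ) / 2)) • U v‖ ^ 2 = v 0 ^ k * ‖U v‖ ^ 2 := by
  rw [norm_smul, mul_pow, Real.norm_eq_abs, sq_abs, rpow_half_sq hv]

/-- the derivative of the slices -/
theorem cons_deriv (z : Fin m → ℝ) (r : ℝ) :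
    HasDerivAt (fun r : ℝ => (Fin.cons r z : V m)) (Pi.single 0 1) r := by
  rw [hasDerivAt_pi]
  intro i
  refine Fin.cases ?_ (fun i => ?_) i
  · simp only [Fin.cons_zero, Pi.single_eq_same]
    exact hasDerivAt_id r
  · simp only [Fin.cons_succ]
    rw [Pi.single_eq_of_ne (Fin.succ_ne_zero i)]
    exact hasDerivAt_const r _

theorem cons_mem {z : Fin m → ℝ} {r : ℝ} (hr : 0 < r) : (Fin.cons r z : V m) ∈ HS m := by
  show 0 < (Fin.cons r z : V m) 0
  rwa [Fin.cons_zero]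

/-- the slices of `r ^ (k/2) U` -/
noncomputable def h0 (k : ℕ) (U : V m → ℂ) (z : Fin m → ℝ) (r : ℝ) : ℂ :=
  (r ^ ((k : ℝ) / 2)) • U (Fin.cons r z)

/-- their derivatives -/
noncomputable def h1 (k : ℕ) (U : V m → ℂ) (z : Fin m → ℝ) (r : ℝ) : ℂ :=
  (r ^ ((k : ℝ) / 2)) • dU U 0 (Fin.cons r z) +
    ((k : ℝ) / 2 * r ^ ((k : ℝ) / 2 - 1)) • U (Fin.cons r z)

theorem Half.deriv (h : Half k m lam U) (z : Fin m → ℝ) (r : ℝ) (hr : 0 < r) :
    HasDerivAt (h0 k U z) (h1 k U z r) r := by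
  have e1 : HasDerivAt (fun r : ℝ => U (Fin.cons r z)) (dU U 0 (Fin.cons r z)) r :=
    (h.hasF (cons_mem hr)).comp_hasDerivAt r (cons_deriv z r)
  have e2 : HasDerivAt (fun r : ℝ => r ^ ((k : ℝ) / 2)) ((k : ℝ) / 2 * r ^ ((k : ℝ) / 2 - 1)) r :=
    Real.hasDerivAt_rpow_const (Or.inl hr.ne')
  exact e2.smul e1

theorem cons_contOn {X : Type} [TopologicalSpace X] {g : V m → X} (hg : ContinuousOn g (HS m))
    (z : Fin m → ℝ) : ContinuousOn (fun r : ℝ => g (Fin.cons r z)) (Ioi 0) := by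
  refine hg.comp ?_ fun r hr => cons_mem hr
  exact (cons_cont.comp (continuous_id.prodMk continuous_const)).continuousOn

theorem Half.ch1 (h : Half k m lam U) (z : Fin m → ℝ) : ContinuousOn (h1 k U z) (Ioi 0) := by
  have e1 : ContinuousOn (fun r : ℝ => r ^ ((k : ℝ) / 2)) (Ioi 0) :=
    continuousOn_id.rpow_const fun r hr => Or.inl (ne_of_gt hr)
  have e2 : ContinuousOn (fun r : ℝ => r ^ ((k : ℝ) / 2 - 1)) (Ioi 0) :=
    continuousOn_id.rpow_const fun r hr => Or.inl (ne_of_gt hr)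
  exact (e1.smul (cons_contOn (h.cdU 0) z)).add
    ((continuousOn_const.mul e2).smul (cons_contOn h.cU z))

theorem h0_sq (z : Fin m → ℝ) {r : ℝ} (hr : 0 < r) :
    ‖h0 k U z r‖ ^ 2 = r ^ k * ‖U (Fin.cons r z)‖ ^ 2 := by
  unfold h0
  rw [norm_smul, mul_pow, Real.norm_eq_abs, sq_abs, rpow_half_sq hr]

theorem h1_sub (z : Fin m → ℝ) {r : ℝ} (hr : 0 < r) :
    ‖h1 k U z r - ((k : ℝ) / 2 / r) • h0 k U z r‖ ^ 2 + lam * (‖h0 k U z r‖ ^ 2 / r ^ 2) =
      r ^ k * (‖dU U 0 (Fin.cons r z)‖ ^ 2 + lam * (‖U (Fin.cons r z)‖ ^ 2 / r ^ 2)) := by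
  have e1 : h1 k U z r - ((k : ℝ) / 2 / r) • h0 k U z r =
      (r ^ ((k : ℝ) / 2)) • dU U 0 (Fin.cons r z) := by
    unfold h1 h0
    rw [smul_smul, Real.rpow_sub_one hr.ne',
      show (k : ℝ) / 2 * (r ^ ((k : ℝ) / 2) / r) = (k : ℝ) / 2 / r * r ^ ((k : ℝ) / 2) by ring]
    abel
  rw [e1, h0_sq z hr, norm_smul, mul_pow, Real.norm_eq_abs, sq_abs, rpow_half_sq hr]
  ring

/-- the one-dimensional facts for almost all slices -/
theorem Half.slices (h : Half k m lam U) :
    ∀ᵐ z : Fin m → ℝ, IntegrableOn (fun r => ‖h0 k U z r‖ ^ 2) (Ioi 0) ∧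
      IntegrableOn (fun r => ‖h1 k U z r - ((k : ℝ) / 2 / r) • h0 k U z r‖ ^ 2 +
        lam * (‖h0 k U z r‖ ^ 2 / r ^ 2)) (Ioi 0) := by
  filter_upwards [slice_ae_on h.sq, slice_ae_on h.en] with z hz1 hz2
  constructor
  · refine hz1.congr_fun (fun r hr => ?_) measurableSet_Ioi
    simp only
    rw [h0_sq z hr, Fin.cons_zero]
  · refine hz2.congr_fun (fun r hr => ?_) measurableSet_Ioi
    simp only
    rw [h1_sub z hr, Fin.cons_zero]

theorem gg_zero_slice (z : Fin m → ℝ) (r : ℝ) : gg k U 0 (Fin.cons r z : V m) =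
    (Ioi (0 : ℝ)).indicator (h1 k U z) r := by
  unfold gg
  rw [slice_ind]
  rfl

theorem ff_slice (z : Fin m → ℝ) (r : ℝ) : ff k U (Fin.cons r z : V m) =
    (Ioi (0 : ℝ)).indicator (h0 k U z) r := by
  unfold ff
  rw [slice_ind]
  rfl

/-- the density of the energy with the centrifugal term -/
noncomputable def en2 (k : ℕ) (c : ℝ) (U : V m → ℂ) (v : V m) : ℝ :=
  ‖gg k U 0 v‖ ^ 2 + c * (‖ff k U v‖ ^ 2 / v 0 ^ 2)

theorem Half.meas_gg (h : Half k m lam U) (i : Fin (m + 1)) : AEStronglyMeasurable (gg k U i) volume := by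
  unfold gg
  rw [aestronglyMeasurable_indicator_iff (HS_meas m)]
  exact (h.cgg i).aestronglyMeasurable (HS_meas m)

theorem Half.meas_ff (h : Half k m lam U) : AEStronglyMeasurable (ff k U) volume := by
  unfold ff
  rw [aestronglyMeasurable_indicator_iff (HS_meas m)]
  exact h.cff.aestronglyMeasurable (HS_meas m)

theorem m0 (m : ℕ) : Measurable (fun v : V m => v 0) := measurable_pi_apply 0

theorem Half.meas_en2 (h : Half k m lam U) (c : ℝ) :
    AEStronglyMeasurable (en2 k c U) volume := by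
  unfold en2
  refine ((h.meas_gg 0).norm.pow 2).add (AEStronglyMeasurable.const_mul ?_ c)
  have h3 : AEMeasurable (fun v : V m => ‖ff k U v‖ ^ 2 / v 0 ^ 2) volume :=
    (h.meas_ff.norm.pow 2).aemeasurable.div ((m0 m).pow_const 2).aemeasurable
  exact h3.aestronglyMeasurable

/-- **the energy inequality on the half space** -/
theorem Half.energy (h : Half k m lam U) (hk : 1 ≤ k) (hl : 0 ≤ lam)
    (hc : 0 < ((k : ℝ) / 2) ^ 2 - (k : ℝ) / 2 + lam) :
    IntegrableOn (en2 k (((k : ℝ) / 2) ^ 2 - (k : ℝ) / 2 + lam) U) (HS m) ∧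
    ∫ v in HS m, en2 k (((k : ℝ) / 2) ^ 2 - (k : ℝ) / 2 + lam) U v ≤
      ∫ v in HS m, v 0 ^ k * (‖dU U 0 v‖ ^ 2 + lam * (‖U v‖ ^ 2 / v 0 ^ 2)) := by
  have hk' : (1 : ℝ) ≤ k := by exact_mod_cast hk
  have hα : 0 < (k : ℝ) / 2 := by positivity
  set c := ((k : ℝ) / 2) ^ 2 - (k : ℝ) / 2 + lam with hcdef
  set R : V m → ℝ := fun v => v 0 ^ k * (‖dU U 0 v‖ ^ 2 + lam * (‖U v‖ ^ 2 / v 0 ^ 2)) with hR
  have hR0 : ∀ v ∈ HS m, 0 ≤ R v := fun v hv => by
    have hv0 : 0 < v 0 := hv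
    simp only [hR]
    positivity
  have hE0 : ∀ v, 0 ≤ en2 k c U v := fun v => by
    unfold en2
    positivity
  have hmE := h.meas_en2 c
  have hlint : ∫⁻ v in HS m, ENNReal.ofReal (en2 k c U v) ≤ ∫⁻ v in HS m, ENNReal.ofReal (R v) := by
    rw [slice_lint_on hmE.aemeasurable.ennreal_ofReal.restrict,
      slice_lint_on h.en.aestronglyMeasurable.aemeasurable.ennreal_ofReal]
    refine lintegral_mono_ae ?_
    filter_upwards [h.slices] with z hz
    have ht := total2 hα hl hc (h.deriv z) (h.ch1 z) hz.1 hz.2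
    rw [← hcdef] at ht
    have e1 : ∫⁻ r in Ioi (0 : ℝ), ENNReal.ofReal (en2 k c U (Fin.cons r z : V m)) =
        ENNReal.ofReal (∫ r in Ioi (0 : ℝ), (‖h1 k U z r‖ ^ 2 + c * (‖h0 k U z r‖ ^ 2 / r ^ 2))) := by
      rw [ofReal_integral_eq_lintegral_ofReal ht.1 (ae_of_all _ fun r => by positivity)]
      refine setLIntegral_congr_fun measurableSet_Ioi fun r hr => ?_
      unfold en2
      rw [gg_zero_slice, ff_slice, indicator_of_mem hr, indicator_of_mem hr, Fin.cons_zero]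
    have e2 : ∫⁻ r in Ioi (0 : ℝ), ENNReal.ofReal (R (Fin.cons r z : V m)) =
        ENNReal.ofReal (∫ r in Ioi (0 : ℝ), (‖h1 k U z r - ((k : ℝ) / 2 / r) • h0 k U z r‖ ^ 2 +
          lam * (‖h0 k U z r‖ ^ 2 / r ^ 2))) := by
      rw [ofReal_integral_eq_lintegral_ofReal hz.2 (ae_of_all _ fun r => by positivity)]
      refine setLIntegral_congr_fun measurableSet_Ioi fun r hr => ?_
      rw [h1_sub z hr]
      simp only [hR, Fin.cons_zero]
    rw [e1, e2]
    exact ENNReal.ofReal_le_ofReal ht.2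
  have hRae : 0 ≤ᵐ[volume.restrict (HS m)] R :=
    (ae_restrict_mem (HS_meas m)).mono fun v hv => hR0 v hv
  rw [← ofReal_integral_eq_lintegral_ofReal h.en hRae] at hlint
  have hI : IntegrableOn (en2 k c U) (HS m) := by
    refine ⟨hmE.restrict, ?_⟩
    rw [hasFiniteIntegral_iff_ofReal (ae_of_all _ hE0)]
    exact lt_of_le_of_lt hlint ENNReal.ofReal_lt_top
  refine ⟨hI, ?_⟩
  rw [← ofReal_integral_eq_lintegral_ofReal hI (ae_of_all _ hE0)] at hlint
  exact (ENNReal.ofReal_le_ofReal_iff (setIntegral_nonneg (HS_meas m) hR0)).1 hlint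

theorem ind_sq_int {g : V m → ℂ} (hg : ContinuousOn g (HS m))
    (hi : IntegrableOn (fun v => ‖g v‖ ^ 2) (HS m)) : MemLp ((HS m).indicator g) 2 volume := by
  have hm : AEStronglyMeasurable ((HS m).indicator g) volume := by
    rw [aestronglyMeasurable_indicator_iff (HS_meas m)]
    exact hg.aestronglyMeasurable (HS_meas m)
  rw [memLp_two_iff_integrable_sq_norm hm]
  have e : (fun v => ‖(HS m).indicator g v‖ ^ 2) = (HS m).indicator (fun v => ‖g v‖ ^ 2) := by
    funext v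
    by_cases hv : v ∈ HS m
    · rw [indicator_of_mem hv, indicator_of_mem hv]
    · rw [indicator_of_notMem hv, indicator_of_notMem hv]
      simp
  rw [e]
  exact hi.integrable_indicator (HS_meas m)

theorem ff_memLp (h : Half k m lam U) : MemLp (ff k U) 2 volume := by
  refine ind_sq_int h.cff (h.sq.congr_fun (fun v hv => ?_) (HS_meas m))
  exact (ff_sq v hv).symm

theorem gg_memLp (h : Half k m lam U) (hk : 1 ≤ k) (hl : 0 ≤ lam)
    (hc : 0 < ((k : ℝ) / 2) ^ 2 - (k : ℝ) / 2 + lam) (i : Fin (m + 1)) :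
    MemLp (gg k U i) 2 volume := by
  refine ind_sq_int (h.cgg i) ?_
  refine Fin.cases ?_ (fun i => ?_) i
  · have h2 := (h.energy hk hl hc).1
    refine Integrable.mono' h2 ?_ ?_
    · exact ((h.cgg 0).norm.pow 2).aestronglyMeasurable (HS_meas m)
    · refine (ae_restrict_mem (HS_meas m)).mono fun v hv => ?_
      rw [Real.norm_eq_abs, abs_of_nonneg (sq_nonneg _)]
      unfold en2 gg
      rw [indicator_of_mem hv]
      have : 0 ≤ (((k : ℝ) / 2) ^ 2 - (k : ℝ) / 2 + lam) * (‖ff k U v‖ ^ 2 / v 0 ^ 2) := by positivity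
      linarith
  · refine (h.tan i).congr_fun (fun v hv => ?_) (HS_meas m)
    simp only
    rw [if_neg (Fin.succ_ne_zero i), add_zero, norm_smul, mul_pow, Real.norm_eq_abs, sq_abs,
      rpow_half_sq hv]

end Pool.Agent.K7.H4.LT
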