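import Pool.Agent.K7.H4.LT.Slice

/-!
Weak differentiability of `r ^ (k/2) U`, extended by zero.
-/

set_option autoImplicit false

open MeasureTheory Set Filter Topology Metric
open scoped ENNReal

namespace Pool.Agent.K7.H4.LT

open Pool.Agent.R117.RL

variable {k m : ℕ} {lam : ℝ} {U : V m → ℂ}

theorem mem_add {x : V m} (j : Fin m) (t : ℝ) :
    (x + t • (Pi.single j.succ 1 : V m)) ∈ HS m ↔ x ∈ HS m := by
  show 0 < (x + t • (Pi.single j.succ 1 : V m)) 0 ↔ 0 < x 0
  rw [Pi.add_apply, Pi.smul_apply, Pi.single_eq_of_ne (Fin.succ_ne_zero j).symm, smul_zero, add_zero]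

theorem add_zero' {x : V m} (j : Fin m) (t : ℝ) :
    (x + t • (Pi.single j.succ 1 : V m)) 0 = x 0 := by
  rw [Pi.add_apply, Pi.smul_apply, Pi.single_eq_of_ne (Fin.succ_ne_zero j).symm, smul_zero, add_zero]

theorem Half.line (h : Half k m lam U) (j : Fin m) (x : V m) :
    HasLineDerivAt ℝ (ff k U) (gg k U j.succ x) x (Pi.single j.succ 1) := by
  unfold HasLineDerivAt
  by_cases hx : x ∈ HS m
  · have e1 : (fun t : ℝ => ff k U (x + t • (Pi.single j.succ 1 : V m))) =
        fun t : ℝ => (x 0 ^ ((k : ℝ) / 2)) • U (x + t • (Pi.single j.succ 1 : V m)) := by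
      funext t
      unfold ff
      rw [indicator_of_mem ((mem_add j t).2 hx), add_zero']
    have e2 : gg k U j.succ x = (x 0 ^ ((k : ℝ) / 2)) • dU U j.succ x := by
      unfold gg
      rw [indicator_of_mem hx, if_neg (Fin.succ_ne_zero j), add_zero]
    rw [e1, e2]
    have e3 := ((h.hasF hx).hasLineDerivAt (Pi.single j.succ 1))
    unfold HasLineDerivAt at e3
    exact e3.const_smul (x 0 ^ ((k : ℝ) / 2))
  · have e1 : (fun t : ℝ => ff k U (x + t • (Pi.single j.succ 1 : V m))) = fun _ => 0 := by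
      funext t
      unfold ff
      rw [indicator_of_notMem (fun h => hx ((mem_add j t).1 h))]
    have e2 : gg k U j.succ x = 0 := by
      unfold gg
      rw [indicator_of_notMem hx]
    rw [e1, e2]
    exact hasDerivAt_const _ _

theorem test_props {φ : V m → ℝ} (hφ : ContDiff ℝ (⊤ : ℕ∞) φ) (hs : HasCompactSupport φ)
    (i : Fin (m + 1)) : MemLp (fun v => (φ v : ℂ)) 2 volume ∧
      MemLp (fun v => (LTd.pd i φ v : ℂ)) 2 volume := by
  have hpdc : Continuous (LTd.pd i φ) :=
    (hφ.continuous_fderiv (by simp)).clm_apply continuous_const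
  have hpds : HasCompactSupport (LTd.pd i φ) :=
    (hs.fderiv (𝕜 := ℝ)).comp_left (g := fun L : V m →L[ℝ] ℝ => L (Pi.single i 1)) rfl
  exact ⟨(hφ.continuous.memLp_of_hasCompactSupport hs).ofReal,
    (hpdc.memLp_of_hasCompactSupport hpds).ofReal⟩

theorem test_bdd {φ : V m → ℝ} (hs : HasCompactSupport φ) (z : Fin m → ℝ) :
    ∀ᶠ r : ℝ in atTop, φ (Fin.cons r z) = 0 := by
  obtain ⟨M, hM⟩ := hs.isCompact.isBounded.exists_norm_le
  filter_upwards [eventually_gt_atTop M] with r hr
  by_contra hne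
  have h1 := hM _ (subset_tsupport φ hne)
  have h2 : ‖(Fin.cons r z : V m) 0‖ ≤ ‖(Fin.cons r z : V m)‖ := norm_le_pi_norm _ _
  rw [Fin.cons_zero, Real.norm_eq_abs] at h2
  have h3 := le_abs_self r
  linarith

/-- **weak differentiability** -/
theorem Half.wgrad (h : Half k m lam U) (hk : 1 ≤ k) (hl : 0 ≤ lam)
    (hc : 0 < ((k : ℝ) / 2) ^ 2 - (k : ℝ) / 2 + lam) : LTd.WGradC (ff k U) (gg k U) := by
  have hk' : (1 : ℝ) ≤ k := by exact_mod_cast hk
  have hα : 0 < (k : ℝ) / 2 := by positivity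
  have hf2 := ff_memLp h
  have hg2 := gg_memLp h hk hl hc
  refine ⟨hf2, hg2, ?_⟩
  intro i φ hφ hs
  refine Fin.cases ?_ (fun j => ?_) i
  · have hT := test_props hφ hs 0
    have I1 : Integrable (fun v => ff k U v * (LTd.pd 0 φ v : ℂ)) := hf2.integrable_mul hT.2
    have I2 : Integrable (fun v => gg k U 0 v * (φ v : ℂ)) := (hg2 0).integrable_mul hT.1
    rw [slice_integral I1, slice_integral I2, ← integral_neg]
    refine integral_congr_ae ?_
    filter_upwards [h.slices, slice_ae I1, slice_ae I2] with z hz hI1 hI2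
    have e1 : ∀ r : ℝ, ff k U (Fin.cons r z : V m) * (LTd.pd 0 φ (Fin.cons r z : V m) : ℂ) =
        (Ioi (0 : ℝ)).indicator (fun r => h0 k U z r * (LTd.pd 0 φ (Fin.cons r z : V m) : ℂ)) r := by
      intro r
      rw [ff_slice]
      by_cases hr : r ∈ Ioi (0 : ℝ)
      · rw [indicator_of_mem hr, indicator_of_mem hr]
      · rw [indicator_of_notMem hr, indicator_of_notMem hr, zero_mul]
    have e2 : ∀ r : ℝ, gg k U 0 (Fin.cons r z : V m) * (φ (Fin.cons r z : V m) : ℂ) =
        (Ioi (0 : ℝ)).indicator (fun r => h1 k U z r * (φ (Fin.cons r z : V m) : ℂ)) r := by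
      intro r
      rw [gg_zero_slice]
      by_cases hr : r ∈ Ioi (0 : ℝ)
      · rw [indicator_of_mem hr, indicator_of_mem hr]
      · rw [indicator_of_notMem hr, indicator_of_notMem hr, zero_mul]
    simp only [e1, e2] at hI1 hI2 ⊢
    rw [integrable_indicator_iff measurableSet_Ioi] at hI1 hI2
    rw [integral_indicator measurableSet_Ioi, integral_indicator measurableSet_Ioi]
    have hψ : ∀ r : ℝ, HasDerivAt (fun r : ℝ => (φ (Fin.cons r z : V m) : ℂ))
        (LTd.pd 0 φ (Fin.cons r z : V m) : ℂ) r := by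
      intro r
      have h2 : HasDerivAt (fun r : ℝ => φ (Fin.cons r z : V m)) (LTd.pd 0 φ (Fin.cons r z : V m)) r :=
        ((hφ.differentiable (by simp)) _).hasFDerivAt.comp_hasDerivAt r (cons_deriv z r)
      exact h2.ofReal_comp
    have hlim := limit_zero2 hα hl hc (h.deriv z) (h.ch1 z) hz.1 hz.2
    have h3 := integral_Ioi_mul_deriv_eq_deriv_mul (a := 0) (u := h0 k U z) (u' := h1 k U z)
      (v := fun r : ℝ => (φ (Fin.cons r z : V m) : ℂ))
      (v' := fun r : ℝ => (LTd.pd 0 φ (Fin.cons r z : V m) : ℂ)) (a' := 0) (b' := 0)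
      (fun r hr => h.deriv z r hr) (fun r _ => hψ r) hI1 hI2 ?_ ?_
    · rw [h3]
      simp
    · have h4 : Tendsto (fun r : ℝ => (φ (Fin.cons r z : V m) : ℂ)) (𝓝[>] 0)
          (𝓝 (φ (Fin.cons (0 : ℝ) z : V m) : ℂ)) := (hψ 0).continuousAt.tendsto.mono_left nhdsWithin_le_nhds
      have h5 := hlim.mul h4
      rwa [zero_mul] at h5
    · refine tendsto_const_nhds.congr' ?_
      filter_upwards [test_bdd hs z] with r hr
      simp [hr]
  · have hT := test_props hφ hs j.succ
    have h3 := integral_bilinear_hasLineDerivAt_right_eq_neg_left_of_integrable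
      (μ := (volume : Measure (V m))) (f := ff k U) (f' := gg k U j.succ)
      (g := fun v => (φ v : ℂ)) (g' := fun v => (LTd.pd j.succ φ v : ℂ))
      (v := Pi.single j.succ 1) (B := ContinuousLinearMap.mul ℝ ℂ)
      ((hg2 j.succ).integrable_mul hT.1) (hf2.integrable_mul hT.2) (hf2.integrable_mul hT.1)
      (fun x _ => h.line j x) (fun x _ => ?_)
    · exact h3
    · have h4 : HasLineDerivAt ℝ φ (LTd.pd j.succ φ x) x (Pi.single j.succ 1) :=
        ((hφ.differentiable (by simp)) x).hasFDerivAt.hasLineDerivAt _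
      unfold HasLineDerivAt at h4 ⊢
      exact h4.ofReal_comp

end Pool.Agent.K7.H4.LT
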